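import Pool.Agent.Helper19.S12.Dfi

/-! THE CORNER for `ST 1 2`. -/

set_option autoImplicit false

namespace Pool.Agent.Helper19.S12

open Finset Filter Topology Set MeasureTheory Pool.Agent.Helper69.RK Pool.Agent.Helper31.EC Pool.Agent.Helper31.EC.Sp
open Pool.Agent.Helper40.EL Pool.Agent.Helper42.NS Pool.Agent.Helper52.KP Pool.Agent.Helper52.SL
open Pool.Agent.Helper91.GR Pool.Agent.Helper80.HCI
open scoped NNReal

noncomputable section

/-- **A CORNER**: a robust connected system, coordinates `i`, `j`, a window `c` at which the window function of the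
sheets `P_i = F(t, P_j)` has a finite derivative `w ≥ 1`; (R1) and (D) hold at this window. -/
structure Crn {S : Sp} (s : Sys S 2) (i j : Fin 2) (c w b : ℝ) : Prop where
  hij : i ≠ j
  rob : RobS s
  con : Helper40.EL.ic s 0 = 0
  hu : la s j {0} 0 ≤ la s i {0} 0
  c_pos : 0 < c
  eta_lt : la s i {0, j.succ} c < 1
  cu_le : c + la s j {0} 0 ≤ la s i {0, j.succ} c
  w1 : 1 ≤ w
  dw : HasDerivAt (la s i {0, j.succ}) w c
  b1 : 1 ≤ b
  b2 : b < 2
  r1 : R1 s (la s j {0} 0) c
  d5 : D5 s i j c b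

/-- **EXISTENCE OF A CORNER** -/
theorem exists_crn (hSJ : ∀ (S : Sp) (s : Sys S 2) (i j : Fin 2) (σ : ℝ), i ≠ j → HH (SJ i {0, j.succ}) s 0 σ →
    Pool.Agent.Helper89.LX.Hf s 1 0 σ) (hST : ¬ Pool.Agent.Helper59.EV.ST 1 2) :
    ∃ (S : Sp) (s : Sys S 2) (i j : Fin 2) (c w b : ℝ), Crn s i j c w b := by
  obtain ⟨S, s, i, j, b, hij, hb1, hb2, hR, hic, hη0, hu, hden⟩ := exists_top hSJ hST
  set u := la s j {0} 0 with hud
  set η := la s i {0, j.succ} with hη
  have hu0 : 0 ≤ u := la_nonneg 0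
  have hη1 : η 1 = 1 := le_antisymm (la_le_one 1) (la_ge_self zero_le_one le_rfl)
  obtain ⟨c0, hc0, hc01, hfull, hlt⟩ := exists_first (η := η) hη0 hη1 la_le_one (fun _ _ h => la_mono h)
    (fun c v h => la_right h)
  -- trivial sheets
  have htriv : ∀ c, 0 ≤ c → c < c0 → c + la s i {0} 0 ≤ η c := by
    intro c h0 h1
    have h2 : la s i {0} c ≤ η c := la_le_SJ (by simp) c
    rw [la_line hic h0 (by linarith)] at h2
    rcases min_choice 1 (c + la s i {0} 0) with h3 | h3
    · rw [h3] at h2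
      have := hlt c h1
      linarith
    · rw [h3] at h2
      exact h2
  have hspeed : ∀ c c', 0 ≤ c → c < c' → c' < c0 → c' - c ≤ η c' - η c := by
    intro c c' h0 h1 h2
    have h3 := la_speed (s := s) (i := i) (J := {0, j.succ}) h0 h1.le (by linarith : c' ≤ 1)
    have h4 := hlt c' h2
    rcases min_choice 1 (la s i {0, j.succ} c + (c' - c)) with h5 | h5
    · rw [h5] at h3
      exact absurd h3 (not_le.mpr h4)
    · rw [h5] at h3
      linarith
  have hcu : c0 + u ≤ 1 := by
    by_contra hcon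
    push Not at hcon
    have h1 : 1 - u < c0 := by linarith
    have h2 : u ≤ 1 := la_le_one 0
    have h3 := htriv (1 - u) (by linarith) h1
    have h4 := hlt (1 - u) h1
    linarith
  obtain ⟨C, d0, hd0, hd0c, hlip⟩ := lip_two hR hic hij hu hb1 hb2 hden hc0 hc01 hfull
  -- typical windows
  have hP : ∀ᵐ c : ℝ, c ∈ Ioo (c0 - d0) c0 → R1 s u c ∧ (c ∈ Ioo (0 : ℝ) (1 - u) → η c = c + u → ∀ b : ℝ,
      (∃ y' ≤ b, HasDerivAt (s.F 0) y' (η c)) → D5 s i j c b) := by
    filter_upwards [R1_ae (s := s) (u := u) (H_x_la hic hij hu), D5_B hR hic hij hu] with c h1 h2 hc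
    exact ⟨h1 ⟨by linarith [hc.1], by linarith [hc.2]⟩, h2⟩
  obtain ⟨δ, hδ, hδ1⟩ : ∃ δ : ℝ, 0 < δ ∧ (c0 + u < 1 → |C| * δ ≤ 1 - c0 - u) := by
    rcases hcu.lt_or_eq with h | h
    · refine ⟨(1 - c0 - u) / (|C| + 1), div_pos (by linarith) (by positivity), fun _ => ?_⟩
      rw [← mul_div_assoc, div_le_iff₀ (by positivity)]
      nlinarith [abs_nonneg C]
    · exact ⟨1, one_pos, fun h2 => absurd h (by linarith)⟩
  obtain ⟨c, hc, hcd, ⟨hr1, hD⟩, ⟨w, hw1, hdw⟩, -, hy⟩ := Pool.Agent.Helper54.NS.exists_corner (η := η) (y := s.F 0)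
    (l := 1) (b := b) hd0 (fun c h1 c' h2 h3 => hspeed c c' (by linarith [h1.1]) h3 h2.2) (fun c h1 => hlt c h1.2)
    hlip hden (fun (x : Empty) => x.elim) (fun x => x.elim) hP hδ
  have hcpos : 0 < c := by linarith [hcd.1]
  have hηc := hlt c hc.2
  have htr := htriv c hcpos.le hc.2
  refine ⟨S, s, i, j, c, w, b, hij, hR, hic, hu, hcpos, hηc, by linarith, hw1, hdw, hb1, hb2, hr1, ?_⟩
  rcases hcu.lt_or_eq with h | h
  · have h1 := hlip c hcd
    have h2 := hδ1 h
    have h3 : C * (c0 - c) ≤ |C| * δ := by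
      have h4 : C * (c0 - c) ≤ |C| * (c0 - c) := mul_le_mul_of_nonneg_right (le_abs_self C) (by linarith [hc.2])
      have h5 : |C| * (c0 - c) ≤ |C| * δ := mul_le_mul_of_nonneg_left (by linarith [hc.1]) (abs_nonneg C)
      linarith
    exact D5_A hR hic hij hc0 h hfull hc.2 (by
      show c0 + u ≤ η c
      linarith) hηc hy
  · have h1 : η c = c + u := by
      apply le_antisymm
      · have h2 : ∀ c', c < c' → c' < c0 → η c ≤ 1 - (c' - c) := by
          intro c' h3 h4
          have h5 := hspeed c c' hcpos.le h3 h4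
          have h6 := hlt c' h4
          linarith
        have h3 : η c ≤ 1 - (c0 - c) := by
          apply le_of_forall_pos_le_add
          intro e he
          have h4 := h2 (max ((c + c0) / 2) (c0 - e)) (lt_max_of_lt_left (by linarith [hc.2]))
            (max_lt (by linarith [hc.2]) (by linarith))
          have h5 := le_max_right ((c + c0) / 2) (c0 - e)
          linarith
        linarith
      · linarith
    exact hD ⟨hcpos, by linarith [hc.2]⟩ h1 b hy

end

end Pool.Agent.Helper19.S12
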