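import Pool.Agent.Helper19.S12.Win
import Pool.Agent.Helper3.ZM.Mk

/-! In connected systems the depth to which the coordinate `x_i` of the direction is known does not depend on the
window: sheets `P_i = F(t)` of the window `c` have depth at most `c + u`, `u` the depth at the window zero. -/

set_option autoImplicit false

namespace Pool.Agent.Helper19.S12

open Finset Filter Topology Pool.Agent.Helper69.RK Pool.Agent.Helper31.EC Pool.Agent.Helper31.EC.Sp
open Pool.Agent.Helper40.EL Pool.Agent.Helper42.NS Pool.Agent.Helper52.KP Pool.Agent.Helper52.SL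
open Pool.Agent.Helper91.GR
open Pool.Agent.Helper3.LF (pl pl_zero pl_succ)
open Pool.Agent.Helper59.LF (ladd DM_ladd)

noncomputable section

variable {S : Sp} {m : ℕ} {s : Sys S m}

/-- the slope of the distance from a sheet along the line -/
theorem slope_typ {i : Fin m} {J : Finset (Fin (m + 1))} {c σ : ℝ} (h0 : 0 ≤ c) (hc : c < 1) (hσ : σ ≤ 1) {l : Lab S}
    (hl : DMc s c l) {v : ∀ k, (l k).T.Ω → Cf (m + 1)} (hv : Sht s i J σ l v) :
    ∃ K : ℕ → ℝ, S.Sub K ∧ Typ (S := l.sp) (fun k (ω : (l k).T.Ω) =>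
      |d1 i J (v k ω) (s.x.v k ((l k).p.π ω))| ≤ K k * S.dl (σ - c) k) := by
  obtain ⟨hm, K, hK, hs, ht⟩ := hv
  obtain ⟨K', hK', hT⟩ := win_df h0 hc hl.1 i J v (Eventually.of_forall hm) hK hs 0 le_rfl (fun _ => 1)
    (S.Sub_const zero_le_one)
  refine ⟨fun k => 2 * (K' k * (K k + 1)), (S.Sub_const (by norm_num)).mul (hK'.mul (hK.add (S.Sub_const zero_le_one))), ?_⟩
  refine Typ.mono (S := l.sp) (Typ.and ht hT) ?_
  filter_upwards [hK.1, hK'.1] with k hk2 hk3 ω a g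
  obtain ⟨g1, g2⟩ := g
  have hdc := S.dl_pos c k
  have hdσ := S.dl_pos σ k
  have h1σ : S.dl 1 k ≤ S.dl σ k := S.dl_anti hσ k
  have w0 := g2 (s.t.v k ((l k).p.π ω) 0) (by rw [sub_self, abs_zero, one_mul]; exact (S.dl_pos _ k).le)
  have w1 := g2 (s.t.v k ((l k).p.π ω) 0 + S.dl (c - 0) k) (by
    rw [add_sub_cancel_left, abs_of_pos (S.dl_pos _ k), one_mul])
  rw [zero_mul, Real.rpow_zero, mul_one] at w0 w1
  rw [sub_zero] at w1
  have hb : K' k * (|dfl s i J l v k ω| + S.dl 1 k) ≤ K' k * (K k + 1) * S.dl σ k := by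
    rw [mul_assoc]
    apply mul_le_mul_of_nonneg_left _ hk3
    rw [add_mul, one_mul]
    exact add_le_add g1 h1σ
  have e1 : d1 i J (v k ω) (s.x.v k ((l k).p.π ω)) * S.dl c k =
      df i J (v k ω) (s.a.v k ((l k).p.π ω)) (s.x.v k ((l k).p.π ω)) (s.t.v k ((l k).p.π ω) 0 + S.dl c k) -
      df i J (v k ω) (s.a.v k ((l k).p.π ω)) (s.x.v k ((l k).p.π ω)) (s.t.v k ((l k).p.π ω) 0) := by
    rw [df_lin, df_lin]
    ring
  have e2 : |d1 i J (v k ω) (s.x.v k ((l k).p.π ω))| * S.dl c k =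
      |d1 i J (v k ω) (s.x.v k ((l k).p.π ω)) * S.dl c k| := by
    rw [abs_mul, abs_of_pos hdc]
  have hsl : |d1 i J (v k ω) (s.x.v k ((l k).p.π ω))| * S.dl c k ≤ 2 * (K' k * (K k + 1) * S.dl σ k) := by
    rw [e2, e1]
    refine (abs_sub _ _).trans ?_
    linarith
  have e7 : S.dl σ k = S.dl (σ - c) k * S.dl c k := by
    rw [← S.dl_add]
    congr 1
    ring
  rw [e7] at hsl
  have h8 : |d1 i J (v k ω) (s.x.v k ((l k).p.π ω))| * S.dl c k ≤
      2 * (K' k * (K k + 1)) * S.dl (σ - c) k * S.dl c k := by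
    refine hsl.trans (le_of_eq ?_)
    ring
  exact le_of_mul_le_mul_right h8 hdc

/-- a function of the label -/
theorem ct_bot {l : Lab S} {f : TR S} {g : ∀ k, (l k).T.Ω → ℝ} {r : ℝ}
    (hm : ∀ k ω ω', (l k).T.μ ω ≠ 0 → (l k).T.μ ω' ≠ 0 → (l k).V ω ω' → (l k).T.Z ω ω' → g k ω = g k ω')
    {K : ℕ → ℝ} (hK : S.Sub K)
    (ht : Typ (S := l.sp) (fun k (ω : (l k).T.Ω) => |TR.ev f k ((l k).p.π ω) - g k ω| ≤ K k * S.dl r k)) :
    up1 l (TR.dg f r) = ⊥ := by
  apply le_antisymm _ bot_le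
  rw [← ct_dg]
  have hz : (msk (∅ : Finset (Fin 1)) (cv l (TR.vec fun _ : Fin 1 => f))).dg r ≤ ⊥ := by
    apply msk_dg_le
    intro j hj
    exact absurd hj (Finset.notMem_empty j)
  refine le_trans ?_ hz
  have hKS : (l.ovr 1 one_pos).Sub (fun k => 2 * K k) := by
    have h3 : l.sp.Sub (fun k => 2 * K k) := by
      rw [Pool.Agent.Helper3.LF.sp_Sub]
      exact (S.Sub_const (by norm_num)).mul hK
    exact chg_sub l.V 1 one_pos h3
  refine dg_pair_le (S := l.ovr 1 one_pos) (ct l f) _ r _ (typ_chg l.V one_pos ht) _ hKS ?_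
  refine Eventually.of_forall fun k ω ω' a b e e' hZ _ => ?_
  have hdl : (l.ovr 1 one_pos).dl r k = S.dl r k := by
    have h3 : (l.ovr 1 one_pos).dl r k = l.sp.dl (1 * r) k := chg_dl l.V 1 one_pos r k
    rw [h3, one_mul, Pool.Agent.Helper3.LF.sp_dl]
  rw [hdl]
  have hg : g k ω = g k ω' := hm k ω ω' a b hZ.1 hZ.2
  have e1 : TR.ev (ct l f) k ω = TR.ev f k ((l k).p.π ω) := rfl
  have e2 : TR.ev (ct l f) k ω' = TR.ev f k ((l k).p.π ω') := rfl
  have e3 : |TR.ev f k ((l k).p.π ω) - g k ω| ≤ K k * S.dl r k := e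
  have e4 : |TR.ev f k ((l k).p.π ω') - g k ω'| ≤ K k * S.dl r k := e'
  rw [e1, e2]
  rw [← hg] at e4
  have h5 := abs_le.mp e3
  have h6 := abs_le.mp e4
  rw [abs_le]
  constructor <;> linarith [h5.1, h5.2, h6.1, h6.2]

theorem d1_line (i : Fin m) (f : Cf (m + 1)) (x : Fin m → ℝ) : d1 i {0} f x = x i - f.2 0 := by
  unfold d1
  rw [Finset.sum_singleton, Fin.cons_zero, mul_one]

/-- a sheet `P_i = F(t)` of depth `σ` of the window `c` knows `x_i` up to the level `σ - c` -/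
theorem up1_x_bot {i : Fin m} {c σ : ℝ} (h0 : 0 ≤ c) (hc : c < 1) (hσ : σ ≤ 1) {l : Lab S} (hl : DMc s c l)
    {v : ∀ k, (l k).T.Ω → Cf (m + 1)} (hv : Sht s i {0} σ l v) : up1 l (TR.dg (TR.cor s.x i) (σ - c)) = ⊥ := by
  obtain ⟨K, hK, hT⟩ := slope_typ h0 hc hσ hl hv
  refine ct_bot (g := fun k ω => (v k ω).2 0) (fun k ω ω' a b hV hZ => by rw [hv.1 k ω ω' a b hV hZ]) hK ?_
  refine Typ.mono (S := l.sp) hT (Eventually.of_forall fun k ω _ g => ?_)
  rw [d1_line] at g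
  exact g

/-- an element of the line and of the point is known to a label of every window -/
theorem HH_line {i : Fin m} {r : ℝ} (h0 : 0 ≤ r) (h1 : r ≤ 1) (hx : TR.dg (TR.cor s.x i) r ≤ lB s) (c : ℝ) :
    HH (SJ i {0}) s c r := by
  set y : S.VV 2 := TR.vec ![TR.cor s.a i, TR.cor s.x i] with hy
  -- the digits
  have ha : TR.dg (TR.cor s.a i) r ≤ lB s := by
    have e : TR.cor s.a i = TR.cor s.P i - TR.cor s.t 0 * TR.cor s.x i := by
      apply Subtype.ext
      funext k ω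
      show s.a.v k ω i = (s.a.v k ω i + s.t.v k ω 0 * s.x.v k ω i) - s.t.v k ω 0 * s.x.v k ω i
      ring
    rw [e, sub_eq_add_neg]
    refine (TR.add_dg_le _ _ _).trans (sup_le ?_ ((TR.neg_dg_le _ _).trans ?_))
    · exact (TR.cor_dg_le s.P i r).trans ((s.P.dg_mono h1).trans le_sup_left)
    · refine (TR.mul_dg_le _ _ _).trans (sup_le ?_ hx)
      exact (TR.cor_dg_le s.t 0 r).trans ((s.t.dg_mono h1).trans le_sup_right)
  have hB : y.dg r ≤ lB s := by
    rw [hy, TR.vec_dg_le_iff]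
    intro j
    fin_cases j
    · exact ha
    · exact hx
  have hA : y.dg r ≤ lA s c := by
    rw [hy, TR.vec_dg_le_iff]
    intro j
    have h2 : s.a.dg r ≤ s.xi 1 := (s.a.dg_mono h1).trans le_sup_left
    have h3 : s.x.dg r ≤ s.xi 1 := (s.x.dg_mono h1).trans le_sup_right
    fin_cases j
    · exact ((TR.cor_dg_le s.a i r).trans h2).trans le_sup_left
    · exact ((TR.cor_dg_le s.x i r).trans h3).trans le_sup_left
  -- the label
  set l0 : Lab S := fun k => FLab.triv (S.F k) with hl0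
  set l : Lab S := ladd l0 (fun k => Setoid.comap (l0 k).p.π (Setoid.ker (y.cellv r k))) with hl
  have hcl : cl (y.bdd r).toInf = y.dg r := by
    rw [← io_eq]
    rfl
  have nul : ∀ A : S.Inf, y.dg r ≤ cl A → Nul S (fun k => h (fc (Setoid.comap (l0 k).p.π (Setoid.ker (y.cellv r k))) :
      FL (l0 k).T) ((l0 k).v ⊔ (l0 k).p.map (rpI A k))) := by
    intro A hA'
    have h2 : PLe (rpI (y.bdd r).toInf) (rpI A) := PLe_rpI.mpr (by rw [hcl]; exact hA')
    apply Nul.of_le h2 (Eventually.of_forall fun k => h_nonneg _ _)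
    refine Eventually.of_forall fun k => ?_
    have h3 : (fc (Setoid.comap (l0 k).p.π (Setoid.ker (y.cellv r k))) : FL (l0 k).T) =
      (l0 k).p.map (rpI (y.bdd r).toInf k) := rfl
    rw [h3]
    refine (h_anti le_sup_right).trans ?_
    rw [(l0 k).p.h_map]
  have hDM : DMc s c l := by
    apply DM_ladd (Lab.DM_triv _ _)
    · apply nul (Inf.sup (Inf.sup (s.Ia 1) (s.Ix 1)) (s.It c))
      rw [cl_A]
      exact hA
    · apply nul (Inf.sup (s.IP 1) (s.It 1))
      rw [cl_B]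
      exact hB
  obtain ⟨Kx, hKx, hxb⟩ := s.x.bd
  obtain ⟨Kt, hKt, htb⟩ := s.t.bd
  -- the sheet
  set v : ∀ k, (l k).T.Ω → Cf (m + 1) := fun k ω =>
    ((S.dl r k) * (y.cellv r k ((l0 k).p.π ω) 0 : ℝ), fun j => if j = 0 then (S.dl r k) * (y.cellv r k ((l0 k).p.π ω) 1 : ℝ)
      else 0) with hv
  have hfl : ∀ (k : ℕ) (z : ℝ), |z - S.dl r k * (⌊z / S.dl r k⌋ : ℝ)| ≤ S.dl r k := by
    intro k z
    have hd := S.dl_pos r k
    have e1 := Int.floor_le (z / S.dl r k)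
    have e2 := Int.lt_floor_add_one (z / S.dl r k)
    rw [le_div_iff₀ hd] at e1
    rw [div_lt_iff₀ hd] at e2
    rw [abs_le]
    constructor <;> nlinarith
  refine HH_of_Sht h0 h1 hDM (v := v) ⟨?_, fun k => (Kx k + 1) + (1 + Kt k), ?_, ?_, ?_⟩
  · intro k ω ω' _ _ hV _
    have h2 : y.cellv r k ((l0 k).p.π ω) = y.cellv r k ((l0 k).p.π ω') := hV.2
    rw [hv]
    simp only
    rw [h2]
  · exact (hKx.add (S.Sub_const zero_le_one)).add ((S.Sub_const zero_le_one).add hKt)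
  · filter_upwards [hxb, hKx.1, hKt.1] with k k1 k2 k3 ω hω j
    show |if j = 0 then _ else (0 : ℝ)| ≤ _
    split_ifs
    · have h2 := hfl k (s.x.v k ((l0 k).p.π ω) i)
      have h3 := k1 _ ((l0 k).p.supp ω hω) i
      have h4 : S.dl r k ≤ 1 := by
        have := S.dl_anti h0 k
        rwa [S.dl_zero] at this
      have h5 : (y.cellv r k ((l0 k).p.π ω) 1 : ℝ) = (⌊s.x.v k ((l0 k).p.π ω) i / S.dl r k⌋ : ℝ) := rfl
      rw [h5]
      have h6 := abs_le.mp h2
      have h7 := abs_le.mp h3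
      rw [abs_le]
      constructor <;> linarith [h6.1, h6.2, h7.1, h7.2]
    · rw [abs_zero]
      linarith
  · refine Typ.mono (S := l.sp) (E := fun _ _ => True) Typ_true ?_
    filter_upwards [htb, hKx.1, hKt.1] with k k1 k2 k3 ω hω _
    have h2 := hfl k (s.x.v k ((l0 k).p.π ω) i)
    have h3 := hfl k (s.a.v k ((l0 k).p.π ω) i)
    have h4 := k1 _ ((l0 k).p.supp ω hω) 0
    have hd := S.dl_pos r k
    have e1 : dfl s i {0} l v k ω = (s.a.v k ((l0 k).p.π ω) i - S.dl r k * (⌊s.a.v k ((l0 k).p.π ω) i / S.dl r k⌋ : ℝ)) +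
        s.t.v k ((l0 k).p.π ω) 0 * (s.x.v k ((l0 k).p.π ω) i - S.dl r k * (⌊s.x.v k ((l0 k).p.π ω) i / S.dl r k⌋ : ℝ)) := by
      show df i {0} (v k ω) (s.a.v k ((l0 k).p.π ω)) (s.x.v k ((l0 k).p.π ω)) (s.t.v k ((l0 k).p.π ω) 0) = _
      unfold df aff
      rw [Finset.sum_singleton, pl_zero]
      show _ - (S.dl r k * (⌊s.a.v k ((l0 k).p.π ω) i / S.dl r k⌋ : ℝ) +
        (if (0 : Fin (m + 1)) = 0 then S.dl r k * (⌊s.x.v k ((l0 k).p.π ω) i / S.dl r k⌋ : ℝ) else 0) *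
        s.t.v k ((l0 k).p.π ω) 0) = _
      rw [if_pos rfl]
      ring
    rw [e1]
    refine (abs_add_le _ _).trans ?_
    rw [abs_mul]
    have h5 : |s.t.v k ((l0 k).p.π ω) 0| * |s.x.v k ((l0 k).p.π ω) i - S.dl r k *
        (⌊s.x.v k ((l0 k).p.π ω) i / S.dl r k⌋ : ℝ)| ≤ Kt k * S.dl r k := mul_le_mul h4 h2 (abs_nonneg _) k3
    have h6 : 0 ≤ (Kx k + 1) * S.dl r k := by positivity
    nlinarith

/-- digits of the direction which are known at the window zero -/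
theorem HH_of_H_zero {i : Fin m} {r : ℝ} (h0 : 0 ≤ r) (h1 : r ≤ 1) (hx : H (TR.dg (TR.cor s.x i) r) = 0) (c : ℝ) :
    HH (SJ i {0}) s c r :=
  HH_line h0 h1 ((h_eq_zero_iff.mp ((h_bot _).trans hx)).trans bot_le) c

theorem H_zero_of_HH {i : Fin m} (hs : Helper40.EL.ic s 0 = 0) {c σ : ℝ} (h0 : 0 ≤ c) (hc : c < 1)
    (h : HH (SJ i {0}) s c σ) : H (TR.dg (TR.cor s.x i) (σ - c)) = 0 := by
  obtain ⟨l, v, hl, hv⟩ := Sht_of_HH h
  have h1 : σ ≤ 1 := HH_le_one h
  refine H_zero_of_up1 hs hl ?_ (up1_x_bot h0 hc h1 hl hv)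
  exact (TR.cor_dg_le s.x i _).trans ((s.x.dg_mono (by linarith)).trans le_sup_right)

/-- DEPTH OF THE DIRECTION -/
theorem la_line {i : Fin m} (hs : Helper40.EL.ic s 0 = 0) {c : ℝ} (h0 : 0 ≤ c) (hc : c < 1) :
    la s i {0} c = min 1 (c + la s i {0} 0) := by
  apply le_antisymm
  · apply le_min (la_le_one c)
    have h1 := H_zero_of_HH hs h0 hc (HH_la (s := s) (i := i) (J := {0}) c)
    rcases le_or_gt (la s i {0} c - c) 0 with h2 | h2
    · have := la_nonneg (s := s) (i := i) (J := {0}) 0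
      linarith
    · have h3 := le_la (HH_of_H_zero (s := s) h2.le (by have := la_le_one (s := s) (i := i) (J := {0}) c; linarith) h1 0)
      linarith
  · have h1 := la_speed (s := s) (i := i) (J := {0}) le_rfl h0 hc.le
    rw [sub_zero, add_comm (la s i {0} 0)] at h1
    exact h1

/-- the direction is not known beyond the depth of the window zero -/
theorem H_x_pos {i : Fin m} {r : ℝ} (h1 : la s i {0} 0 < r) (h3 : r ≤ 1) : 0 < H (TR.dg (TR.cor s.x i) r) := by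
  rcases (H_nonneg (TR.dg (TR.cor s.x i) r)).lt_or_eq with h2 | h2
  · exact h2
  · exfalso
    have h0 : 0 ≤ r := (la_nonneg (s := s) (i := i) (J := {0}) 0).trans h1.le
    have := le_la (HH_of_H_zero (s := s) h0 h3 h2.symm 0)
    linarith

end

end Pool.Agent.Helper19.S12
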