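import Pool.Agent.Helper19.S12.Kan
import Pool.Agent.Helper54.NS.Levels
import Pool.Agent.Helper3.ZM.Mk

/-! (R1): at almost every window `c` the labels `kappa_(c')`, `|c' - c| ≤ A E`, have the same information on the
digits `u + A E` of the direction, up to `o(E)`. -/

set_option autoImplicit false

namespace Pool.Agent.Helper19.S12

open Finset Filter Topology Set MeasureTheory Pool.Agent.Helper69.RK Pool.Agent.Helper31.EC Pool.Agent.Helper31.EC.Sp
open Pool.Agent.Helper40.EL Pool.Agent.Helper42.NS Pool.Agent.Helper52.KP Pool.Agent.Helper52.SL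
open Pool.Agent.Helper91.GR

noncomputable section

variable {S : Sp} {m : ℕ}

/-- information of the label `kappa_c` -/
def Jy (s : Sys S m) (Y : S.L) (c : ℝ) : ℝ := H Y - H (up1 (kap s c) Y)

variable {s : Sys S m}

theorem Jy_mono (Y : S.L) {c c' : ℝ} (h : c ≤ c') : Jy s Y c ≤ Jy s Y c' := by
  have := (kap_isKap s c).H_anti (kap_isKap s c') h Y
  unfold Jy
  linarith

theorem Jy_nonneg (Y : S.L) (c : ℝ) : 0 ≤ Jy s Y c := by
  have := H_up1_le (kap s c) Y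
  unfold Jy
  linarith

theorem Jy_le (Y : S.L) (c : ℝ) : Jy s Y c ≤ H Y := by
  have := H_nonneg (up1 (kap s c) Y)
  unfold Jy
  linarith

/-- increments are monotone in the variable -/
theorem Jy_incr {Y Y' : S.L} (hY : Y ≤ Y') {c c' : ℝ} (hcc : c ≤ c') : Jy s Y c' - Jy s Y c ≤ Jy s Y' c' - Jy s Y' c := by
  have h1 := h_kap_anti hcc (kap_isKap s c) (kap_isKap s c') Y' Y
  have h2 : ∀ c, h (up1 (kap s c) Y') (up1 (kap s c) Y) = H (up1 (kap s c) Y') - H (up1 (kap s c) Y) := by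
    intro c
    have h3 : up1 (kap s c) Y' ⊔ up1 (kap s c) Y = up1 (kap s c) Y' := sup_eq_left.mpr (up1_mono _ hY)
    have h4 : h (up1 (kap s c) Y') (up1 (kap s c) Y) = H (up1 (kap s c) Y' ⊔ up1 (kap s c) Y) - H (up1 (kap s c) Y) := rfl
    rw [h4, h3]
  rw [h2, h2] at h1
  unfold Jy
  linarith

theorem H_x_le {u : ℝ} (hu : H (s.x.dg u) = 0) {δ : ℝ} (hδ : 0 ≤ δ) : H (s.x.dg (u + δ)) ≤ m * δ := by
  have h1 := H_chain (s.x.dg u) (s.x.dg (u + δ))
  rw [sup_eq_right.mpr (s.x.dg_mono (show u ≤ u + δ by linarith)), hu, zero_add] at h1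
  rw [h1]
  have h2 := s.x.h_dg_dg (show u ≤ u + δ by linarith)
  rw [add_sub_cancel_left] at h2
  exact h2

/-- (R1) at the window `c` -/
def R1 (s : Sys S m) (u c : ℝ) : Prop := ∀ A : ℕ, ∀ ea : ℝ, 0 < ea → ∃ E0 : ℝ, 0 < E0 ∧ ∀ E, 0 < E → E ≤ E0 →
  Jy s (s.x.dg (u + A * E)) (c + A * E) - Jy s (s.x.dg (u + A * E)) (c - A * E) ≤ ea * E

/-- scales -/
def Ej (j : ℕ) : ℝ := (1 / 2) ^ j

theorem Ej_pos (j : ℕ) : 0 < Ej j := by unfold Ej; positivity

theorem Ej_sum : Summable Ej := summable_geometric_two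

theorem Ej_succ (j : ℕ) : Ej (j + 1) = Ej j / 2 := by
  unfold Ej
  rw [pow_succ]
  ring

theorem Ej_anti {j k : ℕ} (h : j ≤ k) : Ej k ≤ Ej j := by
  unfold Ej
  exact pow_le_pow_of_le_one (by norm_num) (by norm_num) h

theorem exists_scale {E : ℝ} {N : ℕ} (h0 : 0 < E) (h1 : E ≤ Ej N) : ∃ j, N ≤ j ∧ E ≤ Ej j ∧ Ej j ≤ 2 * E := by
  obtain ⟨k, hk⟩ : ∃ k : ℕ, Ej k < E := exists_pow_lt_of_lt_one h0 (by norm_num)
  have hk' : ∃ k : ℕ, Ej k < E := ⟨k, hk⟩
  classical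
  set n := Nat.find hk' with hn
  have h2 : Ej n < E := Nat.find_spec hk'
  have h3 : N < n := by
    by_contra hc
    push Not at hc
    have := Ej_anti hc
    linarith
  obtain ⟨q, hq⟩ : ∃ q, n = q + 1 := ⟨n - 1, by omega⟩
  refine ⟨q, by omega, ?_, ?_⟩
  · have := Nat.find_min hk' (m := q) (by omega)
    exact not_lt.mp this
  · rw [hq, Ej_succ] at h2
    linarith

/-- **(R1) AT ALMOST EVERY WINDOW** -/
theorem R1_ae {u : ℝ} (hu : H (s.x.dg u) = 0) : ∀ᵐ c : ℝ, c ∈ Ioo (0 : ℝ) 1 → R1 s u c := by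
  set F : ℕ → ℕ → ℝ → ℝ := fun A j c => Jy s (s.x.dg (u + A * Ej j)) c with hF
  have hb : ∀ A j c, F A j c ≤ (m * A) * Ej j := fun A j c =>
    (Jy_le _ _).trans ((H_x_le hu (by have := Ej_pos j; positivity)).trans (le_of_eq (by ring)))
  -- right increments
  have h1 : ∀ᵐ c : ℝ, ∀ A : ℕ, c ∈ Ioo (0 : ℝ) 1 → ∀ B : ℕ,
      Tendsto (fun j => (F A j (c + B * Ej j) - F A j c) / Ej j) atTop (𝓝 0) := by
    rw [ae_all_iff]
    intro A
    exact Pool.Agent.Helper54.NS.r1_ae (F := F A) (E := Ej) (m := m * A) Ej_pos Ej_sum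
      (fun j c _ c' _ h => Jy_mono _ h) (fun j c _ => Jy_nonneg _ _) (fun j c _ => hb A j c)
  -- left increments
  have h2 : ∀ᵐ c : ℝ, ∀ A : ℕ, 1 - c ∈ Ioo (0 : ℝ) 1 → ∀ B : ℕ,
      Tendsto (fun j => (((m * A) * Ej j - F A j (1 - (1 - c + B * Ej j))) -
        ((m * A) * Ej j - F A j (1 - (1 - c)))) / Ej j) atTop (𝓝 0) := by
    rw [ae_all_iff]
    intro A
    have h3 := Pool.Agent.Helper54.NS.r1_ae (F := fun j c => (m * A) * Ej j - F A j (1 - c)) (E := Ej) (m := m * A)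
      Ej_pos Ej_sum
      (fun j c _ c' _ h => by
        have : F A j (1 - c') ≤ F A j (1 - c) := Jy_mono _ (by linarith)
        show (m * A) * Ej j - F A j (1 - c) ≤ (m * A) * Ej j - F A j (1 - c')
        linarith)
      (fun j c _ => by
        have := hb A j (1 - c)
        show 0 ≤ (m * A) * Ej j - F A j (1 - c)
        linarith)
      (fun j c _ => by
        have : 0 ≤ F A j (1 - c) := Jy_nonneg _ _
        show (m * A) * Ej j - F A j (1 - c) ≤ (m * A) * Ej j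
        linarith)
    exact (Measure.measurePreserving_sub_left volume (1 : ℝ)).quasiMeasurePreserving.ae h3
  filter_upwards [h1, h2] with c g1 g2 hc A ea hea
  have k1 := (g1 A hc A).eventually (gt_mem_nhds (show (0 : ℝ) < ea / 4 by linarith))
  have k2 := (g2 A ⟨by linarith [hc.2], by linarith [hc.1]⟩ A).eventually (gt_mem_nhds (show (0 : ℝ) < ea / 4 by linarith))
  obtain ⟨N, hN⟩ := eventually_atTop.mp (k1.and k2)
  refine ⟨Ej N, Ej_pos N, fun E h0 hE => ?_⟩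
  obtain ⟨j, hj, hj1, hj2⟩ := exists_scale h0 hE
  obtain ⟨k3, k4⟩ := hN j hj
  have hEj := Ej_pos j
  rw [div_lt_iff₀ hEj] at k3 k4
  have e1 : 1 - (1 - c + A * Ej j) = c - A * Ej j := by ring
  have e2 : 1 - (1 - c) = c := by ring
  rw [e1, e2] at k4
  have hA : (0 : ℝ) ≤ A := Nat.cast_nonneg A
  have hAE : (A : ℝ) * E ≤ A * Ej j := mul_le_mul_of_nonneg_left hj1 hA
  have hAE0 : (0 : ℝ) ≤ A * E := by positivity
  have m1 : Jy s (s.x.dg (u + A * E)) (c + A * E) ≤ Jy s (s.x.dg (u + A * E)) (c + A * Ej j) := Jy_mono _ (by linarith)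
  have m2 : Jy s (s.x.dg (u + A * E)) (c - A * Ej j) ≤ Jy s (s.x.dg (u + A * E)) (c - A * E) := Jy_mono _ (by linarith)
  have m3 := Jy_incr (s := s) (s.x.dg_mono (show u + A * E ≤ u + A * Ej j by linarith))
    (show c - A * Ej j ≤ c + A * Ej j by linarith)
  have k3' : Jy s (s.x.dg (u + A * Ej j)) (c + A * Ej j) - Jy s (s.x.dg (u + A * Ej j)) c < ea / 4 * Ej j := k3
  have k4' : (m * A) * Ej j - Jy s (s.x.dg (u + A * Ej j)) (c - A * Ej j) -
      ((m * A) * Ej j - Jy s (s.x.dg (u + A * Ej j)) c) < ea / 4 * Ej j := k4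
  nlinarith

end

end Pool.Agent.Helper19.S12
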