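import Pool.Agent.Helper19.S12.Lip2
import Pool.Agent.Helper19.S12.R1x

/-! (D): digits of the coordinate `P_i` beyond the sheet of the window are not full over the base. -/

set_option autoImplicit false

namespace Pool.Agent.Helper19.S12

open Finset Filter Topology Set MeasureTheory Pool.Agent.Helper69.RK Pool.Agent.Helper31.EC Pool.Agent.Helper31.EC.Sp
open Pool.Agent.Helper40.EL Pool.Agent.Helper42.NS Pool.Agent.Helper52.KP Pool.Agent.Helper52.SL
open Pool.Agent.Helper91.GR Pool.Agent.Helper80.HCI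
open Pool.Agent.Helper3.ZM (h_kap)
open scoped NNReal

noncomputable section

section

variable {S : Sp} {m : ℕ} {s : Sys S m}

/-- the digits of a coordinate of the point -/
abbrev Pd (s : Sys S m) (i : Fin m) (r : ℝ) : S.L := TR.dg (TR.cor s.P i) r

theorem Pd_mono (i : Fin m) {r r' : ℝ} (h : r ≤ r') : Pd s i r ≤ Pd s i r' := TR.dg_mono _ h

theorem Pd_lip (i : Fin m) {r r' : ℝ} (hr : r ≤ r') : h (Pd s i r') (Pd s i r) ≤ r' - r := by
  have h1 := (TR.vec fun _ : Fin 1 => TR.cor s.P i).h_dg_dg hr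
  simp only [Nat.cast_one, one_mul] at h1
  exact h1

/-- entropies over the base -/
def Gz (s : Sys S m) (i j : Fin m) (c r : ℝ) : ℝ :=
  h (up1 (kap s c) (Pd s i r)) (up1 (kap s c) (Pd s j 1 ⊔ s.T))

theorem Gz_sub (i j : Fin m) (c : ℝ) {r r' : ℝ} (hr : r ≤ r') : Gz s i j c r' - Gz s i j c r =
    h (up1 (kap s c) (Pd s i r')) (up1 (kap s c) (Pd s i r ⊔ (Pd s j 1 ⊔ s.T))) := by
  unfold Gz
  have h1 : h (up1 (kap s c) (Pd s i r')) (up1 (kap s c) (Pd s j 1 ⊔ s.T)) =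
      h (up1 (kap s c) (Pd s i r ⊔ Pd s i r')) (up1 (kap s c) (Pd s j 1 ⊔ s.T)) := by
    rw [sup_eq_right.mpr (Pd_mono i hr)]
  rw [h1, up1_sup, h_chain, up1_sup _ (Pd s i r)]
  ring

theorem Gz_mono (i j : Fin m) (c : ℝ) {r r' : ℝ} (hr : r ≤ r') : Gz s i j c r ≤ Gz s i j c r' :=
  h_mono (up1_mono _ (Pd_mono i hr))

theorem Gz_lip (i j : Fin m) (c : ℝ) {r r' : ℝ} (hr : r ≤ r') : Gz s i j c r' - Gz s i j c r ≤ r' - r := by
  rw [Gz_sub i j c hr]
  refine (h_anti (up1_mono _ le_sup_left)).trans ?_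
  exact (h_up1_le _ _ _).trans (Pd_lip i hr)

theorem Gz_anti (i j : Fin m) {c c' r r' : ℝ} (hc : c ≤ c') (hr : r ≤ r') :
    Gz s i j c' r' - Gz s i j c' r ≤ Gz s i j c r' - Gz s i j c r := by
  rw [Gz_sub i j c hr, Gz_sub i j c' hr]
  exact h_kap_anti hc (kap_isKap s c) (kap_isKap s c') _ _

theorem Gz_lipschitz (i j : Fin m) (c : ℝ) : LipschitzWith 1 (Gz s i j c) := by
  apply LipschitzWith.of_dist_le_mul
  intro x y
  rw [NNReal.coe_one, one_mul, Real.dist_eq, Real.dist_eq]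
  rcases le_total x y with hxy | hxy
  · have h1 := Gz_mono (s := s) i j c hxy
    have h2 := Gz_lip (s := s) i j c hxy
    rw [abs_sub_comm, abs_sub_comm x, abs_of_nonneg (by linarith), abs_of_nonneg (by linarith)]
    exact h2
  · have h1 := Gz_mono (s := s) i j c hxy
    have h2 := Gz_lip (s := s) i j c hxy
    rw [abs_of_nonneg (by linarith), abs_of_nonneg (by linarith)]
    exact h2

/-- digits known to the label -/
theorem Pd_le_of_HH {i : Fin m} {J : Finset (Fin (m + 1))} {c σ r : ℝ} (hr : r ≤ σ) (hh : HH (SJ i J) s c σ) {A : S.L}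
    (hA : ∀ j ∈ J, TR.dg (pc s j) r ≤ A) : h (up1 (kap s c) (Pd s i r)) (up1 (kap s c) A) = 0 := by
  obtain ⟨l, v, w, hl, hv, -⟩ := exists_kap2 hh hh
  rw [h_kap (kap_isKap s c) hl]
  exact h_eq_zero_iff.mpr (hv.dg_le hr fun j hj => up1_mono _ (hA j hj))

end

section

variable {S : Sp} {s : Sys S 2} {i j : Fin 2}

/-- fullness of the digits of the base -/
theorem Pj_full_lvl (hR : RobS s) (hic : Helper40.EL.ic s 0 = 0) (j : Fin 2) {c : ℝ} (h0 : 0 ≤ c) (h1 : c < 1) {r : ℝ}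
    (hr1 : r ≤ 1) : r - c - la s j {0} 0 ≤ h (up1 (kap s c) (Pd s j r)) (up1 (kap s c) s.T) := by
  have h2 := Pj_full hR.d hic j h0 h1 (kap_isKap s c)
  have h3 : h (up1 (kap s c) (Pd s j 1)) (up1 (kap s c) s.T) =
      h (up1 (kap s c) (Pd s j r ⊔ Pd s j 1)) (up1 (kap s c) s.T) := by
    rw [sup_eq_right.mpr (Pd_mono j hr1)]
  rw [up1_sup, h_chain] at h3
  have h4 : h (up1 (kap s c) (Pd s j 1)) (up1 (kap s c) (Pd s j r) ⊔ up1 (kap s c) s.T) ≤ 1 - r := by
    refine (h_anti le_sup_left).trans ?_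
    exact (h_up1_le _ _ _).trans (Pd_lip j hr1)
  linarith

/-- (D) at the window `c` -/
def D5 (s : Sys S 2) (i j : Fin 2) (c b : ℝ) : Prop := ∀ ea : ℝ, 0 < ea → ∃ E0 : ℝ, 0 < E0 ∧ ∀ E, 0 < E → E ≤ E0 →
  ∀ p q, la s i {0, j.succ} c ≤ p → p ≤ q → q ≤ la s i {0, j.succ} c + E →
    Gz s i j c q - Gz s i j c p ≤ (b - 1) * (q - p) + ea * E

/-- (D) at windows near the first full window -/
theorem D5_A (hR : RobS s) (hic : Helper40.EL.ic s 0 = 0) (hij : i ≠ j) {c0 : ℝ} (hc0 : 0 < c0)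
    (hcu : c0 + la s j {0} 0 < 1) (hla : la s i {0, j.succ} c0 = 1) {c b : ℝ} (hc : c < c0)
    (hη : c0 + la s j {0} 0 ≤ la s i {0, j.succ} c) (hη1 : la s i {0, j.succ} c < 1)
    (hb : ∃ y' ≤ b, HasDerivAt (s.F 0) y' (la s i {0, j.succ} c)) : D5 s i j c b := by
  have hu0 : 0 ≤ la s j {0} 0 := la_nonneg 0
  obtain ⟨y', hy, hd⟩ := hb
  have hz : HH (SJ (C2 hij).z (C2 hij).Jz) s c0 1 := by
    rw [C2_Jz]
    show HH (SJ i {0, j.succ}) s c0 1
    rw [HH_iff_la, hla]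
  have hRR : HH (SJ (C2 hij).R (C2 hij).JR) s c0 (c0 + la s j {0} 0) := by
    rw [C2_JR]
    show HH (SJ j {0}) s c0 (c0 + la s j {0} 0)
    rw [HH_iff_la, la_line hic hc0.le (by linarith)]
    exact le_min hcu.le le_rfl
  obtain ⟨l', v', w', hl', hv', hw'⟩ := exists_kap2 hz hRR
  have hfull := full_ic hR hic j hc0.le (show c0 < 1 by linarith)
  rw [Sys.F_zero_left] at hfull
  intro ea hea
  obtain ⟨h0, hh0, hinc⟩ := Pool.Agent.Helper54.NS.incr_of_deriv hd hea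
  refine ⟨min h0 (1 - la s i {0, j.succ} c), lt_min hh0 (by linarith), fun E hE hE0 p q hp hpq hq => ?_⟩
  have hE1 := hE0.trans (min_le_left _ _)
  have hE2 := hE0.trans (min_le_right _ _)
  have hq1 : q ≤ 1 := by linarith
  have h1 := (C2 hij).nc hc0.le (by linarith) hcu.le hl' hv' hw' (by push_cast; linarith) (hη.trans hp) hpq hq1
  have h2 := hinc E hE hE1 (p - la s i {0, j.succ} c) (q - la s i {0, j.succ} c) (by linarith) (by linarith) (by linarith)
  rw [add_sub_cancel, add_sub_cancel] at h2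
  have h3 := (abs_le.mp h2).2
  rw [Gz_sub i j c hpq]
  have h4 : h (up1 (kap s c) (Pd s i q)) (up1 (kap s c) (Pd s i p ⊔ (Pd s j 1 ⊔ s.T))) ≤
      h (Pd s i q) (Pd s i p ⊔ (Pd s j 1 ⊔ s.T)) := h_up1_le _ _ _
  have h5 : h (Pd s i q) (Pd s i p ⊔ (Pd s j 1 ⊔ s.T)) ≤
      h (TR.dg (pc s (C2 hij).z.succ) q) ((C2 hij).M s 1 ⊔ (TR.dg (pc s (C2 hij).z.succ) p ⊔ s.T)) := by
    show h (Pd s i q) (Pd s i p ⊔ (Pd s j 1 ⊔ s.T)) ≤ h (Pd s i q) ((C2 hij).M s 1 ⊔ (Pd s i p ⊔ s.T))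
    apply h_anti
    refine sup_le ?_ (sup_le le_sup_left (le_sup_right.trans le_sup_right))
    have e1 : (C2 hij).M s 1 = ((C2 hij).fl s).dg 1 ⊔ Pd s j 1 := rfl
    rw [e1]
    refine sup_le ?_ (le_sup_left.trans le_sup_right)
    have e2 : ((C2 hij).fl s).dg 1 ≤ ⊥ := by
      unfold Cd.fl
      rw [TR.vec_dg_le_iff]
      intro a
      exact a.elim0
    exact e2.trans bot_le
  have h6 : y' * (q - p) ≤ b * (q - p) := mul_le_mul_of_nonneg_right hy (by linarith)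
  have e4 : (q - la s i {0, j.succ} c - (p - la s i {0, j.succ} c)) = q - p := by ring
  rw [e4] at h3
  push_cast at h1
  linarith

/-- the deficit over the label at trivial sheets -/
theorem Gz_le (hR : RobS s) (hic : Helper40.EL.ic s 0 = 0) (hij : i ≠ j) (hu : la s j {0} 0 ≤ la s i {0} 0) {c : ℝ}
    (h0 : 0 ≤ c) {r' : ℝ} (hr : c + la s j {0} 0 ≤ r') (hr1 : r' ≤ 1) (hc1 : c < 1) :
    Gz s i j c r' - Gz s i j c (c + la s j {0} 0) ≤
      s.F 0 r' - s.F 0 (c + la s j {0} 0) - (r' - (c + la s j {0} 0)) := by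
  set u := la s j {0} 0 with hud
  set κ := kap s c with hκ
  have hu0 : 0 ≤ u := la_nonneg 0
  -- the label knows the digits of the point
  have hPk : ∀ k : Fin 2, h (up1 κ (Pd s k (c + u))) (up1 κ s.T) = 0 := by
    intro k
    have h1 : c + u ≤ la s k {0} c := by
      rw [la_line hic h0 hc1]
      apply le_min (by linarith)
      rcases fin2_cases hij k with h2 | h2
      · rw [h2]; linarith
      · rw [h2]
    refine Pd_le_of_HH le_rfl (HH_iff_la.mpr h1) fun j hj => ?_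
    rw [Finset.mem_singleton] at hj
    rw [hj, pc_zero_dg]
    exact s.t.dg_mono (by linarith)
  have hPle : ∀ r, s.P.dg r ≤ Pd s j r ⊔ Pd s i r := by
    intro r
    rw [TR.vv_dg_le_iff]
    intro k
    rcases fin2_cases hij k with h2 | h2
    · rw [h2]; exact (le_sup_right : Pd s i r ≤ Pd s j r ⊔ Pd s i r)
    · rw [h2]; exact (le_sup_left : Pd s j r ≤ Pd s j r ⊔ Pd s i r)
  have hP0 : h (up1 κ (s.P.dg (c + u))) (up1 κ s.T) = 0 := by
    apply le_antisymm _ (h_nonneg _ _)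
    refine (h_mono (up1_mono _ (hPle (c + u)))).trans ?_
    rw [up1_sup, h_chain, hPk j, zero_add]
    exact (h_anti le_sup_right).trans (hPk i).le
  -- the profile
  have e1 : s.F 0 r' - s.F 0 (c + u) = h (s.P.dg r') (s.P.dg (c + u) ⊔ s.T) := by
    rw [Sys.F_zero_left, Sys.F_zero_left]
    have h2 : h (s.P.dg r') s.T = h (s.P.dg (c + u) ⊔ s.P.dg r') s.T := by
      rw [sup_eq_right.mpr (s.P.dg_mono hr)]
    rw [h2, h_chain]
    ring
  have e2 : h (up1 κ (s.P.dg r')) (up1 κ (s.P.dg (c + u) ⊔ s.T)) ≤ h (s.P.dg r') (s.P.dg (c + u) ⊔ s.T) :=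
    h_up1_le _ _ _
  have e3 : h (up1 κ (s.P.dg r')) (up1 κ (s.P.dg (c + u) ⊔ s.T)) = h (up1 κ (s.P.dg r')) (up1 κ s.T) := by
    have h2 : h (up1 κ (s.P.dg r')) (up1 κ s.T) = h (up1 κ (s.P.dg (c + u)) ⊔ up1 κ (s.P.dg r')) (up1 κ s.T) := by
      rw [← up1_sup, sup_eq_right.mpr (s.P.dg_mono hr)]
    rw [h2, h_chain, hP0, zero_add, up1_sup]
  have e4 : h (up1 κ (Pd s j r' ⊔ Pd s i r')) (up1 κ s.T) ≤ h (up1 κ (s.P.dg r')) (up1 κ s.T) :=
    h_mono (up1_mono _ (sup_le (TR.cor_dg_le _ _ _) (TR.cor_dg_le _ _ _)))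
  rw [up1_sup, h_chain] at e4
  have e5 := Pj_full_lvl hR hic j h0 hc1 hr1
  have e6 : Gz s i j c r' ≤ h (up1 κ (Pd s i r')) (up1 κ (Pd s j r') ⊔ up1 κ s.T) := by
    unfold Gz
    rw [← up1_sup]
    exact h_anti (up1_mono _ (sup_le_sup_right (Pd_mono j hr1) _))
  have e7 : 0 ≤ Gz s i j c (c + u) := h_nonneg _ _
  linarith

/-- (D) at almost every window before the first full one, if the sheets are trivial -/
theorem D5_B (hR : RobS s) (hic : Helper40.EL.ic s 0 = 0) (hij : i ≠ j) (hu : la s j {0} 0 ≤ la s i {0} 0) :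
    ∀ᵐ c : ℝ, c ∈ Ioo (0 : ℝ) (1 - la s j {0} 0) → la s i {0, j.succ} c = c + la s j {0} 0 → ∀ b : ℝ,
      (∃ y' ≤ b, HasDerivAt (s.F 0) y' (la s i {0, j.succ} c)) → D5 s i j c b := by
  set u := la s j {0} 0 with hud
  have hu0 : 0 ≤ u := la_nonneg 0
  rcases lt_or_ge u 1 with hu1 | hu1
  swap
  · refine Eventually.of_forall fun c hc => ?_
    exfalso
    linarith [hc.1, hc.2]
  obtain ⟨f, -, -, hf, -⟩ := Pool.Agent.Helper54.NS.level_rates (G := Gz s i j) (cs := fun r => r - u) (K := 1)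
    (a := u) (b := 1) hu1 (fun c _ => (Gz_lipschitz i j c).lipschitzOnWith)
    (fun c c' _ hcc _ r r' _ hrr _ => Gz_anti i j hcc hrr)
    (fun x _ y _ hxy => by show x - u < y - u; linarith)
    (fun r hr => ⟨by show 0 ≤ r - u; linarith [hr.1], by show r - u ≤ 1; linarith [hr.2]⟩)
  have hf2 := (measurePreserving_add_right volume u).quasiMeasurePreserving.ae hf
  filter_upwards [hf2] with c hc hc1 hη b hb
  have hcu : c + u ∈ Ioo u 1 := ⟨by linarith [hc1.1], by linarith [hc1.2]⟩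
  have hrate := hc hcu
  rw [add_sub_cancel_right] at hrate
  obtain ⟨y', hy, hd⟩ := hb
  rw [hη] at hd
  -- the rate
  have hfb : f (c + u) ≤ b - 1 := by
    apply le_of_forall_pos_le_add
    intro e he
    obtain ⟨h1, hh1, hr1⟩ := hrate (e / 2) (half_pos he)
    obtain ⟨h2, hh2, hr2⟩ := Pool.Agent.Helper54.NS.incr_of_deriv hd (half_pos he)
    set δ : ℝ := min (min h1 h2) (1 - (c + u)) with hδ
    have hδ0 : 0 < δ := lt_min (lt_min hh1 hh2) (by linarith [hcu.2])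
    have hδ1 : δ ≤ h1 := (min_le_left _ _).trans (min_le_left _ _)
    have hδ2 : δ ≤ h2 := (min_le_left _ _).trans (min_le_right _ _)
    have hδ3 : δ ≤ 1 - (c + u) := min_le_right _ _
    have k1 := (abs_le.mp (hr1 δ hδ0 hδ1 0 δ le_rfl hδ0.le le_rfl)).1
    have k2 := (abs_le.mp (hr2 δ hδ0 hδ2 0 δ le_rfl hδ0.le le_rfl)).2
    rw [add_zero, sub_zero] at k1 k2
    have k3 := Gz_le hR hic hij hu hc1.1.le (r' := c + u + δ) (by linarith) (by linarith) (by linarith [hcu.2])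
    have k4 : y' * δ ≤ b * δ := mul_le_mul_of_nonneg_right hy hδ0.le
    have k5 : f (c + u) * δ ≤ (b - 1 + e) * δ := by
      have : c + la s j {0} 0 = c + u := rfl
      rw [this] at k3
      nlinarith
    exact le_of_mul_le_mul_right k5 hδ0
  intro ea hea
  obtain ⟨h1, hh1, hr1⟩ := hrate ea hea
  refine ⟨h1, hh1, fun E hE hE1 p q hp hpq hq => ?_⟩
  rw [hη] at hp hq
  have k1 := (abs_le.mp (hr1 E hE hE1 (p - (c + u)) (q - (c + u)) (by linarith) (by linarith) (by linarith))).2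
  rw [add_sub_cancel, add_sub_cancel] at k1
  have k2 : q - (c + u) - (p - (c + u)) = q - p := by ring
  rw [k2] at k1
  have k3 : f (c + u) * (q - p) ≤ (b - 1) * (q - p) := mul_le_mul_of_nonneg_right hfb (by linarith)
  linarith

end

end

end Pool.Agent.Helper19.S12
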