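import Pool.Agent.Helper19.S12.Fct
import Pool.Agent.Helper68.ST2.Nd

/-! THE FACTS `Bk` of the corner of four windows. -/

set_option autoImplicit false

namespace Pool.Agent.Helper19.S12

open Finset Filter Topology Set Pool.Agent.Helper69.RK Pool.Agent.Helper31.EC Pool.Agent.Helper31.EC.Sp
open Pool.Agent.Helper60.CS Pool.Agent.Helper68.ST2 Pool.Agent.Helper47.T4 Pool.Agent.Helper47.CA
open Pool.Agent.Helper40.NSK Pool.Agent.Helper99.LF

noncomputable section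

/-- informations over the four windows: time, fullness of the base, (R1), unsaturation -/
structure Fin4 {Q : Sp} (F : Fw Q) (ρ ε P : ℝ) : Prop where
  tm0 : 1 - F.c ≤ h (chgL F.V0 1 one_pos (TR.dg F.L.t 1)) (chgL F.V0 1 one_pos F.Lx)
  tm2 : 1 - (F.c + F.e * F.s) ≤ h (chgL F.V2 1 one_pos (TR.dg F.L.t 1)) (chgL F.V2 1 one_pos F.Lx)
  fu2 : 1 - (F.c + F.e * F.s) - F.u ≤ h (chgL F.V2 1 one_pos (TR.dg F.L.P 1)) (chgL F.V2 1 one_pos (TR.dg F.L.t 1))
  H1 : (1 - (F.c + F.e)) + (1 - (F.c + F.e) - F.u) ≤ H (chgL F.V1 1 one_pos F.M)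
  H3 : (1 - (F.c + F.e * F.s + F.e)) + (1 - (F.c + F.e * F.s + F.e) - F.u) ≤ H (chgL F.V3 1 one_pos F.M)
  r1 : H (chgL F.V2 1 one_pos (TR.dg F.L.x (F.u + F.e))) - H (chgL F.V3 1 one_pos (TR.dg F.L.x (F.u + F.e))) ≤ ε * F.e
  un : ∀ (T : Sp) (p : Pj T (Q.chg F.V0 F.e F.he)) (E : ∀ k, (T.F k).Ω → Prop) (hE : 0 < ul (T.pr E)),
    P ≤ ul (T.pr E) → ∀ a b : ℝ, 0 ≤ a → a ≤ b → b ≤ F.σ + F.v →
    h (restL E hE (p.map (chgL F.V0 F.e F.he (TR.dg F.L.R (F.r0 + F.e * b)))))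
      (restL E hE (p.map (chgL F.V0 F.e F.he (TR.dg F.L.R (F.r0 + F.e * a) ⊔ F.M)))) ≤ (1 - ρ) * (b - a) + ε

section

variable {Q : Sp} {L : Ln Q} {ξ : TR Q} {u : ℝ} {V : ∀ k, Setoid (Q.F k).Ω} {c r : ℝ} (W : Wn Q L ξ u V c r)

/-- (y2) -/
theorem wn_y2 {v : ℝ} (h1 : c + u + v ≤ 1)
    (hF : 1 - c - u ≤ h (chgL V 1 one_pos (TR.dg L.P 1)) (chgL V 1 one_pos (TR.dg L.t 1))) {T2 : Q.L}
    (hT : chgL V 1 one_pos T2 ≤ chgL V 1 one_pos (TR.dg L.t 1)) :
    v ≤ h (chgL V 1 one_pos (TR.dg W.Y v)) (chgL V 1 one_pos T2) := by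
  obtain ⟨F, hFd⟩ : ∃ F : Q.L → (Q.chg V 1 one_pos).L, F = fun x => chgL V 1 one_pos x := ⟨_, rfl⟩
  have hFe : ∀ x, chgL V 1 one_pos x = F x := fun x => by rw [hFd]
  have h3 := W.Y_up (fun k => le_rfl) 1 one_pos v (A := F (TR.dg L.t 1))
    (by rw [hFd]; exact chgL_mono _ _ _ (TR.dg_mono _ h1))
  rw [hFe, hFe] at hF hT h3
  rw [hFe, hFe]
  have h4 : h (F (TR.dg W.Y v)) (F (TR.dg L.t 1)) = h (F (TR.dg L.P (c + u + v))) (F (TR.dg L.t 1)) := by
    rw [← h_sup_right_of_le (A := F (TR.dg W.Y v)) (le_refl (F (TR.dg L.t 1))), h3, h_sup_right_of_le le_rfl]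
  have h5 : F (TR.dg L.P 1) = F (TR.dg L.P (c + u + v)) ⊔ F (TR.dg L.P 1) := by
    rw [eq_comm, sup_eq_right, hFd]
    exact chgL_mono _ _ _ (TR.dg_mono _ h1)
  rw [h5, h_chain] at hF
  have h6 : h (F (TR.dg L.P 1)) (F (TR.dg L.P (c + u + v)) ⊔ F (TR.dg L.t 1)) ≤ 1 - (c + u + v) := by
    refine (h_anti le_sup_left).trans ?_
    rw [hFd]
    exact Pool.Agent.Helper47.CA.chg_h_dg _ _ h1
  have h7 := h_anti (A := F (TR.dg W.Y v)) hT
  linarith

/-- (f3), upper bound -/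
theorem wn_f3 {v : ℝ} (h1 : c + u + v ≤ 1) {T2 : Q.L}
    (hT : chgL V 1 one_pos T2 = chgL V 1 one_pos (TR.dg L.t (c + v))) :
    h (chgL V 1 one_pos (TR.dg L.t 1 ⊔ TR.dg L.P 1)) (chgL V 1 one_pos (TR.dg W.Y v ⊔ T2)) ≤
      (1 - c - v) + (1 - c - u - v) := by
  have hu := W.hu
  rw [chgL_sup, chgL_sup, hT, sup_comm (chgL _ _ _ (TR.dg W.Y v))]
  have h3 := W.Y_up (fun k => le_rfl) 1 one_pos v (A := chgL V 1 one_pos (TR.dg L.t 1))
    (chgL_mono _ _ _ (TR.dg_mono _ h1))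
  refine (h_base_le (pc := chgL V 1 one_pos (TR.dg L.P (c + u + v))) ?_).trans ?_
  · rw [h3]
    exact le_sup_left
  · have a1 := Pool.Agent.Helper47.CA.chg_h_dg V L.t (show c + v ≤ 1 by linarith)
    have a2 := Pool.Agent.Helper47.CA.chg_h_dg V L.P h1
    linarith

/-- (f1), upper bound on events of extensions -/
theorem wn_f1 {v : ℝ} (h1 : c + u + v ≤ 1) (e : ℝ) (he : 0 < e) {T : Sp} (p : Pj T (Q.chg V e he))
    (E : ∀ k, (T.F k).Ω → Prop) (hE : 0 < ul (T.pr E)) :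
    h (restL E hE (p.map (chgL V e he (TR.dg L.t 1 ⊔ TR.dg L.P 1))))
      (restL E hE (p.map (chgL V e he (TR.dg W.T v ⊔ TR.dg W.Y v)))) ≤ ((1 - c - v) + (1 - c - u - v)) / e := by
  have hu := W.hu
  have hm : ∀ x y : Q.L, restL E hE (p.map (chgL V e he (x ⊔ y))) =
      restL E hE (p.map (chgL V e he x)) ⊔ restL E hE (p.map (chgL V e he y)) := fun x y => by
    rw [chgL_sup, p.map_sup, restL_sup]
  have h3 := W.Y_up (fun k => le_rfl) e he v (A := chgL V e he (TR.dg L.t 1)) (chgL_mono _ _ _ (TR.dg_mono _ h1))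
  rw [hm, hm, W.T_up (fun k => le_rfl) e he v]
  refine (h_base_le (pc := restL E hE (p.map (chgL V e he (TR.dg L.P (c + u + v))))) ?_).trans ?_
  · rw [← restL_sup, ← p.map_sup, h3]
    exact restL_mono E hE (p.map_mono le_sup_left)
  · have a1 := ev_h_dg p E hE L.t (show c + v ≤ 1 by linarith)
    have a2 := ev_h_dg p E hE L.P h1
    refine (add_le_add a1 a2).trans (le_of_eq ?_)
    ring

/-- (un): digits of the top coordinate over the base are digits of `P_i` over the base -/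
theorem wn_un {a b : ℝ} (h1 : r + a ≤ 1) (h2 : r + b ≤ 1) (e : ℝ) (he : 0 < e) {T : Sp} (p : Pj T (Q.chg V e he))
    (E : ∀ k, (T.F k).Ω → Prop) (hE : 0 < ul (T.pr E)) :
    h (restL E hE (p.map (chgL V e he (TR.dg W.Z b))))
      (restL E hE (p.map (chgL V e he (TR.dg W.Z a ⊔ (TR.dg L.t 1 ⊔ TR.dg L.P 1))))) =
    h (restL E hE (p.map (chgL V e he (TR.dg L.R (r + b)))))
      (restL E hE (p.map (chgL V e he (TR.dg L.R (r + a) ⊔ (TR.dg L.t 1 ⊔ TR.dg L.P 1))))) := by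
  obtain ⟨M, hM⟩ : ∃ M : Q.L, M = TR.dg L.t 1 ⊔ TR.dg L.P 1 := ⟨_, rfl⟩
  rw [← hM]
  have key : ∀ v : ℝ, r + v ≤ 1 → chgL V e he (TR.dg W.Z v) ⊔ chgL V e he M =
      chgL V e he (TR.dg L.R (r + v)) ⊔ chgL V e he M := fun v hv =>
    W.Z_up (fun k => le_rfl) e he v (A := chgL V e he M)
      (chgL_mono _ _ _ (by rw [hM]; exact (TR.dg_mono _ hv).trans le_sup_left))
      (chgL_mono _ _ _ (by rw [hM]; exact (TR.dg_mono _ hv).trans le_sup_right))
  have h3 := key b h2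
  have h4 : chgL V e he (TR.dg W.Z a ⊔ M) = chgL V e he (TR.dg L.R (r + a) ⊔ M) := by
    rw [chgL_sup, chgL_sup, key a h1]
  rw [h4, chgL_sup V e he (TR.dg L.R (r + a)),
    ← h_sup_right_of_le (A := restL E hE (p.map (chgL V e he (TR.dg W.Z b))))
    (C := restL E hE (p.map (chgL V e he M))) (restL_mono E hE (p.map_mono le_sup_right)),
    ← restL_sup, ← p.map_sup, h3, p.map_sup, restL_sup,
    h_sup_right_of_le (restL_mono E hE (p.map_mono le_sup_right))]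

end

/-- **THE FACTS `Bk`** -/
theorem fw_bk {Q : Sp} {F : Fw Q} {ρ ε P : ℝ} (hε : 0 ≤ ε) (I : Fin4 F ρ ε P) :
    Bk F.D F.V1 F.V3 F.L0 F.M0 F.M F.L2 F.X2 F.Y2 F.Lx ρ ε P := by
  have he := F.he
  have hes := F.hes
  have hu := F.W0.hu
  have hc := F.W0.hc
  have hlu := F.lu
  have hεe : 0 ≤ ε * F.e := mul_nonneg hε he.le
  refine { h1 := fun k _ _ _ _ _ z => F.n1 k z
           h3 := fun k _ _ _ _ _ z => F.n3 k z
           rL := F.rL
           rX := F.rX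
           rY := F.rY
           hL := F.a_hL 1 one_pos
           hM := F.a_hM 1 one_pos
           hLM := F.a_hLM 1 one_pos
           hM0 := F.a_hM0 1 one_pos
           l0 := F.a_l0 1 one_pos
           l2 := F.a_l2 1 one_pos
           g0 := F.a_g 1 one_pos (fun _ => le_rfl)
           g2 := F.a_g 1 one_pos F.n2
           t0 := ?_
           t2 := ?_
           y2 := ?_
           f3 := ?_
           k3 := F.a_k3 1 one_pos
           z3 := F.a_z3 1 one_pos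
           hu := ?_
           r1 := ?_
           f1 := ?_
           k1 := F.a_k1 1 one_pos
           z1 := F.a_z1 1 one_pos
           un := ?_ }
  · have h1 := time_of (b := F.c + F.e) (by linarith) I.tm0 le_rfl
    have h2 := F.W0.T_up (fun k => le_refl (F.V0 k)) 1 one_pos F.e
    show F.e ≤ h (chgL F.V0 1 one_pos (TR.dg F.W0.T F.e)) _
    rw [h2]
    refine le_trans ?_ h1
    linarith
  · have h1 := time_of (b := F.c + F.e * F.s + F.e) (by linarith) I.tm2 le_rfl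
    have h2 := F.T2_t 1 one_pos
    show F.e ≤ h (chgL F.V2 1 one_pos (T2 F.D)) _
    rw [h2]
    refine le_trans ?_ h1
    linarith
  · have h2 := F.T2_t 1 one_pos
    have h1 := wn_y2 F.W2 (v := F.e) (by linarith) (by linarith [I.fu2]) (T2 := T2 F.D) (by
      rw [h2]
      exact chgL_mono _ _ _ (TR.dg_mono _ (by linarith)))
    show ((1 : ℕ) : ℝ) * F.e ≤ _
    rw [Nat.cast_one, one_mul]
    exact h1
  · have h1 := wn_f3 F.W2 (v := F.e) (by linarith) (F.T2_t 1 one_pos)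
    have h2 := I.H3
    show h (chgL F.V2 1 one_pos F.M) (chgL F.V2 1 one_pos (F.Y2 ⊔ T2 F.D)) - ε * F.e ≤ H (chgL F.V3 1 one_pos F.M)
    have h3 : h (chgL F.V2 1 one_pos F.M) (chgL F.V2 1 one_pos (F.Y2 ⊔ T2 F.D)) ≤
      (1 - (F.c + F.e * F.s) - F.e) + (1 - (F.c + F.e * F.s) - F.u - F.e) := h1
    linarith
  · have h1 := F.a_hu 1 one_pos
    show h (chgL F.V2 1 one_pos (TR.dg F.D.ζ (F.e * F.σ))) (chgL F.V2 1 one_pos F.M) ≤ ε * F.e
    rw [h_zero h1]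
    exact hεe
  · have h1 := F.W2.X_up (fun k => le_refl (F.V2 k)) 1 one_pos F.e
    have h2 := F.W2.X_up F.n3 1 one_pos F.e
    show H (chgL F.V2 1 one_pos (TR.dg F.W2.X F.e)) - H (chgL F.V3 1 one_pos (TR.dg F.W2.X F.e)) ≤ ε * F.e
    rw [h1, h2]
    exact I.r1
  · refine ⟨(1 - F.c - F.e) + (1 - F.c - F.u - F.e), ?_, ?_⟩
    · intro T p E hE
      exact wn_f1 F.W0 (by linarith) F.e F.he p E hE
    · have h1 := I.H1
      show _ - ε * F.e ≤ _
      linarith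
  · intro T p E hE hP a b ha hab hb
    have h1 : F.e * b ≤ F.e * (F.σ + F.v) := mul_le_mul_of_nonneg_left hb he.le
    have h2 : F.e * a ≤ F.e * b := mul_le_mul_of_nonneg_left hab he.le
    have h3 := F.lv
    have h4 := wn_un F.W0 (a := F.e * a) (b := F.e * b) (by linarith) (by linarith) F.e F.he p E hE
    have h5 := I.un T p E hE hP a b ha hab hb
    have h6 := h4.trans_le h5
    exact h6

end

end Pool.Agent.Helper19.S12
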