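import Pool.Agent.Helper19.S12.Crn
import Pool.Agent.Helper60.CS.Los

/-! OUTPUT of the level 1 side of `ST 1 2` in the form used at the corner. -/

set_option autoImplicit false

namespace Pool.Agent.Helper19.S12

open Finset Filter Topology Set MeasureTheory Pool.Agent.Helper69.RK Pool.Agent.Helper31.EC Pool.Agent.Helper31.EC.Sp
open Pool.Agent.Helper40.EL Pool.Agent.Helper42.NS Pool.Agent.Helper52.KP Pool.Agent.Helper52.SL
open Pool.Agent.Helper91.GR Pool.Agent.Helper80.HCI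
open Pool.Agent.Helper3.ZM (h_kap)
open scoped NNReal

noncomputable section

variable {S : Sp} {s : Sys S 2} {i j : Fin 2} {c w b : ℝ}

namespace Crn

variable (K : Crn s i j c w b)

include K

theorem c_lt : c < 1 := by
  have h1 := la_ge_self (s := s) (i := i) (J := {0, j.succ}) K.c_pos.le
    (show c ≤ 1 by
      have := K.cu_le
      have h2 := K.eta_lt
      have h3 : 0 ≤ la s j {0} 0 := la_nonneg 0
      linarith)
  have := K.eta_lt
  linarith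

theorem cu_lt : c + la s j {0} 0 < 1 := K.cu_le.trans_lt K.eta_lt

theorem H_x : H (s.x.dg (la s j {0} 0)) = 0 := H_x_la K.con K.hij K.hu

theorem H_xj : H (TR.dg (TR.cor s.x j) (la s j {0} 0)) = 0 := H_Xj_la K.con j

/-- (F4) -/
theorem F4 {A ea : ℝ} (hA : 0 ≤ A) (hea : 0 < ea) : ∃ E0 : ℝ, 0 < E0 ∧ ∀ E, 0 < E → E ≤ E0 → ∀ th : ℝ, |th| ≤ A →
    |la s i {0, j.succ} (c + th * E) - la s i {0, j.succ} c - w * (th * E)| ≤ ea * E := by
  have h1 := K.dw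
  rw [hasDerivAt_iff_isLittleO] at h1
  have h2 := h1.def (show 0 < ea / (A + 1) by positivity)
  rw [Metric.eventually_nhds_iff] at h2
  obtain ⟨d, hd, h3⟩ := h2
  refine ⟨d / (2 * (A + 1)), by positivity, fun E hE hE0 th hth => ?_⟩
  rw [le_div_iff₀ (by positivity)] at hE0
  have h4 : |th * E| ≤ A * E := by
    rw [abs_mul, abs_of_pos hE]
    exact mul_le_mul_of_nonneg_right hth hE.le
  have h5 := h3 (y := c + th * E) (by
    rw [Real.dist_eq, add_sub_cancel_left]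
    nlinarith)
  rw [add_sub_cancel_left, Real.norm_eq_abs, Real.norm_eq_abs, smul_eq_mul, mul_comm (th * E) w] at h5
  refine h5.trans ?_
  calc ea / (A + 1) * |th * E| ≤ ea / (A + 1) * (A * E) := mul_le_mul_of_nonneg_left h4 (by positivity)
    _ ≤ ea * E := by
      rw [div_mul_eq_mul_div, div_le_iff₀ (by positivity)]
      nlinarith [mul_pos hea hE]

/-- (F3) for the digits of `x_j` -/
theorem F3 {A ea : ℝ} (hA : 0 ≤ A) (hea : 0 < ea) : ∃ E0 : ℝ, 0 < E0 ∧ ∀ E, 0 < E → E ≤ E0 →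
    H (up1 (kap s (c - A * E)) (TR.dg (TR.cor s.x j) (la s j {0} 0 + A * E))) -
      H (up1 (kap s (c + A * E)) (TR.dg (TR.cor s.x j) (la s j {0} 0 + A * E))) ≤ ea * E := by
  obtain ⟨E0, hE0, h1⟩ := K.r1 ⌈A⌉₊ ea hea
  refine ⟨E0, hE0, fun E hE hEE => ?_⟩
  have h2 := h1 E hE hEE
  have hAA : A ≤ (⌈A⌉₊ : ℝ) := Nat.le_ceil A
  have hAE : A * E ≤ ⌈A⌉₊ * E := mul_le_mul_of_nonneg_right hAA hE.le
  have hAE0 : 0 ≤ A * E := by positivity
  set u := la s j {0} 0 with hu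
  have hY : TR.dg (TR.cor s.x j) (u + A * E) ≤ s.x.dg (u + ⌈A⌉₊ * E) :=
    (TR.cor_dg_le _ _ _).trans (s.x.dg_mono (by linarith))
  have h3 := Jy_incr (s := s) hY (show c - A * E ≤ c + A * E by linarith)
  have h4 : Jy s (s.x.dg (u + ⌈A⌉₊ * E)) (c + A * E) ≤ Jy s (s.x.dg (u + ⌈A⌉₊ * E)) (c + ⌈A⌉₊ * E) :=
    Jy_mono _ (by linarith)
  have h5 : Jy s (s.x.dg (u + ⌈A⌉₊ * E)) (c - ⌈A⌉₊ * E) ≤ Jy s (s.x.dg (u + ⌈A⌉₊ * E)) (c - A * E) :=
    Jy_mono _ (by linarith)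
  have h6 : Jy s (TR.dg (TR.cor s.x j) (u + A * E)) (c + A * E) - Jy s (TR.dg (TR.cor s.x j) (u + A * E)) (c - A * E) =
      H (up1 (kap s (c - A * E)) (TR.dg (TR.cor s.x j) (u + A * E))) -
      H (up1 (kap s (c + A * E)) (TR.dg (TR.cor s.x j) (u + A * E))) := by
    unfold Jy
    ring
  linarith

/-- (F2) -/
theorem F2 {c' : ℝ} (h0 : 0 ≤ c') (h1 : c' < 1) :
    1 - c' - la s j {0} 0 ≤ h (up1 (kap s c') (Pd s j 1)) (up1 (kap s c') s.T) :=
  Pj_full K.rob.d K.con j h0 h1 (kap_isKap s c')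

/-- (F5) for windows `c' ≥ c` -/
theorem F5 {A ea : ℝ} (hA : 0 ≤ A) (hea : 0 < ea) : ∃ E0 : ℝ, 0 < E0 ∧ ∀ E, 0 < E → E ≤ E0 → ∀ c', c ≤ c' → ∀ p q,
    la s i {0, j.succ} c ≤ p → p ≤ q → q ≤ la s i {0, j.succ} c + A * E →
      h (up1 (kap s c') (Pd s i q)) (up1 (kap s c') (Pd s i p) ⊔ up1 (kap s c') (Pd s j 1) ⊔ up1 (kap s c') s.T) ≤
        (b - 1) * (q - p) + ea * E := by
  obtain ⟨E0, hE0, h1⟩ := K.d5 (ea / (A + 1)) (by positivity)
  refine ⟨E0 / (A + 1), by positivity, fun E hE hEE c' hcc p q hp hpq hq => ?_⟩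
  rw [le_div_iff₀ (by positivity)] at hEE
  have h2 := h1 ((A + 1) * E) (by positivity) (by linarith) p q hp hpq (by nlinarith)
  have h3 := Gz_anti (s := s) i j hcc hpq
  rw [Gz_sub i j c' hpq, up1_sup, up1_sup, ← sup_assoc] at h3
  refine (h3.trans h2).trans (le_of_eq ?_)
  field_simp

/-- the base is full over the labels `kappa_c'`, on all events of all extensions -/
theorem full_rob {c' : ℝ} (h0 : 0 ≤ c') (h1 : c' < 1) {l : Lab S} (hl : IsKap s c' l) :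
    Pool.Agent.Helper60.CS.Slow.RobGe (S := l.ovr 1 one_pos) (up1 l s.T ⊔ up1 l (Pd s j 1)) ⊥
      (2 - 2 * c' - la s j {0} 0) := by
  intro T p E hE
  have h2 := rob_ovr K.rob.d hl one_pos p E hE [(Sum.inl 1, 1), (Sum.inr (Sum.inl j), 1)] []
  have e1 : (digl (Fst 2) [(Sum.inl 1, (1 : ℝ)), (Sum.inr (Sum.inl j), 1)]).L s = s.T ⊔ Pd s j 1 := by
    rw [digl_cons]
    have a1 : (digl (Fst 2) [(Sum.inr (Sum.inl j), (1 : ℝ))]).L s = Pd s j 1 := L_Pj s j 1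
    rw [a1]
    rfl
  rw [e1, digl_nil] at h2
  have e2 : up1 l (⊥ : S.L) = ⊥ := l.upL_bot 1 one_pos
  have e3 : l.upL 1 one_pos (⊥ : S.L) = ⊥ := l.upL_bot 1 one_pos
  rw [e2, e3, div_one, h_bot, up1_sup, H_chain] at h2
  have e4 : l.upL 1 one_pos (s.T ⊔ Pd s j 1) = up1 l s.T ⊔ up1 l (Pd s j 1) := up1_sup l _ _
  rw [e4] at h2
  rw [h2]
  have h3 := Pj_full K.rob.d K.con j h0 h1 hl
  have h4 := hl.H_T h0 h1.le
  have h5 : h (up1 l (TR.dg (TR.cor s.P j) 1)) (up1 l s.T) = h (up1 l (Pd s j 1)) (up1 l s.T) := rfl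
  rw [h4]
  linarith

end Crn

end

end Pool.Agent.Helper19.S12
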