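import Pool.Agent.Helper19.S12.Ov
import Pool.Agent.Helper19.S12.Out
import Pool.Agent.Helper47.CA.Ent

/-! INFORMATION FACTS over the windows of a box. -/

set_option autoImplicit false

namespace Pool.Agent.Helper19.S12

open Finset Filter Topology Set Pool.Agent.Helper69.RK Pool.Agent.Helper31.EC Pool.Agent.Helper31.EC.Sp
open Pool.Agent.Helper40.EL Pool.Agent.Helper42.NS Pool.Agent.Helper52.KP Pool.Agent.Helper52.SL
open Pool.Agent.Helper91.GR Pool.Agent.Helper80.HCI Pool.Agent.Helper60.CS Pool.Agent.Helper68.ST2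
open Pool.Agent.Helper98.FR (famPj T_eq)
open Pool.Agent.Helper3.ZM (h_kap)
open Pool.Agent.Helper47.T4 (Fin2 nest_le gd gd_le)
open Pool.Agent.Helper47.CA (time_of ev_h_dg)

noncomputable section

/-- over a maximal double Markov label the two sides have nothing in common -/
theorem bot_of_common {S : Sp} {A B : S.L} {l : Lab S} {c : ℝ} {hc : 0 < c} (hl : l.IsMaxL A B) (Y : (l.ovr c hc).L)
    (hA : Y ≤ l.upL c hc A) (hB : Y ≤ l.upL c hc B) : Y = ⊥ := by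
  set l2 : Lab (l.ovr c hc) := fun k => ⟨(FLab.triv ((l.ovr c hc).F k)).T, (FLab.triv ((l.ovr c hc).F k)).p,
    (FLab.triv ((l.ovr c hc).F k)).hn, (rpo Y).1 k⟩ with hl2
  have hv : ∀ k, (l2 k).v = (l2 k).p.map (rp Y k) := fun k => rfl
  have hleak : ∀ (C : (l.ovr c hc).L), Y ≤ C → Nul (l.ovr c hc) (fun k => (l2 k).leak (rp C k)) := by
    intro C hC
    apply (rp_mono hC).of_le (Eventually.of_forall fun _ => FLab.leak_nonneg _ _)
    refine Eventually.of_forall fun k => ?_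
    have h1 : (l2 k).leak (rp C k) ≤ h (l2 k).v ((l2 k).p.map (rp C k)) := I_le_h_left _ _ _
    rw [hv, (l2 k).p.h_map] at h1
    exact h1
  have h1 := hl.triv l2 ⟨hleak _ hA, hleak _ hB⟩
  have h2 : ∀ k, (l2 k).info = h (rp Y k) (⊥ : FL ((l.ovr c hc).F k)) := by
    intro k
    show I (l2 k).v (l2 k).p.top ⊥ = _
    rw [hv, I_eq, h_zero (((l2 k).p.map_le_top _).trans le_sup_left), sub_zero,
      ← (l2 k).p.map_bot, (l2 k).p.h_map]
  have h3 : hr (rp Y) (fun k => (⊥ : FL ((l.ovr c hc).F k))) = 0 := by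
    have e1 : l2.info = hr (rp Y) (fun k => (⊥ : FL ((l.ovr c hc).F k))) := by
      show ul (fun k => (l2 k).info / ((l.ovr c hc).F k).n) = ul _
      congr 1
      funext k
      rw [h2]
    rw [← e1]
    exact h1
  have h4 : PLe (rp Y) (fun k => (⊥ : FL ((l.ovr c hc).F k))) := PLe_of_hr (rp_Bd Y) h3.le
  have h5 : PLe (rp Y) (rp (⊥ : (l.ovr c hc).L)) := h4.trans (PLe_of_le fun _ => bot_le)
  exact le_antisymm (PLe_rp.mp h5) bot_le

/-- entropy of the base given first digits -/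
theorem h_base_le {L : Type*} [PM L] {t1 tc p1 pc y : L} (hy : pc ≤ y ⊔ t1) :
    h (t1 ⊔ p1) (tc ⊔ y) ≤ h t1 tc + h p1 pc := by
  rw [h_chain]
  refine add_le_add (h_anti le_sup_left) (h_anti (hy.trans ?_))
  exact sup_le (le_sup_right.trans le_sup_right) le_sup_left

/-- entropies given the base -/
theorem h_given {L : Type*} [PM L] {xb xa yb ya m : L} (hb : xb ⊔ m = yb ⊔ m) (ha : xa ⊔ m = ya ⊔ m) :
    h xb (xa ⊔ m) = h yb (ya ⊔ m) := by
  rw [← h_sup_right_of_le (A := xb) (le_sup_right : m ≤ xa ⊔ m), hb, ha, h_sup_right_of_le le_sup_right]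

namespace Bf

variable {S : Sp} {m : ℕ} {s : Sys S m} {i j : Fin m} {u : ℝ} {cs rs : ℕ → ℝ} (B : Bw s i j u cs rs)

/-- the partition of a window -/
abbrev V (n : ℕ) : ∀ k, Setoid (B.M.sp.F k).Ω := fun k => (B.M k).V n

/-- the lines -/
abbrev L : Ln B.M.sp := lnOf s i j (famPj B.M)

/-- all digits of the base point -/
def Mf : B.M.sp.L := (famPj B.M).map (s.T ⊔ Pd s j 1)

/-- all digits of the line -/
def Lx : B.M.sp.L := (famPj B.M).map (s.xi 1)

theorem ov_map (n : ℕ) (x : S.L) : chgL (S := B.M.sp) (V B n) 1 one_pos ((famPj B.M).map x) = up1 (B.M.lab n) x := rfl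

theorem dgt (r : ℝ) : TR.dg (L B).t r = (famPj B.M).map (TR.dg (TR.cor s.t 0) r) := Pj.tr_dg _ _ _
theorem dga (r : ℝ) : TR.dg (L B).a r = (famPj B.M).map (TR.dg (TR.cor s.a j) r) := Pj.tr_dg _ _ _
theorem dgx (r : ℝ) : TR.dg (L B).x r = (famPj B.M).map (TR.dg (TR.cor s.x j) r) := Pj.tr_dg _ _ _
theorem dgb (r : ℝ) : TR.dg (L B).b r = (famPj B.M).map (TR.dg (TR.cor s.a i) r) := Pj.tr_dg _ _ _
theorem dgy (r : ℝ) : TR.dg (L B).y r = (famPj B.M).map (TR.dg (TR.cor s.x i) r) := Pj.tr_dg _ _ _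

theorem cor_P (s : Sys S m) (i : Fin m) : TR.cor s.P i = TR.cor s.a i + TR.cor s.t 0 * TR.cor s.x i :=
  tr_ext fun _ _ => rfl

theorem dgP (r : ℝ) : TR.dg (L B).P r = (famPj B.M).map (Pd s j r) := by
  have e : (L B).P = (famPj B.M).tr (TR.cor s.P j) := by
    rw [cor_P, map_add, map_mul]
    rfl
  rw [e]
  exact Pj.tr_dg _ _ _

theorem dgR (r : ℝ) : TR.dg (L B).R r = (famPj B.M).map (Pd s i r) := by
  have e : (L B).R = (famPj B.M).tr (TR.cor s.P i) := by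
    rw [cor_P, map_add, map_mul]
    rfl
  rw [e]
  exact Pj.tr_dg _ _ _

theorem Mf_eq : Mf B = TR.dg (L B).t 1 ⊔ TR.dg (L B).P 1 := by
  rw [dgt, dgP, T_eq]
  exact (famPj B.M).map_sup _ _

theorem t_le_Mf {r : ℝ} (hr : r ≤ 1) : TR.dg (L B).t r ≤ Mf B := by
  rw [Mf_eq]
  exact (TR.dg_mono _ hr).trans le_sup_left

theorem P_le_Mf {r : ℝ} (hr : r ≤ 1) : TR.dg (L B).P r ≤ Mf B := by
  rw [Mf_eq]
  exact (TR.dg_mono _ hr).trans le_sup_right

theorem a_le_Lx {r : ℝ} (hr : r ≤ 1) : TR.dg (L B).a r ≤ Lx B := by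
  rw [dga]
  exact (famPj B.M).map_mono (((TR.cor_dg_le s.a j r).trans (s.a.dg_mono hr)).trans (s.a_le_xi le_rfl))

theorem x_le_Lx {r : ℝ} (hr : r ≤ 1) : TR.dg (L B).x r ≤ Lx B := by
  rw [dgx]
  exact (famPj B.M).map_mono (((TR.cor_dg_le s.x j r).trans (s.x.dg_mono hr)).trans (s.x_le_xi le_rfl))

theorem b_le_Lx {r : ℝ} (hr : r ≤ 1) : TR.dg (L B).b r ≤ Lx B := by
  rw [dgb]
  exact (famPj B.M).map_mono (((TR.cor_dg_le s.a i r).trans (s.a.dg_mono hr)).trans (s.a_le_xi le_rfl))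

theorem y_le_Lx {r : ℝ} (hr : r ≤ 1) : TR.dg (L B).y r ≤ Lx B := by
  rw [dgy]
  exact (famPj B.M).map_mono (((TR.cor_dg_le s.x i r).trans (s.x.dg_mono hr)).trans (s.x_le_xi le_rfl))

theorem fin2 {a b : ℕ} (hab : cs a ≤ cs b) : Fin2 (S := B.M.sp) (V B a) (V B b) :=
  fun k _ _ _ _ _ z => B.nest a b hab k z

/-! ### fields -/

section

variable {a b : ℕ} (hab : cs a ≤ cs b) (e : ℝ) (he : 0 < e)

include hab

/-- (hM0) -/
theorem hM0 {v : ℝ} (h1 : cs a + u + v ≤ 1) : chgL (V B b) e he (TR.dg (B.W a).T v ⊔ TR.dg (B.W a).Y v) ≤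
    chgL (V B b) e he (Mf B) := by
  have hV : ∀ k, V B b k ≤ V B a k := B.nest a b hab
  have hu := (B.W a).hu
  rw [chgL_sup]
  refine sup_le ?_ ?_
  · rw [(B.W a).T_up hV]
    exact chgL_mono _ _ _ (t_le_Mf B (by linarith))
  · have h2 := (B.W a).Y_up hV e he v (A := chgL (V B b) e he (Mf B)) (chgL_mono _ _ _ (t_le_Mf B h1))
    have h3 : chgL (V B b) e he (TR.dg (B.W a).Y v) ≤ chgL (V B b) e he (TR.dg (B.W a).Y v) ⊔
      chgL (V B b) e he (Mf B) := le_sup_left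
    rw [h2] at h3
    exact h3.trans (sup_le (chgL_mono _ _ _ (P_le_Mf B h1)) le_rfl)

/-- (l0), (l2) -/
theorem hL0 {v : ℝ} (h0 : 0 ≤ cs a) (h1 : cs a + u + v ≤ 1) :
    chgL (V B b) e he (TR.dg (B.W a).B v ⊔ TR.dg (B.W a).X v) ≤ chgL (V B b) e he (Lx B) := by
  have hV : ∀ k, V B b k ≤ V B a k := B.nest a b hab
  have hu := (B.W a).hu
  rw [chgL_sup]
  refine sup_le ?_ ?_
  · refine ((B.W a).B_up hV e he v).trans (sup_le ?_ ?_)
    · exact chgL_mono _ _ _ (a_le_Lx B h1)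
    · exact chgL_mono _ _ _ (x_le_Lx B h1)
  · rw [(B.W a).X_up hV]
    exact chgL_mono _ _ _ (x_le_Lx B (by linarith))

/-- coefficients are known to the line -/
theorem G0_le {v : ℝ} (h1 : rs a + v ≤ 1) : chgL (V B b) e he (TR.dg (B.W a).G0 v) ≤ chgL (V B b) e he (Lx B) :=
  (B.W a).G0_up (B.nest a b hab) e he v (chgL_mono _ _ _ (a_le_Lx B h1)) (chgL_mono _ _ _ (x_le_Lx B h1))
    (chgL_mono _ _ _ (b_le_Lx B h1)) (chgL_mono _ _ _ (y_le_Lx B h1))

theorem G1_le {v : ℝ} (h1 : rs a + v ≤ 1) : chgL (V B b) e he (TR.dg (B.W a).G1 v) ≤ chgL (V B b) e he (Lx B) := by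
  have := (B.W a).hc
  exact (B.W a).G1_up (B.nest a b hab) e he v (chgL_mono _ _ _ (x_le_Lx B (by linarith)))
    (chgL_mono _ _ _ (y_le_Lx B (by linarith)))

/-- (g0), (g2) -/
theorem hgd {v : ℝ} (h1 : rs a + v ≤ 1) : chgL (V B b) e he (gd ![(B.W a).G0, (B.W a).G1] v) ≤
    chgL (V B b) e he (Lx B) := by
  have h2 : gd ![(B.W a).G0, (B.W a).G1] v ≤ TR.dg (B.W a).G0 v ⊔ TR.dg (B.W a).G1 v := by
    rw [gd_le]
    intro n
    fin_cases n
    · exact le_sup_left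
    · exact le_sup_right
  refine (chgL_mono _ _ _ h2).trans ?_
  rw [chgL_sup]
  exact sup_le (G0_le B hab e he h1) (G1_le B hab e he h1)

/-- (hu) -/
theorem hhull {v : ℝ} (h1 : rs a + v ≤ 1) (h2 : rs a + v ≤ rs b) : chgL (V B b) e he (TR.dg (B.W a).Z v) ≤
    chgL (V B b) e he (Mf B) :=
  Wov.Z_hull (B.W a) (B.W b) e he (B.nest a b hab) h2 (chgL_mono _ _ _ (t_le_Mf B h1)) (chgL_mono _ _ _ (P_le_Mf B h1))

/-- (k1), (k3) -/
theorem T_bot {v : ℝ} (h1 : cs a + v ≤ cs b) : chgL (V B b) e he (TR.dg (B.W a).T v) = ⊥ :=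
  Wov.T_bot (B.W a) (B.W b) e he (B.nest a b hab) h1

theorem Y_bot {v : ℝ} (h1 : cs a + v ≤ cs b) : chgL (V B b) e he (TR.dg (B.W a).Y v) = ⊥ :=
  Wov.Y_bot (B.W a) (B.W b) e he (B.nest a b hab) h1

/-- (z1), (z3): the first digits of the top coordinate are common to the line and to the point -/
theorem Z_bot {v : ℝ} (h1 : cs a + v ≤ cs b) (h2 : rs a + v ≤ 1) :
    chgL (V B b) 1 one_pos (TR.dg (B.W a).Z v) = ⊥ := by
  have hV : ∀ k, V B b k ≤ V B a k := B.nest a b hab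
  apply bot_of_common (l := B.M.lab b) (c := 1) (hc := one_pos) (IsKap_iff.mp (B.kap b))
  · have e1 : (B.M.lab b).upL 1 one_pos (lA s (cs b)) = chgL (V B b) 1 one_pos (Lx B) ⊔
        chgL (V B b) 1 one_pos ((famPj B.M).map (s.t.dg (cs b))) := by
      rw [← chgL_sup]
      show chgL (V B b) 1 one_pos ((famPj B.M).map (lA s (cs b))) = _
      unfold lA Lx
      rw [(famPj B.M).map_sup]
    rw [e1]
    show chgL (V B b) 1 one_pos (TR.dg ((B.W a).G0 + (B.W a).G1 * (B.W a).T) v) ≤ _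
    refine chgL_add_le _ _ _ ((G0_le B hab 1 one_pos h2).trans le_sup_left)
      (chgL_mul_le _ _ _ ((G1_le B hab 1 one_pos h2).trans le_sup_left) ?_)
    rw [T_bot B hab 1 one_pos h1]
    exact bot_le
  · have h3 := hV
    have h4 := (B.W a).Z_up hV 1 one_pos v (A := chgL (V B b) 1 one_pos (Mf B)) (chgL_mono _ _ _ (t_le_Mf B h2))
      (chgL_mono _ _ _ (P_le_Mf B h2))
    have h5 : chgL (V B b) 1 one_pos (TR.dg (B.W a).Z v) ≤ chgL (V B b) 1 one_pos (TR.dg (B.W a).Z v) ⊔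
      chgL (V B b) 1 one_pos (Mf B) := le_sup_left
    rw [h4, ← chgL_sup] at h5
    refine h5.trans ?_
    show chgL (V B b) 1 one_pos _ ≤ chgL (V B b) 1 one_pos ((famPj B.M).map (lB s))
    apply chgL_mono
    rw [dgR]
    refine sup_le ((famPj B.M).map_mono ?_) ((famPj B.M).map_mono (sup_le le_sup_right ?_))
    · exact ((TR.cor_dg_le s.P i _).trans (s.P.dg_mono h2)).trans le_sup_left
    · exact (TR.cor_dg_le s.P j 1).trans le_sup_left

end

/-! ### fullness -/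

/-- TIME -/
theorem tm (n : ℕ) {A : B.M.sp.L} {b : ℝ} (h0 : 0 ≤ cs n) (hb : b ≤ 1) (hc : cs n ≤ 1)
    (hA : chgL (V B n) 1 one_pos A ≤ chgL (V B n) 1 one_pos (Lx B)) :
    b - cs n ≤ h (chgL (V B n) 1 one_pos (TR.dg (L B).t b)) (chgL (V B n) 1 one_pos A) := by
  refine time_of (L := Lx B) hb ?_ hA
  rw [dgt, T_eq]
  exact ((B.kap n).h_T h0 hc).ge

/-- fullness of the base over the label of a window -/
def Full (s : Sys S m) (j : Fin m) (u c : ℝ) : Prop :=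
  ∀ l : Lab S, IsKap s c l → 1 - c - u ≤ h (up1 l (Pd s j 1)) (up1 l s.T)

theorem H_Mf {n : ℕ} (hF : Full s j u (cs n)) (h0 : 0 ≤ cs n) (hc : cs n ≤ 1) :
    (1 - cs n) + (1 - cs n - u) ≤ H (chgL (V B n) 1 one_pos (Mf B)) := by
  have h1 := hF _ (B.kap n)
  have h2 := (B.kap n).H_T h0 hc
  have e1 : H (chgL (V B n) 1 one_pos (Mf B)) = H (up1 (B.M.lab n) s.T ⊔ up1 (B.M.lab n) (Pd s j 1)) := by
    rw [← up1_sup]
    rfl
  have e2 := H_chain (up1 (B.M.lab n) s.T) (up1 (B.M.lab n) (Pd s j 1))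
  rw [e1]
  refine le_trans ?_ e2.ge
  linarith

/-- (y2) -/
theorem y2 {n : ℕ} (hF : Full s j u (cs n)) {v : ℝ} (h1 : cs n + u + v ≤ 1) {T2 : B.M.sp.L}
    (hT : chgL (V B n) 1 one_pos T2 ≤ chgL (V B n) 1 one_pos (TR.dg (L B).t 1)) :
    v ≤ h (chgL (V B n) 1 one_pos (TR.dg (B.W n).Y v)) (chgL (V B n) 1 one_pos T2) := by
  set F := fun x : B.M.sp.L => chgL (V B n) 1 one_pos x with hFd
  have h2 : 1 - cs n - u ≤ h (F (TR.dg (L B).P 1)) (F (TR.dg (L B).t 1)) := by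
    have h3 := hF _ (B.kap n)
    rw [hFd]
    simp only
    rw [dgP, dgt, T_eq]
    exact h3
  have h3 := (B.W n).Y_up (fun k => le_rfl) 1 one_pos v (A := F (TR.dg (L B).t 1))
    (chgL_mono _ _ _ (TR.dg_mono _ h1))
  have h4 : h (F (TR.dg (B.W n).Y v)) (F (TR.dg (L B).t 1)) = h (F (TR.dg (L B).P (cs n + u + v)))
      (F (TR.dg (L B).t 1)) := by
    rw [← h_sup_right_of_le (A := F (TR.dg (B.W n).Y v)) (le_refl (F (TR.dg (L B).t 1))), h3,
      h_sup_right_of_le le_rfl]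
  have h5 : F (TR.dg (L B).P 1) = F (TR.dg (L B).P (cs n + u + v)) ⊔ F (TR.dg (L B).P 1) := by
    rw [eq_comm, sup_eq_right]
    exact chgL_mono _ _ _ (TR.dg_mono _ h1)
  rw [h5, h_chain] at h2
  have h6 : h (F (TR.dg (L B).P 1)) (F (TR.dg (L B).P (cs n + u + v)) ⊔ F (TR.dg (L B).t 1)) ≤
      1 - (cs n + u + v) := (h_anti le_sup_left).trans (Pool.Agent.Helper47.CA.chg_h_dg _ _ h1)
  have h7 := h_anti (A := F (TR.dg (B.W n).Y v)) hT
  show v ≤ h (F (TR.dg (B.W n).Y v)) (F T2)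
  linarith

/-- (f3), upper bound -/
theorem f3_up {n : ℕ} {v : ℝ} (h1 : cs n + u + v ≤ 1) {T2 : B.M.sp.L}
    (hT : chgL (V B n) 1 one_pos T2 = chgL (V B n) 1 one_pos (TR.dg (L B).t (cs n + v))) :
    h (chgL (V B n) 1 one_pos (Mf B)) (chgL (V B n) 1 one_pos (TR.dg (B.W n).Y v ⊔ T2)) ≤
      (1 - cs n - v) + (1 - cs n - u - v) := by
  have hu := (B.W n).hu
  rw [Mf_eq, chgL_sup, chgL_sup, hT, sup_comm (chgL _ _ _ (TR.dg (B.W n).Y v))]
  have h3 := (B.W n).Y_up (fun k => le_rfl) 1 one_pos v (A := chgL (V B n) 1 one_pos (TR.dg (L B).t 1))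
    (chgL_mono _ _ _ (TR.dg_mono _ h1))
  refine (h_base_le (pc := chgL (V B n) 1 one_pos (TR.dg (L B).P (cs n + u + v))) ?_).trans ?_
  · rw [h3]
    exact le_sup_left
  · have a1 := Pool.Agent.Helper47.CA.chg_h_dg (V B n) (L B).t (show cs n + v ≤ 1 by linarith)
    have a2 := Pool.Agent.Helper47.CA.chg_h_dg (V B n) (L B).P h1
    linarith

/-- (f1), upper bound on events of extensions -/
theorem f1_up {n : ℕ} {v : ℝ} (h1 : cs n + u + v ≤ 1) (e : ℝ) (he : 0 < e) {T : Sp}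
    (p : Pj T (B.M.sp.chg (V B n) e he)) (E : ∀ k, (T.F k).Ω → Prop) (hE : 0 < ul (T.pr E)) :
    h (restL E hE (p.map (chgL (V B n) e he (Mf B))))
      (restL E hE (p.map (chgL (V B n) e he (TR.dg (B.W n).T v ⊔ TR.dg (B.W n).Y v)))) ≤
      ((1 - cs n - v) + (1 - cs n - u - v)) / e := by
  have hu := (B.W n).hu
  have hm : ∀ x y : B.M.sp.L, restL E hE (p.map (chgL (V B n) e he (x ⊔ y))) =
      restL E hE (p.map (chgL (V B n) e he x)) ⊔ restL E hE (p.map (chgL (V B n) e he y)) := fun x y => by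
    rw [chgL_sup, p.map_sup, restL_sup]
  have h3 := (B.W n).Y_up (fun k => le_rfl) e he v (A := chgL (V B n) e he (TR.dg (L B).t 1))
    (chgL_mono _ _ _ (TR.dg_mono _ h1))
  rw [Mf_eq, hm, hm, (B.W n).T_up (fun k => le_rfl) e he v]
  refine (h_base_le (pc := restL E hE (p.map (chgL (V B n) e he (TR.dg (L B).P (cs n + u + v))))) ?_).trans ?_
  · rw [← restL_sup, ← p.map_sup, h3]
    exact restL_mono E hE (p.map_mono le_sup_left)
  · have a1 := ev_h_dg p E hE (L B).t (show cs n + v ≤ 1 by linarith)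
    have a2 := ev_h_dg p E hE (L B).P h1
    refine (add_le_add a1 a2).trans (le_of_eq ?_)
    ring

/-- (un): digits of the top coordinate over the base are digits of `P_i` over the base -/
theorem un_eq {n : ℕ} {a b : ℝ} (h1 : rs n + a ≤ 1) (h2 : rs n + b ≤ 1) (e : ℝ) (he : 0 < e) {T : Sp}
    (p : Pj T (B.M.sp.chg (V B n) e he)) (E : ∀ k, (T.F k).Ω → Prop) (hE : 0 < ul (T.pr E)) :
    h (restL E hE (p.map (chgL (V B n) e he (TR.dg (B.W n).Z b))))
      (restL E hE (p.map (chgL (V B n) e he (TR.dg (B.W n).Z a ⊔ Mf B)))) =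
    h (restL E hE (p.map ((B.M.lab n).upL e he (Pd s i (rs n + b)))))
      (restL E hE (p.map ((B.M.lab n).upL e he (Pd s i (rs n + a) ⊔ (Pd s j 1 ⊔ s.T))))) := by
  have key : ∀ v : ℝ, rs n + v ≤ 1 → chgL (V B n) e he (TR.dg (B.W n).Z v) ⊔ chgL (V B n) e he (Mf B) =
      chgL (V B n) e he (TR.dg (L B).R (rs n + v)) ⊔ chgL (V B n) e he (Mf B) := fun v hv =>
    (B.W n).Z_up (fun k => le_rfl) e he v (A := chgL (V B n) e he (Mf B)) (chgL_mono _ _ _ (t_le_Mf B hv))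
      (chgL_mono _ _ _ (P_le_Mf B hv))
  have e1 : (B.M.lab n).upL e he (Pd s i (rs n + b)) = chgL (V B n) e he (TR.dg (L B).R (rs n + b)) := by
    rw [dgR]
    rfl
  have e2 : (B.M.lab n).upL e he (Pd s i (rs n + a) ⊔ (Pd s j 1 ⊔ s.T)) =
      chgL (V B n) e he (TR.dg (L B).R (rs n + a)) ⊔ chgL (V B n) e he (Mf B) := by
    rw [dgR, ← chgL_sup, sup_comm (Pd s j 1)]
    show chgL (V B n) e he ((famPj B.M).map _) = _
    rw [(famPj B.M).map_sup]
    rfl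
  rw [e1, e2, ← key a h1, chgL_sup]
  have h3 := key b h2
  rw [← h_sup_right_of_le (A := restL E hE (p.map (chgL (V B n) e he (TR.dg (B.W n).Z b))))
    (C := restL E hE (p.map (chgL (V B n) e he (Mf B)))) (restL_mono E hE (p.map_mono le_sup_right)),
    ← restL_sup, ← p.map_sup, h3, p.map_sup, restL_sup,
    h_sup_right_of_le (restL_mono E hE (p.map_mono le_sup_right))]

end Bf

end

end Pool.Agent.Helper19.S12
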