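import Pool.Agent.Helper19.S12.Dep
import Pool.Agent.Helper98.FR.Ex
import Pool.Agent.Helper68.ST2.Wn

/-! FRAMES of sheets with their slopes, as functions on the space of the label; values at the centre of the window. -/

set_option autoImplicit false

namespace Pool.Agent.Helper19.S12

open Finset Filter Topology Pool.Agent.Helper69.RK Pool.Agent.Helper31.EC Pool.Agent.Helper31.EC.Sp
open Pool.Agent.Helper40.EL Pool.Agent.Helper42.NS Pool.Agent.Helper52.KP Pool.Agent.Helper52.SL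
open Pool.Agent.Helper91.GR Pool.Agent.Helper68.ST2
open Pool.Agent.Helper98.FR (plT Dom Knw lW lW_dom lW_knw lW_kap join_kap Sht_dom exists_nested')
open Pool.Agent.Helper3.LF (pl pl_zero pl_succ sp_dl sp_Sub)

noncomputable section

variable {S : Sp} {m : ℕ} {s : Sys S m}

/-- coordinates of the velocity of `(t, P)` -/
def vlT (s : Sys S m) (j : Fin (m + 1)) : TR S :=
  ⟨fun k ω => (Fin.cons 1 (s.x.v k ω) : Fin (m + 1) → ℝ) j, by
    refine Fin.cases ?_ (fun i => ?_) j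
    · exact ⟨fun _ => 1, S.Sub_const zero_le_one, Eventually.of_forall fun k ω _ => by
        show |(1 : ℝ)| ≤ 1
        rw [abs_one]⟩
    · exact (TR.cor s.x i).2⟩

/-- THE FRAME of a sheet and its slope -/
theorem frame_sl {i : Fin m} {J : Finset (Fin (m + 1))} {c σ : ℝ} (h0 : 0 ≤ c) (hc : c < 1) (hσ0 : 0 ≤ σ) (hσ : σ ≤ 1)
    {l : Lab S} (hl : DMc s c l) {v : ∀ k, (l k).T.Ω → Cf (m + 1)} (hv : Sht s i J σ l v) :
    ∃ (f0 : TR l.sp) (f : Fin (m + 1) → TR l.sp) (K : ℕ → ℝ), l.sp.Sub K ∧ Mz (Q := l.sp) l.V f0 ∧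
      (∀ j, Mz (Q := l.sp) l.V (f j)) ∧
      Sm (Q := l.sp) K σ (TR.cor (s.pull l.pj).P i - (f0 + ∑ j ∈ J, f j * plT (s.pull l.pj) j)) ∧
      Sm (Q := l.sp) K (σ - c) (TR.cor (s.pull l.pj).x i - ∑ j ∈ J, f j * vlT (s.pull l.pj) j) := by
  classical
  obtain ⟨K', hK', hsl⟩ := slope_typ h0 hc hσ hl hv
  obtain ⟨hm, K, hK, hb, ht⟩ := hv
  obtain ⟨K1, hK1, hb1⟩ := (TR.vec (plT (s.pull l.pj))).bd
  obtain ⟨K2, hK2, hb2⟩ := (TR.cor (s.pull l.pj).P i).2
  have hKs : l.sp.Sub K := (sp_Sub l).mpr hK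
  have hK's : l.sp.Sub K' := (sp_Sub l).mpr hK'
  -- the bound of the intercept
  set K3 : ℕ → ℝ := fun k => K k + (K2 k + ((m + 1 : ℕ) : ℝ) * (K k * K1 k)) with hK3
  have hK3s : l.sp.Sub K3 :=
    hKs.add (hK2.add ((l.sp.Sub_const (show (0 : ℝ) ≤ ((m + 1 : ℕ) : ℝ) by positivity)).mul (hKs.mul hK1)))
  set f0 : TR l.sp := ⟨fun k (ω : (l k).T.Ω) => if |(v k ω).1| ≤ K3 k then (v k ω).1 else 0, K3, hK3s, by
    filter_upwards [hK3s.1] with k hk ω _
    split_ifs with h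
    · exact h
    · rw [abs_zero]; exact hk⟩ with hf0
  set f : Fin (m + 1) → TR l.sp := fun j => ⟨fun k (ω : (l k).T.Ω) => (v k ω).2 j, K, hKs, by
    filter_upwards [hb] with k hk ω hω using hk ω hω j⟩ with hf
  refine ⟨f0, f, fun k => K k + K' k, hKs.add hK's, ?_, fun j => ?_, ?_, ?_⟩
  · refine Eventually.of_forall fun k ω ω' a b z => ?_
    have h1 : v k ω = v k ω' := hm k ω ω' a b z.1 z.2
    show (if |(v k ω).1| ≤ K3 k then (v k ω).1 else 0) = if |(v k ω').1| ≤ K3 k then (v k ω').1 else 0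
    rw [h1]
  · refine Eventually.of_forall fun k ω ω' a b z => ?_
    have h1 : v k ω = v k ω' := hm k ω ω' a b z.1 z.2
    show (v k ω).2 j = (v k ω').2 j
    rw [h1]
  · refine Typ.mono (S := l.sp) (E := fun k (ω : (l k).T.Ω) => |dfl s i J l v k ω| ≤ K k * S.dl σ k) ht ?_
    filter_upwards [hb, hb1, hb2, hKs.1, hK1.1, hK's.1] with k hb hb1 hb2 hk0 hk1 hk' ω hω hE
    have hE' : |dfl s i J l v k ω| ≤ K k * S.dl σ k := hE
    have hpl : ∀ j, |pl (s.a.v k ((l k).p.π ω)) (s.x.v k ((l k).p.π ω)) (s.t.v k ((l k).p.π ω) 0) j| ≤ K1 k :=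
      fun j => hb1 ω hω j
    have hP : |s.a.v k ((l k).p.π ω) i + s.t.v k ((l k).p.π ω) 0 * s.x.v k ((l k).p.π ω) i| ≤ K2 k := hb2 ω hω
    have hdl : S.dl σ k ≤ 1 := by
      unfold Sp.dl
      apply Real.rpow_le_one_of_one_le_of_nonpos (by norm_num)
      have := (S.F k).pos
      have : 0 ≤ σ * (S.F k).n := by positivity
      linarith
    -- the sum
    have hs : |∑ j ∈ J, (v k ω).2 j * pl (s.a.v k ((l k).p.π ω)) (s.x.v k ((l k).p.π ω)) (s.t.v k ((l k).p.π ω) 0) j| ≤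
        ((m + 1 : ℕ) : ℝ) * (K k * K1 k) := by
      refine (Finset.abs_sum_le_sum_abs _ _).trans ?_
      calc ∑ j ∈ J, |(v k ω).2 j * pl (s.a.v k ((l k).p.π ω)) (s.x.v k ((l k).p.π ω)) (s.t.v k ((l k).p.π ω) 0) j|
          ≤ ∑ j ∈ J, K k * K1 k := Finset.sum_le_sum fun j _ => by
            rw [abs_mul]
            exact mul_le_mul (hb ω hω j) (hpl j) (abs_nonneg _) hk0
        _ = (J.card : ℝ) * (K k * K1 k) := by rw [Finset.sum_const, nsmul_eq_mul]
        _ ≤ ((m + 1 : ℕ) : ℝ) * (K k * K1 k) := by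
            apply mul_le_mul_of_nonneg_right _ (mul_nonneg hk0 hk1)
            have := Finset.card_le_univ J
            rw [Fintype.card_fin] at this
            exact_mod_cast this
    -- the intercept is not clipped
    have hi : |(v k ω).1| ≤ K3 k := by
      have e1 : (v k ω).1 = (s.a.v k ((l k).p.π ω) i + s.t.v k ((l k).p.π ω) 0 * s.x.v k ((l k).p.π ω) i) -
          dfl s i J l v k ω -
          ∑ j ∈ J, (v k ω).2 j * pl (s.a.v k ((l k).p.π ω)) (s.x.v k ((l k).p.π ω)) (s.t.v k ((l k).p.π ω) 0) j := by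
        unfold dfl df aff
        ring
      rw [e1]
      refine (abs_sub _ _).trans ?_
      have h2 := abs_sub (s.a.v k ((l k).p.π ω) i + s.t.v k ((l k).p.π ω) 0 * s.x.v k ((l k).p.π ω) i)
        (dfl s i J l v k ω)
      have h3 : K k * S.dl σ k ≤ K k := mul_le_of_le_one_right hk0 hdl
      show _ ≤ K k + (K2 k + ((m + 1 : ℕ) : ℝ) * (K k * K1 k))
      linarith
    have e2 : TR.ev (TR.cor (s.pull l.pj).P i - (f0 + ∑ j ∈ J, f j * plT (s.pull l.pj) j)) k ω = dfl s i J l v k ω := by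
      have e3 : TR.ev (∑ j ∈ J, f j * plT (s.pull l.pj) j) k ω =
          ∑ j ∈ J, (v k ω).2 j * pl (s.a.v k ((l k).p.π ω)) (s.x.v k ((l k).p.π ω)) (s.t.v k ((l k).p.π ω) 0) j := by
        rw [← TR.evh_apply, map_sum]
        rfl
      have e4 : TR.ev f0 k ω = (v k ω).1 := if_pos hi
      rw [TR.ev_sub, TR.ev_add, e3, e4]
      rfl
    rw [e2, sp_dl]
    exact hE'.trans (mul_le_mul_of_nonneg_right (by linarith) (S.dl_pos σ k).le)
  · refine Typ.mono (S := l.sp) (E := fun k (ω : (l k).T.Ω) => |d1 i J (v k ω) (s.x.v k ((l k).p.π ω))| ≤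
      K' k * S.dl (σ - c) k) hsl ?_
    filter_upwards [hKs.1, hK's.1] with k hk0 hk' ω hω hE
    have e2 : TR.ev (TR.cor (s.pull l.pj).x i - ∑ j ∈ J, f j * vlT (s.pull l.pj) j) k ω =
        d1 i J (v k ω) (s.x.v k ((l k).p.π ω)) := by
      have e3 : TR.ev (∑ j ∈ J, f j * vlT (s.pull l.pj) j) k ω =
          ∑ j ∈ J, (v k ω).2 j * (Fin.cons 1 (s.x.v k ((l k).p.π ω)) : Fin (m + 1) → ℝ) j := by
        rw [← TR.evh_apply, map_sum]
        rfl
      rw [TR.ev_sub, e3]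
      rfl
    rw [e2, sp_dl]
    exact hE.trans (mul_le_mul_of_nonneg_right (by linarith) (S.dl_pos _ k).le)

/-- the value at the centre of the window -/
theorem Sm.centre {Q : Sp} {K K' K1 : ℕ → ℝ} (hK1 : Q.Sub K1) {c σ : ℝ} {F B T G : TR Q}
    (hF : Sm K σ F) (hB : Sm K' (σ - c) B) (hT : Sm K1 c T) (e : G = F - T * B) :
    Sm (fun k => K k + K1 k * K' k) σ G := by
  rw [e]
  have h1 := Sm.mul hK1 hT hB
  rw [add_sub_cancel] at h1
  exact hF.sub h1

/-- the floor -/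
theorem fl_sm {Q : Sp} {p : ℕ} (y : Q.VV p) {c : ℝ} (hc : 0 ≤ c) (i : Fin p) :
    Sm (fun _ => 1) c (TR.cor y i - TR.cor (y.fl c hc) i) := by
  refine Typ.mono (E := fun _ _ => True) Typ_true (Eventually.of_forall fun k ω _ _ => ?_)
  obtain ⟨h1, h2⟩ := y.fl_sub c hc k ω i
  have e : TR.ev (TR.cor y i - TR.cor (y.fl c hc) i) k ω = y.v k ω i - (y.fl c hc).v k ω i := rfl
  rw [e, abs_of_nonneg h1, one_mul]
  exact h2.le

theorem Mz_of_Lt {Q : Sp} {V : ∀ k, Setoid (Q.F k).Ω} {f : TR Q} (h : Pool.Agent.Helper98.FR.Lt V f) : Mz V f := by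
  filter_upwards [h] with k h ω ω' a b z
  exact h ω ω' a b z.1 z.2

end

end Pool.Agent.Helper19.S12
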