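import Pool.Agent.Helper19.S12.Rob

/-! FULLNESS of a coordinate over the labels `kappa_c` of a connected robust system. -/

set_option autoImplicit false

namespace Pool.Agent.Helper19.S12

open Finset Filter Topology Pool.Agent.Helper69.RK Pool.Agent.Helper31.EC Pool.Agent.Helper31.EC.Sp
open Pool.Agent.Helper40.EL Pool.Agent.Helper42.NS Pool.Agent.Helper52.KP Pool.Agent.Helper52.SL
open Pool.Agent.Helper91.GR Pool.Agent.Helper80.HCI
open Pool.Agent.Helper3.ZM (VV_ext h_kap)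
open Pool.Agent.Helper3.SG (Fac ZF mkf celL_kapf)

noncomputable section

variable {S : Sp} {m : ℕ} {s : Sys S m}

/-- the profile on an event of an extension -/
theorem F_im_eq {T S : Sp} {q : ℕ} (s : Sys S q) (p : Pj T S) (E : ∀ k, (T.F k).Ω → Prop) (hE : 0 < ul (T.pr E))
    (u r : ℝ) : (s.im p E hE).F u r = h (restL E hE (p.map (s.x.dg u ⊔ s.P.dg r))) (restL E hE (p.map s.T)) := by
  rw [F_im]
  unfold Sys.F
  rw [Sys.rest_P_dg, Sys.rest_x_dg, Sys.rest_T, p.map_sup, restL_sup]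
  have e1 : (s.pull p).P.dg r = p.map (s.P.dg r) := by rw [Sys.pull_P, ← p.map_dg]
  have e2 : (s.pull p).T = p.map s.T := (p.map_dg s.t 1).symm
  have e3 : (s.pull p).x.dg u = p.map (s.x.dg u) := (p.map_dg s.x u).symm
  rw [e1, e2, e3]

/-- zooms of a coordinate over the labels `kappa_c` have a robust profile -/
theorem robP_zoom (hs : RobD (Fst m) s) {c : ℝ} (h0 : 0 ≤ c) (h1 : c < 1) {l : Lab S} (hl : IsKap s c l) (j : Fin m) :
    RobP (mkf (Fac_cj s j) h0 h1 hl.dm).sys := by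
  set Z := mkf (Fac_cj s j) h0 h1 hl.dm with hZ
  have hk : IsKap s Z.c Z.l := celL_kapf (Fac_cj s j) h0 h1.le hl
  intro u r hu0 hu1 hr0 hr1 T p E hE
  show (Z.sys.im p E hE).F u r = Z.sys.F u r
  rw [F_im_eq]
  have e1 : Z.sys.x.dg u ⊔ Z.sys.P.dg r = Z.U
      ((digl (Fst m) [(Sum.inr (Sum.inr j), Z.e * u), (Sum.inr (Sum.inl j), Z.c + Z.e * r)]).L s) := by
    rw [digl_cons, digl_one]
    have a1 : ((Fst m (Sum.inr (Sum.inr j))).2.vv s).dg (Z.e * u) = (cj s j).x.dg (Z.e * u) := by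
      rw [cj_x]
      exact congrArg (fun z : S.VV 1 => z.dg (Z.e * u)) (vv_Xj s j)
    have a2 : ((Fst m (Sum.inr (Sum.inl j))).2.vv s).dg (Z.c + Z.e * r) = (cj s j).P.dg (Z.c + Z.e * r) := by
      rw [cj_P]
      exact congrArg (fun z : S.VV 1 => z.dg (Z.c + Z.e * r)) (vv_Pj s j)
    rw [a1, a2, Z.U_sup]
    exact congrArg₂ (· ⊔ ·) (Z.x'_dg u) (Z.P_dg r)
  have e2 : Z.sys.T = Z.U ((digl (Fst m) [(Sum.inl 1, 1)]).L s) := by
    rw [Z.sys_T, L_T]
    rfl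
  have e3 : Z.sys.F u r = h (Z.sys.x.dg u ⊔ Z.sys.P.dg r) Z.sys.T := rfl
  rw [e3, e1, e2]
  have h2 : h (restL E hE (p.map (Z.U
      ((digl (Fst m) [(Sum.inr (Sum.inr j), Z.e * u), (Sum.inr (Sum.inl j), Z.c + Z.e * r)]).L s))))
      (restL E hE (p.map (Z.U ((digl (Fst m) [(Sum.inl 1, 1)]).L s)))) = _ :=
    rob_ovr hs hk Z.e_pos p E hE [(Sum.inr (Sum.inr j), Z.e * u), (Sum.inr (Sum.inl j), Z.c + Z.e * r)]
    [(Sum.inl 1, 1)]
  have h3 := Z.h_U ((digl (Fst m) [(Sum.inr (Sum.inr j), Z.e * u), (Sum.inr (Sum.inl j), Z.c + Z.e * r)]).L s)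
    ((digl (Fst m) [(Sum.inl 1, 1)]).L s)
  rw [h2]
  exact h3.symm

/-- FULLNESS OF A COORDINATE over the labels `kappa_c` of a connected system with robust digits: the digits beyond the
depth of the window are full -/
theorem Pj_full (hs : RobD (Fst m) s) (hic : Helper40.EL.ic s 0 = 0) (j : Fin m) {c : ℝ} (h0 : 0 ≤ c) (h1 : c < 1)
    {l : Lab S} (hl : IsKap s c l) :
    1 - c - la s j {0} 0 ≤ h (up1 l (TR.dg (TR.cor s.P j) 1)) (up1 l s.T) := by
  have hP := robP_zoom hs h0 h1 hl j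
  set Z := mkf (Fac_cj s j) h0 h1 hl.dm with hZ
  have hk : IsKap s Z.c Z.l := celL_kapf (Fac_cj s j) h0 h1.le hl
  obtain ⟨e, he0, he1, hxe, hF⟩ := Pool.Agent.Helper35.S1.full_sys Z.sys hP (ic_zoom Z hk)
  have hZe : Z.e = 1 - c := rfl
  have hep := Z.e_pos
  -- the digits of the direction
  have h2 : H (Z.sys.x.dg e) = 0 := by
    apply le_antisymm _ (H_nonneg _)
    rw [← hxe]
    exact H_mono le_sup_right
  have h3 : Z.sys.x.dg e = Z.U (TR.dg (TR.cor s.x j) (Z.e * e)) := by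
    have := Z.x'_dg e
    rw [cj_x_dg] at this
    exact this
  rw [h3, Z.H_U] at h2
  have h4 : H (up1 Z.l (TR.dg (TR.cor s.x j) (Z.e * e))) = 0 := by
    rcases div_eq_zero_iff.mp h2 with h5 | h5
    · exact h5
    · exact absurd h5 hep.ne'
  have h5 : up1 Z.l (TR.dg (TR.cor s.x j) (Z.e * e)) = ⊥ := by
    apply le_antisymm _ bot_le
    rw [← h_eq_zero_iff, h_bot]
    exact h4
  have h6 : Z.e * e ≤ 1 := by nlinarith [Z.e_le]
  have h7 : TR.dg (TR.cor s.x j) (Z.e * e) ≤ s.xi 1 :=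
    (TR.cor_dg_le s.x j _).trans ((s.x.dg_mono h6).trans le_sup_right)
  have h8 := le_la (HH_of_H_zero (s := s) (by positivity) h6 (H_zero_of_up1 hic hk.dm h7 h5) 0)
  -- fullness
  have h9 : Z.sys.F 0 1 = h (Z.U (TR.dg (TR.cor s.P j) 1)) (Z.U s.T) := by
    rw [Sys.F_zero_left, Z.sys_T, Z.P_dg, mul_one, Z.c_add_e, cj_P_dg]
    rfl
  rw [hF, Z.h_U, h_kap hk hl, hZe] at h9
  have h10 : (0 : ℝ) < 1 - c := by linarith
  rw [eq_div_iff h10.ne'] at h9
  rw [hZe] at h8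
  nlinarith

end

end Pool.Agent.Helper19.S12
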