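import Pool.Agent.Helper19.S12.Trn
import Pool.Agent.Helper91.GR.Nc

/-! WINDOW FUNCTIONS of sheets: `la c` is the largest depth of a sheet `P_i = F(t, P_j (j in J))` known to the labels
of the window `c`. In connected systems the digits of the direction known at the window zero are the only ones which
are known to the labels of any window. -/

set_option autoImplicit false

namespace Pool.Agent.Helper19.S12

open Finset Filter Topology Pool.Agent.Helper69.RK Pool.Agent.Helper31.EC Pool.Agent.Helper31.EC.Sp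
open Pool.Agent.Helper40.EL Pool.Agent.Helper42.NS Pool.Agent.Helper52.KP Pool.Agent.Helper52.SL
open Pool.Agent.Helper91.GR

noncomputable section

variable {S : Sp} {m : ℕ}

theorem HH_le_one {s : Sys S m} {i : Fin m} {J : Finset (Fin (m + 1))} {c σ : ℝ} (h : HH (SJ i J) s c σ) :
    σ ≤ 1 := by
  obtain ⟨f, -, -, hl⟩ := h
  by_contra hc
  push Not at hc
  have he : 0 < (σ - 1) / 2 := by linarith
  have h1 := hl (min ((σ - 1) / 2) (1 / 2)) (lt_min he (by norm_num))
  obtain ⟨k, hk⟩ := h1.exists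
  set e : ℝ := min ((σ - 1) / 2) (1 / 2) with hee
  have e1 : e ≤ (σ - 1) / 2 := min_le_left _ _
  have e2 : e ≤ 1 / 2 := min_le_right _ _
  have hpos : 0 < (f k).gp (2 * (σ - e)) := by linarith
  have h2 : ∃ ω, (f k).l.T.μ ω ≠ 0 ∧ (2 : ℝ) ^ (2 * (σ - e) * (S.F k).n) ≤ (f k).gav ω := by
    by_contra hno
    push Not at hno
    have h3 : (f k).gp (2 * (σ - e)) ≤ (f k).l.T.pb (fun _ => False) := by
      apply FSp.pb_mono
      intro ω hω h4
      exact absurd h4 (not_le.mpr (hno ω hω))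
    have h4 : (f k).l.T.pb (fun _ => False) = 0 := by
      unfold FSp.pb mass
      apply Finset.sum_eq_zero
      intro ω _
      exact res_neg _ _ _ not_false
    linarith
  obtain ⟨ω, hω, h3⟩ := h2
  have hn := (S.F k).pos
  have h4 := (f k).hc ω hω
  have h5 : ((f k).A ω).2 ≤ (2 : ℝ) ^ (S.F k).n := h4.2
  have h6 : (1 : ℝ) ≤ ((f k).A ω).2 := h4.1
  have e3 : (f k).gav ω = ((f k).A ω).2 ^ 2 := rfl
  rw [e3] at h3
  have h7 : ((f k).A ω).2 ^ 2 ≤ (2 : ℝ) ^ (2 * (S.F k).n) := by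
    calc ((f k).A ω).2 ^ 2 ≤ ((2 : ℝ) ^ (S.F k).n) ^ 2 := pow_le_pow_left₀ (by linarith) h5 2
      _ = (2 : ℝ) ^ (2 * (S.F k).n) := by
        rw [← Real.rpow_natCast, ← Real.rpow_mul (by norm_num)]
        congr 1
        push_cast
        ring
  have h8 := h3.trans h7
  have h9 := (Real.rpow_le_rpow_left_iff (by norm_num : (1 : ℝ) < 2)).mp h8
  have h10 : 2 * (σ - e) ≤ 2 := by
    by_contra h11
    push Not at h11
    nlinarith
  linarith

/-- sheets of depth zero -/
theorem HH_zero (s : Sys S m) (i : Fin m) (J : Finset (Fin (m + 1))) (c : ℝ) : HH (SJ i J) s c 0 := by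
  refine HH_of_Sht le_rfl zero_le_one (l := fun k => FLab.triv (S.F k)) (v := fun _ _ => (0, 0)) (Lab.DM_triv _ _)
    ⟨fun _ _ _ _ _ _ _ => rfl, ?_⟩
  obtain ⟨K, hK, h⟩ := s.P.bd
  refine ⟨K, hK, ?_, ?_⟩
  · filter_upwards [hK.1] with k hk ω _ j
    show |(0 : Fin (m + 1) → ℝ) j| ≤ K k
    rw [Pi.zero_apply, abs_zero]
    exact hk
  · refine Typ.mono (S := Lab.sp (S := S) fun k => FLab.triv (S.F k)) (E := fun _ _ => True) Typ_true ?_
    filter_upwards [h] with k hk ω hω _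
    have h1 : dfl s i J (fun k => FLab.triv (S.F k)) (fun _ _ => (0, 0)) k ω = s.P.v k ω i :=
      df_zero i J _ _ _
    rw [h1]
    have h2 := hk ω hω i
    have h3 : S.dl 0 k = 1 := by
      unfold Sp.dl
      rw [zero_mul, neg_zero, Real.rpow_zero]
    rw [h3, mul_one]
    exact h2

/-- the window function of the sheets -/
def la (s : Sys S m) (i : Fin m) (J : Finset (Fin (m + 1))) (c : ℝ) : ℝ := sSup {σ | HH (SJ i J) s c σ}

section
variable {s : Sys S m} {i : Fin m} {J : Finset (Fin (m + 1))}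

theorem HH_bdd (c : ℝ) : BddAbove {σ | HH (SJ i J) s c σ} := ⟨1, fun _ h => HH_le_one h⟩

theorem le_la {c σ : ℝ} (h : HH (SJ i J) s c σ) : σ ≤ la s i J c := le_csSup (HH_bdd c) h

theorem HH_la (c : ℝ) : HH (SJ i J) s c (la s i J c) := by
  have h1 : ∀ n : ℕ, HH (SJ i J) s c (la s i J c - 1 / ((n : ℝ) + 1)) := by
    intro n
    have h2 : la s i J c - 1 / ((n : ℝ) + 1) < la s i J c := by
      have : (0 : ℝ) < 1 / ((n : ℝ) + 1) := by positivity
      linarith
    obtain ⟨σ, h3, h4⟩ := exists_lt_of_lt_csSup ⟨0, HH_zero s i J c⟩ h2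
    exact HH.mono s h3 le_rfl h4.le
  refine HH_closed s (fun _ => c) c tendsto_const_nhds _ _ ?_ h1
  have h5 : Tendsto (fun n : ℕ => (1 : ℝ) / ((n : ℝ) + 1)) atTop (𝓝 0) := tendsto_one_div_add_atTop_nhds_zero_nat
  have h6 := h5.const_sub (la s i J c)
  rwa [sub_zero] at h6

theorem HH_iff_la {c σ : ℝ} : HH (SJ i J) s c σ ↔ σ ≤ la s i J c :=
  ⟨le_la, fun h => HH.mono s (HH_la c) le_rfl h⟩

theorem la_le_one (c : ℝ) : la s i J c ≤ 1 := HH_le_one (HH_la c)

theorem la_nonneg (c : ℝ) : 0 ≤ la s i J c := le_la (HH_zero s i J c)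

theorem la_mono {c c' : ℝ} (h : c ≤ c') : la s i J c ≤ la s i J c' := le_la (HH.mono s (HH_la c) h le_rfl)

theorem la_right {c v : ℝ} (h : ∀ c', c < c' → v ≤ la s i J c') : v ≤ la s i J c := by
  apply le_la
  refine HH_closed s (fun n : ℕ => c + 1 / ((n : ℝ) + 1)) c ?_ (fun _ => v) v tendsto_const_nhds ?_
  · have h5 : Tendsto (fun n : ℕ => (1 : ℝ) / ((n : ℝ) + 1)) atTop (𝓝 0) := tendsto_one_div_add_atTop_nhds_zero_nat
    have h6 := h5.const_add c
    rwa [add_zero] at h6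
  · intro n
    apply HH_iff_la.mpr
    apply h
    have : (0 : ℝ) < 1 / ((n : ℝ) + 1) := by positivity
    linarith

/-- SPEED for sheets -/
theorem HH_speed {c c' σ : ℝ} (h0 : 0 ≤ c) (hcc : c ≤ c') (h1 : c' ≤ 1) (h : HH (SJ i J) s c σ) :
    HH (SJ i J) s c' (min 1 (σ + (c' - c))) := by
  rcases lt_or_ge c 1 with hc | hc
  · rcases le_or_gt (min 1 (σ + (c' - c))) 0 with h2 | h2
    · exact HH.mono s (HH_zero s i J c') le_rfl h2
    · have h3 : HH (SJ i J) s c (min 1 (σ + (c' - c)) - (c' - c)) :=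
        HH.mono s h le_rfl (by have := min_le_right 1 (σ + (c' - c)); linarith)
      obtain ⟨l, v, hl, hv⟩ := Sht_of_HH h3
      obtain ⟨l', v', hl', hv'⟩ := hv.speed h0 hc hcc h1 (by have := min_le_left 1 (σ + (c' - c)); linarith) hl
      rw [sub_add_cancel] at hv'
      exact HH_of_Sht h2.le (min_le_left _ _) hl' hv'
  · have e1 : c' = c := by linarith
    rw [e1, sub_self, add_zero]
    exact HH.mono s h le_rfl (min_le_right _ _)

theorem la_speed {c c' : ℝ} (h0 : 0 ≤ c) (hcc : c ≤ c') (h1 : c' ≤ 1) :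
    min 1 (la s i J c + (c' - c)) ≤ la s i J c' := le_la (HH_speed h0 hcc h1 (HH_la c))

/-- depth of the window -/
theorem la_ge_self {c : ℝ} (h0 : 0 ≤ c) (h1 : c ≤ 1) : c ≤ la s i J c := by
  have h2 := la_speed (s := s) (i := i) (J := J) le_rfl h0 h1
  have h3 := la_nonneg (s := s) (i := i) (J := J) 0
  refine le_trans ?_ h2
  rw [sub_zero]
  exact le_min h1 (by linarith)

/-- robust systems -/
theorem la_eq_of_psi {T : Sp} {s' : Sys T m} (h : ∀ c σ, psi (SJ i J) s' c σ = psi (SJ i J) s c σ) (c : ℝ) :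
    la s' i J c = la s i J c := by
  unfold la
  congr 1
  ext σ
  show HH (SJ i J) s' c σ ↔ HH (SJ i J) s c σ
  rw [HH_iff, HH_iff, h]

theorem la_im {ι : Type} {G : ι → Gg m} (hR : RobustG G s) {q : ι} (hq : G q = SJ i J) {T : Sp} (p : Pj T S)
    (E : ∀ k, (T.F k).Ω → Prop) (hE : 0 < ul (T.pr E)) (c : ℝ) : la (s.im p E hE) i J c = la s i J c :=
  la_eq_of_psi (fun c σ => by rw [← hq]; exact hR q T p E hE c σ) c

theorem la_trn {r : ℝ} {h0 : 0 < r} {h1 : r ≤ 1} (c : ℝ) : r * la (trn s r h0 h1) i J c ≤ la s i J (r * c) :=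
  le_la (HH_of_trn (la_nonneg c) (la_le_one c) (HH_la c))

end

/-! ### connected systems -/

/-- in connected systems the common part of the line and of the point is trivial -/
theorem H_zero_of_con {s : Sys S m} (hs : Helper40.EL.ic s 0 = 0) {Y : S.L} (hA : Y ≤ s.xi 1) (hB : Y ≤ lB s) :
    H Y = 0 := by
  have hk := kap_isKap s 0
  have h1 := hk.ic_xi le_rfl zero_le_one
  have h2 : up1 (kap s 0) Y = ⊥ :=
    Lab.IsMaxL.common (IsKap_iff.mp hk) (hA.trans le_sup_left) hB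
  have h3 : s.xi 1 = Y ⊔ s.xi 1 := (sup_eq_right.mpr hA).symm
  have h4 : H (s.xi 1) = H Y + h (s.xi 1) Y := by
    have := H_chain Y (s.xi 1)
    rwa [← h3] at this
  have h5 := h_up1_le (kap s 0) (s.xi 1) Y
  rw [h2, h_bot] at h5
  have h6 := H_nonneg Y
  rw [hs] at h1
  linarith

/-- elements of the line which are known to a label of a window are trivial -/
theorem H_zero_of_up1 {s : Sys S m} (hs : Helper40.EL.ic s 0 = 0) {c : ℝ} {l : Lab S} (hl : DMc s c l) {Y : S.L}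
    (hA : Y ≤ s.xi 1) (hY : up1 l Y = ⊥) : H Y = 0 := by
  apply H_zero_of_con hs hA
  rw [← h_eq_zero_iff]
  have h1 := hl.h_B (x := Y) (y := lB s) le_rfl
  rw [← h1, hY]
  apply le_antisymm _ (h_nonneg _ _)
  have h2 := h_le_H (⊥ : (l.ovr 1 one_pos).L) (up1 l (lB s))
  have h3 : H (⊥ : (l.ovr 1 one_pos).L) = 0 := H_bot
  linarith

end

end Pool.Agent.Helper19.S12
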