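import Pool.Agent.Helper19.S12.Prd
import Pool.Agent.Helper68.ST2.Par

/-! THE FACTS `Bk` of the corner of a box. -/

set_option autoImplicit false

namespace Pool.Agent.Helper19.S12

open Finset Filter Topology Set Pool.Agent.Helper69.RK Pool.Agent.Helper31.EC Pool.Agent.Helper31.EC.Sp
open Pool.Agent.Helper40.EL Pool.Agent.Helper42.NS Pool.Agent.Helper52.KP Pool.Agent.Helper52.SL
open Pool.Agent.Helper91.GR Pool.Agent.Helper80.HCI Pool.Agent.Helper60.CS Pool.Agent.Helper68.ST2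
open Pool.Agent.Helper47.T4 Pool.Agent.Helper47.CA
open Pool.Agent.Helper98.FR (famPj T_eq)
open Pool.Agent.Helper3.ZM (h_kap)

noncomputable section

variable {S : Sp} {s : Sys S 2} {i j : Fin 2} {c w b : ℝ}

/-- informations over the four windows of a box -/
theorem crn_fin4 (K : Crn s i j c w b) (sg σ v ε P : ℝ) (hsg : 0 < sg) (hε : 0 < ε) : ∃ E0, 0 < E0 ∧ ∀ e, 0 < e → e ≤ E0 →
    ∀ (N : Num s i j (la s j {0} 0) c e sg σ v) (B : Bn s i j (la s j {0} 0) c e sg) (Kg : ℕ → ℝ)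
      (hKg : B.M.sp.Sub Kg) (g1 : Sm Kg (la s i {0, j.succ} c - c - la s j {0} 0) ((B.W 1).γ - (B.W 0).γ))
      (g2 : Sm Kg (la s i {0, j.succ} c - c - la s j {0} 0) ((B.W 2).γ - (B.W 0).γ))
      (g3 : Sm Kg (la s i {0, j.succ} c - c - la s j {0} 0) ((B.W 3).γ - (B.W 0).γ)),
      Fin4 (Pool.Agent.Helper68.ST2.mkF B N Kg hKg g1 g2 g3) (2 - b) ε P := by
  obtain ⟨E1, hE1, h1⟩ := K.r1w (A := sg + 1) (ea := ε) (by linarith) hε
  obtain ⟨E2, hE2, h2⟩ := K.unw hε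
  refine ⟨min E1 E2, lt_min hE1 hE2, fun e he hee N B Kg hKg g1 g2 g3 => ?_⟩
  have he1 : e ≤ E1 := hee.trans (min_le_left _ _)
  have he2 : e ≤ E2 := hee.trans (min_le_right _ _)
  have hes : 0 < e * sg := mul_pos he hsg
  have hu : 0 ≤ la s j {0} 0 := la_nonneg 0
  have hc := K.c_pos
  have hlu := N.lu
  have full : ∀ c', 0 ≤ c' → c' ≤ 1 → Bf.Full s j (la s j {0} 0) c' := by
    intro c' a1 a2
    rcases a2.lt_or_eq with a3 | a3
    · exact K.full a1 a3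
    · intro l _
      have := h_nonneg (up1 l (Pd s j 1)) (up1 l s.T)
      linarith
  have hM : (Pool.Agent.Helper68.ST2.mkF B N Kg hKg g1 g2 g3).M = Bf.Mf B := (Bf.Mf_eq B).symm
  have hLx : (Pool.Agent.Helper68.ST2.mkF B N Kg hKg g1 g2 g3).Lx ≤ Bf.Lx B :=
    sup_le (sup_le (Bf.a_le_Lx B le_rfl) (Bf.x_le_Lx B le_rfl)) (sup_le (Bf.b_le_Lx B le_rfl) (Bf.y_le_Lx B le_rfl))
  refine { tm0 := ?_, tm2 := ?_, fu2 := ?_, H1 := ?_, H3 := ?_, r1 := ?_, un := ?_ }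
  · exact Bf.tm B 0 (b := 1) hc.le le_rfl (show c ≤ 1 by linarith) (chgL_mono _ _ _ hLx)
  · exact Bf.tm B 2 (b := 1) (show 0 ≤ c + e * sg by linarith) le_rfl (show c + e * sg ≤ 1 by linarith)
      (chgL_mono _ _ _ hLx)
  · have h3 := full (c + e * sg) (by linarith) (by linarith) _ (B.kap 2)
    show 1 - (c + e * sg) - la s j {0} 0 ≤ h (chgL (Bf.V B 2) 1 one_pos (TR.dg (Bf.L B).P 1))
      (chgL (Bf.V B 2) 1 one_pos (TR.dg (Bf.L B).t 1))
    rw [Bf.dgP, Bf.dgt, T_eq]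
    exact h3
  · have h3 := Bf.H_Mf B (n := 1) (full (c + e) (by linarith) (by linarith)) (show 0 ≤ c + e by linarith)
      (show c + e ≤ 1 by linarith)
    rw [← hM] at h3
    exact h3
  · have h3 := Bf.H_Mf B (n := 3) (full (c + e * sg + e) (by linarith) (by linarith))
      (show 0 ≤ c + e * sg + e by linarith) (show c + e * sg + e ≤ 1 by linarith)
    rw [← hM] at h3
    exact h3
  · have h3 := h1 e he he1 (c + e * sg) (c + e * sg + e) e (by nlinarith) (by linarith) (by nlinarith) (by nlinarith)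
      (B.M.lab 2) (B.M.lab 3) (B.kap 2) (B.kap 3)
    show H (chgL (Bf.V B 2) 1 one_pos (TR.dg (Bf.L B).x (la s j {0} 0 + e))) -
      H (chgL (Bf.V B 3) 1 one_pos (TR.dg (Bf.L B).x (la s j {0} 0 + e))) ≤ ε * e
    rw [Bf.dgx]
    exact h3
  · intro T p E hE _ x y hx hxy hy
    have h3 := h2 e he he2 (B.M.lab 0) (B.kap 0) T p E hE x y hx hxy (hy.trans N.h1)
    have e1 : (B.M.lab 0).upL e he (Pd s i (la s i {0, j.succ} c + e * y)) =
        chgL (Bf.V B 0) e he (TR.dg (Bf.L B).R (la s i {0, j.succ} c + e * y)) := by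
      rw [Bf.dgR]
      rfl
    have e2 : (B.M.lab 0).upL e he (Pd s i (la s i {0, j.succ} c + e * x) ⊔ (Pd s j 1 ⊔ s.T)) =
        chgL (Bf.V B 0) e he (TR.dg (Bf.L B).R (la s i {0, j.succ} c + e * x) ⊔ Bf.Mf B) := by
      rw [Bf.dgR, sup_comm (Pd s j 1)]
      show chgL (Bf.V B 0) e he ((famPj B.M).map _) = _
      rw [(famPj B.M).map_sup]
      rfl
    rw [e1, e2, ← hM] at h3
    exact h3

/-- **THE FACTS `Bk`** of the corner of a box -/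
theorem crn_bk (K : Crn s i j c w b) : ∀ sg σ v ε P : ℝ, 0 < sg → 0 < ε → 0 < P → ∃ E0, 0 < E0 ∧ ∀ e, 0 < e → e ≤ E0 →
    ∀ (N : Num s i j (la s j {0} 0) c e sg σ v) (B : Bn s i j (la s j {0} 0) c e sg) (Kg : ℕ → ℝ)
      (hKg : B.M.sp.Sub Kg) (g1 : Sm Kg (la s i {0, j.succ} c - c - la s j {0} 0) ((B.W 1).γ - (B.W 0).γ))
      (g2 : Sm Kg (la s i {0, j.succ} c - c - la s j {0} 0) ((B.W 2).γ - (B.W 0).γ))
      (g3 : Sm Kg (la s i {0, j.succ} c - c - la s j {0} 0) ((B.W 3).γ - (B.W 0).γ)),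
      Bk (Pool.Agent.Helper68.ST2.mkF B N Kg hKg g1 g2 g3).D (Pool.Agent.Helper68.ST2.mkF B N Kg hKg g1 g2 g3).V1 (Pool.Agent.Helper68.ST2.mkF B N Kg hKg g1 g2 g3).V3
        (Pool.Agent.Helper68.ST2.mkF B N Kg hKg g1 g2 g3).L0 (Pool.Agent.Helper68.ST2.mkF B N Kg hKg g1 g2 g3).M0 (Pool.Agent.Helper68.ST2.mkF B N Kg hKg g1 g2 g3).M
        (Pool.Agent.Helper68.ST2.mkF B N Kg hKg g1 g2 g3).L2 (Pool.Agent.Helper68.ST2.mkF B N Kg hKg g1 g2 g3).X2 (Pool.Agent.Helper68.ST2.mkF B N Kg hKg g1 g2 g3).Y2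
        (Pool.Agent.Helper68.ST2.mkF B N Kg hKg g1 g2 g3).Lx (2 - b) ε P := by
  intro sg σ v ε P hsg hε hP
  obtain ⟨E0, hE0, h1⟩ := crn_fin4 K sg σ v ε P hsg hε
  exact ⟨E0, hE0, fun e he hee N B Kg hKg g1 g2 g3 => fw_bk hε.le (h1 e he hee N B Kg hKg g1 g2 g3)⟩

end

end Pool.Agent.Helper19.S12
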