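import Pool.Agent.Helper19.S12.Win
import Pool.Agent.Helper91.GR.Nl
import Pool.Agent.Helper3.ZM.Win

/-! Conditional entropies over the labels `kappa_c` are nonincreasing in `c`. -/

set_option autoImplicit false

namespace Pool.Agent.Helper19.S12

open Finset Filter Topology Pool.Agent.Helper69.RK Pool.Agent.Helper31.EC Pool.Agent.Helper31.EC.Sp
open Pool.Agent.Helper40.EL Pool.Agent.Helper42.NS Pool.Agent.Helper52.KP Pool.Agent.Helper52.SL
open Pool.Agent.Helper91.GR
open Pool.Agent.Helper3.ZM (h_kap)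

noncomputable section

variable {S : Sp} {m : ℕ} {s : Sys S m}

theorem UB_up1 (l : Lab S) (x : S.L) (B : ∀ k, FL (l k).T) :
    UB (fun k => h ((l k).p.map (rp x k)) (B k) / (S.F k).n) := by
  refine UB.sandwich (UB_const 0) ((rp_Bd x).ub (fun _ => ⊥)) ?_ ?_
  · exact Eventually.of_forall fun k => div_nonneg (h_nonneg _ _) (S.F k).pos.le
  · refine Eventually.of_forall fun k => div_le_div_of_nonneg_right ?_ (S.F k).pos.le
    rw [h_bot, ← (l k).p.H_map]
    exact h_le_H _ _

/-- entropies over a join -/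
theorem h_join_le (l l' : Lab S) (x y : S.L) : h (up1 (l.join l') x) (up1 (l.join l') y) ≤ h (up1 l x) (up1 l y) := by
  rw [(l.join l').hr_upL, l.hr_upL]
  apply div_le_div_of_nonneg_right _ one_pos.le
  refine ul_mono (UB_up1 _ _ _) (UB_up1 _ _ _) (Eventually.of_forall fun k => ?_)
  apply div_le_div_of_nonneg_right _ (S.F k).pos.le
  have e : ∀ z : S.L, ((l.join l') k).p.map (rp z k) = ((l k).am (l' k)).p1.map ((l k).p.map (rp z k)) := fun z =>
    FLab.join_map _ _ _
  have e2 : ((l.join l') k).v = ((l k).am (l' k)).p1.map (l k).v ⊔ ((l k).am (l' k)).p2.map (l' k).v :=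
    FLab.join_v _ _
  rw [e, e, e2, ← ((l k).am (l' k)).p1.h_map ((l k).p.map (rp x k)), ((l k).am (l' k)).p1.map_sup]
  apply h_anti
  exact sup_le le_sup_left (le_sup_left.trans le_sup_right)

/-- conditional entropies over the labels `kappa_c` are nonincreasing in `c` -/
theorem h_kap_anti {c c' : ℝ} (hcc : c ≤ c') {l l' : Lab S} (hl : IsKap s c l) (hl' : IsKap s c' l') (x y : S.L) :
    h (up1 l' x) (up1 l' y) ≤ h (up1 l x) (up1 l y) := by
  have h1 : IsKap s c' (l.join l') := IsKap_join_right (DMc.mono hcc hl.1) hl'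
  rw [h_kap hl' h1]
  exact h_join_le l l' x y

end

end Pool.Agent.Helper19.S12
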