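import Pool.Agent.Helper54.NS.Dens
import Pool.Agent.Helper54.NS.Levels
import Pool.Agent.Helper54.NS.Rates

/-! Real analysis: increments and density of levels, first window with a full sheet, typical windows. -/

set_option autoImplicit false

namespace Pool.Agent.Helper19.S12

open MeasureTheory Set Filter Topology
open scoped NNReal ENNReal

/-- levels at which the derivative is at most `b` -/
def Dl (y : ℝ → ℝ) (b : ℝ) : Set ℝ := {r | ∃ y' ≤ b, HasDerivAt y y' r}

/-- increments of a Lipschitz function are at most `b` per level, up to the measure of the bad levels -/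
theorem incr_le {y : ℝ → ℝ} {K : ℝ≥0} (hy : LipschitzWith K y) {b : ℝ} (hb0 : 0 ≤ b) {r r' : ℝ} (h : r ≤ r') :
    y r' - y r ≤ b * (r' - r) + K * (volume (Ioo r r' \ Dl y b)).toReal := by
  have hm : MeasurableSet (Dl y b) := Pool.Agent.Helper54.NS.meas_level y b
  have hac : AbsolutelyContinuousOnInterval y r r' :=
    (hy.lipschitzOnWith (s := uIcc r r')).absolutelyContinuousOnInterval
  have hint := hac.integral_deriv_eq_sub
  have hdi := hac.ae_differentiableAt
  rw [← hint]
  set g : ℝ → ℝ := (Dl y b)ᶜ.indicator (fun _ => (K : ℝ)) with hg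
  have hgi : IntegrableOn g (Ioc r r') := by
    refine Integrable.indicator ?_ hm.compl
    exact integrableOn_const (by simp) (by simp)
  have hgi2 : IntervalIntegrable g volume r r' := by
    rw [intervalIntegrable_iff_integrableOn_Ioc_of_le h]
    exact hgi
  have h1 : ∫ x in r..r', deriv y x ≤ ∫ x in r..r', (b + g x) := by
    refine intervalIntegral.integral_mono_ae_restrict h hac.intervalIntegrable_deriv
      ((intervalIntegrable_const).add hgi2) ?_
    rw [EventuallyLE, ae_restrict_iff' measurableSet_Icc]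
    filter_upwards [hdi] with x hx hx2
    by_cases hD : x ∈ Dl y b
    · have e1 : g x = 0 := indicator_of_notMem (fun hc : x ∈ (Dl y b)ᶜ => hc hD) _
      obtain ⟨y', h3, h4⟩ := hD
      rw [h4.deriv, e1, add_zero]
      exact h3
    · have e1 : g x = K := indicator_of_mem (show x ∈ (Dl y b)ᶜ from hD) _
      rw [e1]
      have h3 := norm_deriv_le_of_lipschitz hy (x₀ := x)
      rw [Real.norm_eq_abs] at h3
      have h4 := le_abs_self (deriv y x)
      linarith
  refine h1.trans (le_of_eq ?_)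
  rw [intervalIntegral.integral_add intervalIntegrable_const hgi2, intervalIntegral.integral_const, smul_eq_mul,
    intervalIntegral.integral_of_le h, hg, setIntegral_indicator hm.compl, setIntegral_const, smul_eq_mul]
  have e2 : volume (Ioc r r' ∩ (Dl y b)ᶜ) = volume (Ioo r r' \ Dl y b) := by
    apply measure_congr
    rw [sdiff_eq]
    exact Ioo_ae_eq_Ioc.symm.inter (ae_eq_refl _)
  rw [measureReal_def, e2]
  ring

/-- density gives small measures of bad levels -/
theorem dens_small {D : Set ℝ} (hden : Tendsto (fun δ : ℝ => volume (Ioo (1 - δ) 1 \ D) / ENNReal.ofReal δ) (𝓝[>] 0) (𝓝 0))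
    {ε : ℝ} (hε : 0 < ε) : ∃ δ0 : ℝ, 0 < δ0 ∧ ∀ δ, 0 < δ → δ ≤ δ0 → (volume (Ioo (1 - δ) 1 \ D)).toReal ≤ ε * δ := by
  have h1 : ∀ᶠ δ : ℝ in 𝓝[>] 0, volume (Ioo (1 - δ) 1 \ D) / ENNReal.ofReal δ < ENNReal.ofReal ε :=
    hden.eventually (gt_mem_nhds (by simpa using hε))
  rw [eventually_nhdsWithin_iff, Metric.eventually_nhds_iff] at h1
  obtain ⟨d, hd, h2⟩ := h1
  refine ⟨d / 2, half_pos hd, fun δ h3 h4 => ?_⟩
  have h5 := h2 (y := δ) (by rw [Real.dist_eq, sub_zero, abs_of_pos h3]; linarith) h3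
  have h6 : ENNReal.ofReal δ ≠ 0 := by simpa using h3
  rw [ENNReal.div_lt_iff (Or.inl h6) (Or.inl ENNReal.ofReal_ne_top)] at h5
  rw [← ENNReal.ofReal_mul hε.le] at h5
  exact ENNReal.toReal_le_of_le_ofReal (by positivity) h5.le

/-- FIRST WINDOW with a full sheet -/
theorem exists_first {η : ℝ → ℝ} (h0 : η 0 < 1) (h1 : η 1 = 1) (hle : ∀ c, η c ≤ 1)
    (hmono : ∀ c c', c ≤ c' → η c ≤ η c') (hr : ∀ c v, (∀ c', c < c' → v ≤ η c') → v ≤ η c) :
    ∃ c0 : ℝ, 0 < c0 ∧ c0 ≤ 1 ∧ η c0 = 1 ∧ ∀ c, c < c0 → η c < 1 := by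
  set A : Set ℝ := {c | 0 ≤ c ∧ η c = 1} with hA
  have hne : A.Nonempty := ⟨1, zero_le_one, h1⟩
  have hbdd : BddBelow A := ⟨0, fun c hc => hc.1⟩
  set c0 := sInf A with hc0
  have hc00 : 0 ≤ c0 := le_csInf hne fun c hc => hc.1
  have h2 : η c0 = 1 := by
    apply le_antisymm (hle c0)
    apply hr
    intro c' hc'
    obtain ⟨c, hc, hcc⟩ := exists_lt_of_csInf_lt hne hc'
    rw [← hc.2]
    exact hmono c c' hcc.le
  refine ⟨c0, ?_, csInf_le hbdd ⟨zero_le_one, h1⟩, h2, fun c hc => ?_⟩
  · rcases hc00.lt_or_eq with h | h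
    · exact h
    · rw [← h] at h2
      linarith
  · rcases lt_or_ge c 0 with h | h
    · exact (hmono c 0 h.le).trans_lt h0
    · rcases (hle c).lt_or_eq with h3 | h3
      · exact h3
      · exfalso
        exact absurd (csInf_le hbdd (show c ∈ A from ⟨h, h3⟩)) (not_le.mpr hc)

end Pool.Agent.Helper19.S12
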