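import Pool.Agent.Helper19.S12.Sel
import Pool.Agent.Helper19.S12.Lvl
import Pool.Agent.Helper19.S12.Kan
import Pool.Agent.Helper91.GR.Lip2

/-! LIP for `m = 2`. -/

set_option autoImplicit false

namespace Pool.Agent.Helper19.S12

open Finset Filter Topology Set MeasureTheory Pool.Agent.Helper69.RK Pool.Agent.Helper31.EC Pool.Agent.Helper31.EC.Sp
open Pool.Agent.Helper40.EL Pool.Agent.Helper42.NS Pool.Agent.Helper52.KP Pool.Agent.Helper52.SL
open Pool.Agent.Helper91.GR Pool.Agent.Helper80.HCI
open scoped NNReal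

noncomputable section

section

variable {i j : Fin 2}

/-- the names of the coordinates -/
def C2 (hij : i ≠ j) : Cd 2 0 where
  sel := fun _ => 0
  R := j
  z := i
  sel0 := rfl
  inj := fun a b _ => by omega
  hR := fun _ => (Fin.succ_ne_zero j).symm
  hz := fun _ => (Fin.succ_ne_zero i).symm
  hRz := hij.symm
  cov := fun k => by
    rcases Fin.eq_zero_or_eq_succ k with h | ⟨q, h⟩
    · exact Or.inr (Or.inr ⟨0, h⟩)
    · rcases fin2_cases hij q with h2 | h2
      · left; rw [h, h2]
      · right; left; rw [h, h2]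

theorem C2_JR (hij : i ≠ j) : (C2 hij).JR = {0} := by
  unfold Cd.JR
  ext k
  rw [Finset.mem_image, Finset.mem_singleton]
  constructor
  · rintro ⟨a, -, h⟩
    exact h.symm
  · intro h
    exact ⟨0, Finset.mem_univ _, h.symm⟩

theorem C2_Jz (hij : i ≠ j) : (C2 hij).Jz = {0, j.succ} := by
  unfold Cd.Jz
  rw [C2_JR]
  exact Finset.pair_comm _ _

end

variable {S : Sp} {s : Sys S 2} {i j : Fin 2}

/-- fullness of the base over the labels `kappa_c` -/
theorem full_ic (hR : RobS s) (hic : Helper40.EL.ic s 0 = 0) (j : Fin 2) {c : ℝ} (h0 : 0 ≤ c) (h1 : c < 1) :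
    1 - c - la s j {0} 0 ≤ s.F 0 1 - Helper40.EL.ic s c := by
  have h2 := (kap_isKap s c).ic_P h0 h1.le
  have h3 := Pj_full hR.d hic j h0 h1 (kap_isKap s c)
  have h4 : h (up1 (kap s c) (TR.dg (TR.cor s.P j) 1)) (up1 (kap s c) s.T) ≤
      h (up1 (kap s c) (s.P.dg 1)) (up1 (kap s c) s.T) := h_mono (up1_mono _ (TR.cor_dg_le _ _ _))
  rw [Sys.F_zero_left]
  linarith

/-- LIP -/
theorem lip_two (hR : RobS s) (hic : Helper40.EL.ic s 0 = 0) (hij : i ≠ j) (hu : la s j {0} 0 ≤ la s i {0} 0) {b : ℝ}
    (hb1 : 1 ≤ b) (hb2 : b < 2)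
    (hden : Tendsto (fun δ : ℝ => volume (Ioo (1 - δ) 1 \ defic s b) / ENNReal.ofReal δ) (𝓝[>] 0) (𝓝 0)) {c0 : ℝ}
    (hc0 : 0 < c0) (hc01 : c0 ≤ 1) (hla : la s i {0, j.succ} c0 = 1) :
    ∃ C d0 : ℝ, 0 < d0 ∧ d0 ≤ c0 ∧ ∀ c ∈ Ioo (c0 - d0) c0, 1 - la s i {0, j.succ} c ≤ C * (c0 - c) := by
  set u := la s j {0} 0 with hud
  have hu0 : 0 ≤ u := la_nonneg 0
  rcases lt_or_ge (c0 + u) 1 with hcu | hcu
  · obtain ⟨K, hK1, hlip⟩ := lip 0 (2 - b) (by linarith) (by linarith)
    have hK0 : 0 < K := by linarith
    obtain ⟨δ0, hδ0, hsm⟩ := dens_small hden (ε := 1 / (1 + 2 * K)) (by positivity)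
    refine ⟨1 + 2 * K, min c0 (min δ0 (1 - c0 - u) / (1 + 2 * K)), ?_, min_le_left _ _, fun c hc => ?_⟩
    · apply lt_min hc0
      apply div_pos (lt_min hδ0 (by linarith)) (by linarith)
    · have h1 : c0 - c < min c0 (min δ0 (1 - c0 - u) / (1 + 2 * K)) := by linarith [hc.1]
      have h2 := h1.trans_le (min_le_left _ _)
      have h3 := h1.trans_le (min_le_right _ _)
      rw [lt_div_iff₀ (by linarith)] at h3
      have h4 := h3.trans_le (min_le_left _ _)
      have h5 := h3.trans_le (min_le_right _ _)
      have hcc : 0 < c0 - c := by linarith [hc.2]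
      have hc' : 0 ≤ c := by linarith
      set R : ℝ := 2 * K * (c0 - c) with hRdef
      set κ : ℝ := 2 * (volume (Ioo (1 - (c0 - c) * (1 + 2 * K)) 1 \ defic s b)).toReal with hκ
      have h6 := hsm ((c0 - c) * (1 + 2 * K)) (by positivity) h4.le
      have h7 : κ ≤ 2 * (c0 - c) := by
        rw [hκ]
        have : 1 / (1 + 2 * K) * ((c0 - c) * (1 + 2 * K)) = c0 - c := by field_simp
        rw [this] at h6
        linarith
      have h8 : ∀ c', 0 ≤ c' → c' < 1 → c' + u ≤ 1 → HH (SJ (C2 hij).R (C2 hij).JR) s c' (c' + u) := by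
        intro c' g1 g2 g3
        rw [C2_JR]
        show HH (SJ j {0}) s c' (c' + u)
        rw [HH_iff_la, la_line hic g1 g2]
        exact le_min g3 le_rfl
      have h9 := hlip (C := C2 hij) (s := s) (c := c) (c0 := c0) (lam := c + u) (lam0 := c0 + u) (R := R) (κ := κ) hc'
        hc.2.le (by linarith) (by linarith) (by linarith) hR.p hR.i
        (by
          rw [C2_Jz]
          show HH (SJ i {0, j.succ}) s c0 1
          rw [HH_iff_la, hla])
        (h8 c0 hc0.le (by linarith) hcu.le) (h8 c hc' (by linarith) (by linarith))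
        (by
          have := full_ic hR hic j hc0.le (show c0 < 1 by linarith)
          push_cast
          linarith)
        (by positivity)
        (by
          have : R + (c0 - c) = (c0 - c) * (1 + 2 * K) := by rw [hRdef]; ring
          linarith)
        (by
          push_cast
          rw [hRdef]
          exact le_of_eq (by ring))
        (by
          rw [hRdef]
          nlinarith)
        (fun r r' g1 g2 g3 => by
          have e1 := incr_le (y_lip s) (b := b) (by linarith) g2
          have e2 : (volume (Ioo r r' \ Dl (s.F 0) b)).toReal ≤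
              (volume (Ioo (1 - (c0 - c) * (1 + 2 * K)) 1 \ defic s b)).toReal := by
            apply ENNReal.toReal_mono
            · refine ne_top_of_le_ne_top ?_ (measure_mono sdiff_subset)
              rw [Real.volume_Ioo]
              exact ENNReal.ofReal_ne_top
            · apply measure_mono
              intro q hq
              refine ⟨⟨?_, ?_⟩, hq.2⟩
              · have := hq.1.1
                have e3 : R + (c0 - c) = (c0 - c) * (1 + 2 * K) := by rw [hRdef]; ring
                linarith
              · have := hq.1.2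
                linarith
          have e4 : (((2 : ℕ) : ℝ≥0) : ℝ) = 2 := by norm_num
          rw [e4] at e1
          push_cast
          rw [hκ]
          linarith)
      rw [C2_Jz] at h9
      have h10 : 1 - (c0 - c) - R ≤ la s i {0, j.succ} c := le_la h9
      rw [hRdef] at h10
      linarith
  · refine ⟨1, c0, hc0, le_rfl, fun c hc => ?_⟩
    have h1 : la s i {0} c ≤ la s i {0, j.succ} c := la_le_SJ (by simp) c
    have hc' : 0 ≤ c := by linarith [hc.1]
    have h2 := la_line (i := i) hic hc' (show c < 1 by linarith [hc.2])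
    have h3 : min 1 (c + u) ≤ la s i {0} c := by
      rw [h2]
      exact min_le_min le_rfl (by linarith)
    rcases min_choice 1 (c + u) with h4 | h4
    · rw [h4] at h3
      linarith [hc.2]
    · rw [h4] at h3
      linarith

end

end Pool.Agent.Helper19.S12
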