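import Pool.Agent.Helper19.S12.Pro
import Pool.Agent.Helper47.T4.Ct

/-! Digits of the rescaled functions of a window over finer labels of other windows. -/

set_option autoImplicit false

namespace Pool.Agent.Helper19.S12

open Finset Filter Topology Pool.Agent.Helper69.RK Pool.Agent.Helper31.EC Pool.Agent.Helper31.EC.Sp
open Pool.Agent.Helper60.CS Pool.Agent.Helper68.ST2

noncomputable section

namespace Wov

variable {Q : Sp} {L : Ln Q} {ξ : TR Q} {u : ℝ} {V V' : ∀ k, Setoid (Q.F k).Ω} {c r c' r' : ℝ}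
  (W : Wn Q L ξ u V c r) (W' : Wn Q L ξ u V' c' r') (e : ℝ) (he : 0 < e)

include W' in
theorem t_bot {v : ℝ} (hv : v ≤ c') : chgL V' e he (TR.dg L.t v) = ⊥ := by
  rw [← W'.mτ.sub_dg (f := L.t) e he v, W'.bt.dg W'.hK hv]
  exact chgL_bot V' e he

include W' in
theorem x_bot {v : ℝ} (hv : v ≤ u) : chgL V' e he (TR.dg L.x v) = ⊥ := by
  rw [← W'.mξ.sub_dg (f := L.x) e he v, W'.bx.dg W'.hK hv]
  exact chgL_bot V' e he

variable (hV : ∀ k, V' k ≤ V k)

include W' hV in
theorem T_bot {v : ℝ} (hv : c + v ≤ c') : chgL V' e he (TR.dg W.T v) = ⊥ := by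
  rw [W.T_up hV e he v]
  exact t_bot W' e he hv

include hV in
/-- the base point of the coarse window in the fine window -/
theorem Y_eq (v : ℝ) : chgL V' e he (TR.dg W.Y v) = chgL V' e he (TR.dg W'.Y (c + v - c')) := by
  have e1 : L.P - W.φ - ξ * (L.t - W.τ) =
      (L.P - W'.φ - ξ * (L.t - W'.τ)) - (W.φ - W'.φ - ξ * (W.τ - W'.τ)) :=
    tr_ext fun k ω => by simp only [TR.ev_sub, TR.ev_mul]; ring
  have hm : Mz V' (W.φ - W'.φ - ξ * (W.τ - W'.τ)) :=
    ((W.mφ.mono hV).sub W'.mφ).sub (W'.mξ.mul ((W.mτ.mono hV).sub W'.mτ))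
  rw [W.Y_dg, W'.Y_dg, e1, hm.sub_dg]
  congr 2
  ring

include W' hV in
theorem Y_bot {v : ℝ} (hv : c + v ≤ c') : chgL V' e he (TR.dg W.Y v) = ⊥ := by
  rw [Y_eq W W' e he hV v, Pool.Agent.Helper47.T4.dg_nonpos _ (by linarith)]
  exact chgL_bot V' e he

include W' hV in
/-- HULL: the top coordinate of the coarse window is known from the base point, up to the depth of the sheet of the
fine window -/
theorem Z_hull {v : ℝ} (hv : r + v ≤ r') {A : (Q.chg V' e he).L} (hA : chgL V' e he (TR.dg L.t (r + v)) ≤ A)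
    (hB : chgL V' e he (TR.dg L.P (r + v)) ≤ A) : chgL V' e he (TR.dg W.Z v) ≤ A := by
  have e1 : r' + (r + v - r') = r + v := by ring
  have h1 := W.Z_up hV e he v hA hB
  have h2 := W'.Z_up (fun k => le_refl (V' k)) e he (r + v - r') (A := A) (by rw [e1]; exact hA) (by rw [e1]; exact hB)
  rw [Pool.Agent.Helper47.T4.dg_nonpos W'.Z (show r + v - r' ≤ 0 by linarith), chgL_bot, bot_sup_eq, e1] at h2
  have h3 : chgL V' e he (TR.dg W.Z v) ≤ chgL V' e he (TR.dg W.Z v) ⊔ A := le_sup_left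
  rw [h1, ← h2] at h3
  exact h3

end Wov

end

end Pool.Agent.Helper19.S12
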