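import Pool.Agent.Helper19.S12.Fbk
import Pool.Agent.Helper68.ST2.Gam

/-! PRODUCTION of the informations over the windows from a corner `Crn` and a box `Bw`. -/

set_option autoImplicit false

namespace Pool.Agent.Helper19.S12

open Finset Filter Topology Set Pool.Agent.Helper69.RK Pool.Agent.Helper31.EC Pool.Agent.Helper31.EC.Sp
open Pool.Agent.Helper40.EL Pool.Agent.Helper42.NS Pool.Agent.Helper52.KP Pool.Agent.Helper52.SL
open Pool.Agent.Helper91.GR Pool.Agent.Helper80.HCI Pool.Agent.Helper60.CS Pool.Agent.Helper68.ST2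
open Pool.Agent.Helper98.FR (famPj T_eq)
open Pool.Agent.Helper3.ZM (h_kap)

noncomputable section

/-- the digits `P_i(r), P_j(1), T` as a list of the standard family -/
theorem L_PPT {S : Sp} {m : ℕ} (s : Sys S m) (i j : Fin m) (r : ℝ) :
    (digl (Fst m) [(Sum.inr (Sum.inl i), r), (Sum.inr (Sum.inl j), 1), (Sum.inl 1, 1)]).L s =
      Pd s i r ⊔ (Pd s j 1 ⊔ s.T) := by
  rw [digl_cons, digl_cons]
  have a1 := L_T s 1
  have a2 : ((Fst m (Sum.inr (Sum.inl i))).2.vv s).dg r = Pd s i r := by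
    have h1 := L_Pj s i r
    rw [digl_one] at h1
    exact h1
  have a3 : ((Fst m (Sum.inr (Sum.inl j))).2.vv s).dg 1 = Pd s j 1 := by
    have h1 := L_Pj s j 1
    rw [digl_one] at h1
    exact h1
  show ((Fst m (Sum.inr (Sum.inl i))).2.vv s).dg r ⊔ (((Fst m (Sum.inr (Sum.inl j))).2.vv s).dg 1 ⊔
    (digl (Fst m) [(Sum.inl 1, 1)]).L s) = _
  rw [a1, a2, a3]
  rfl

section

variable {S : Sp} {s : Sys S 2} {i j : Fin 2} {c w b : ℝ}

namespace Crn

variable (K : Crn s i j c w b)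

include K

/-- the base is full over every window -/
theorem full {c' : ℝ} (h0 : 0 ≤ c') (h1 : c' < 1) : Bf.Full s j (la s j {0} 0) c' :=
  fun _ hl => Pj_full K.rob.d K.con j h0 h1 hl

/-- RICHNESS: the direction has digits beyond the level `u` on all events of all extensions over maximal labels -/
theorem rich {c' : ℝ} {l : Lab S} (hl : IsKap s c' l) {r : ℝ} (hr : la s j {0} 0 < r) {e : ℝ} (he : 0 < e) {T : Sp}
    (p : Pj T (l.ovr e he)) (E : ∀ k, (T.F k).Ω → Prop) (hE : 0 < ul (T.pr E)) :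
    restL E hE (p.map (l.upL e he (TR.dg (TR.cor s.x j) r))) ≠ ⊥ := by
  -- it suffices to treat levels at most one
  have key : ∀ r' : ℝ, la s j {0} 0 < r' → r' ≤ 1 →
      restL E hE (p.map (l.upL e he (TR.dg (TR.cor s.x j) r'))) ≠ ⊥ := by
    intro r' h1 h2 h3
    have h4 := rob_ovr K.rob.d hl he p E hE [(Sum.inr (Sum.inr j), r')] []
    rw [L_Xj, h3, digl_nil] at h4
    have h5 : h (⊥ : (T.rest E).L) (restL E hE (p.map (l.upL e he (⊥ : S.L)))) = 0 := h_zero bot_le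
    rw [h5] at h4
    have e2 : up1 l (⊥ : S.L) = ⊥ := l.upL_bot 1 one_pos
    rw [e2, h_bot] at h4
    have h6 : H (up1 l (TR.dg (TR.cor s.x j) r')) = 0 := by
      have h7 := h4.symm
      rcases div_eq_zero_iff.mp h7 with h8 | h8
      · exact h8
      · exact absurd h8 he.ne'
    have h7 : up1 l (TR.dg (TR.cor s.x j) r') = ⊥ := by
      apply le_antisymm _ bot_le
      rw [← h_eq_zero_iff, h_bot]
      exact h6
    have h8 := H_zero_of_up1 K.con hl.dm (((TR.cor_dg_le s.x j r').trans (s.x.dg_mono h2)).trans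
      (s.x_le_xi le_rfl)) h7
    have h9 := H_x_pos (s := s) (i := j) h1 h2
    linarith
  have hu1 : la s j {0} 0 < 1 := by
    have h1 := K.cu_lt
    have h2 := K.c_pos
    linarith
  rcases le_or_gt r 1 with h | h
  · exact key r hr h
  · intro h3
    apply key 1 hu1 le_rfl
    apply le_antisymm _ bot_le
    rw [← h3]
    exact restL_mono E hE (p.map_mono (l.upL_mono e he (TR.dg_mono _ h.le)))

/-- (R1) between two windows near `c` -/
theorem r1w {A ea : ℝ} (hA : 0 ≤ A) (hea : 0 < ea) : ∃ E0 : ℝ, 0 < E0 ∧ ∀ E, 0 < E → E ≤ E0 → ∀ c1 c2 v : ℝ,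
    c - A * E ≤ c1 → c1 ≤ c2 → c2 ≤ c + A * E → v ≤ A * E → ∀ l1 l2 : Lab S, IsKap s c1 l1 → IsKap s c2 l2 →
    H (up1 l1 (TR.dg (TR.cor s.x j) (la s j {0} 0 + v))) - H (up1 l2 (TR.dg (TR.cor s.x j) (la s j {0} 0 + v))) ≤
      ea * E := by
  obtain ⟨E0, hE0, h1⟩ := K.F3 hA hea
  refine ⟨E0, hE0, fun E hE hEE c1 c2 v a1 a2 a3 a4 l1 l2 k1 k2 => ?_⟩
  have h2 := h1 E hE hEE
  have h3 := Jy_incr (s := s) (Y := TR.dg (TR.cor s.x j) (la s j {0} 0 + v))
    (Y' := TR.dg (TR.cor s.x j) (la s j {0} 0 + A * E)) (TR.dg_mono _ (by linarith)) a2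
  have h4 := Jy_mono (s := s) (TR.dg (TR.cor s.x j) (la s j {0} 0 + A * E)) a1
  have h5 := Jy_mono (s := s) (TR.dg (TR.cor s.x j) (la s j {0} 0 + A * E)) a3
  rw [k1.H_eq (kap_isKap s c1), k2.H_eq (kap_isKap s c2)]
  unfold Jy at h3 h4 h5
  linarith

/-- (D) on events of extensions over the window `c` -/
theorem unw {ea : ℝ} (hea : 0 < ea) : ∃ E0 : ℝ, 0 < E0 ∧ ∀ e (he : 0 < e), e ≤ E0 → ∀ l : Lab S, IsKap s c l →
    ∀ (T : Sp) (p : Pj T (l.ovr e he)) (E : ∀ k, (T.F k).Ω → Prop) (hE : 0 < ul (T.pr E)) (x y : ℝ),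
    0 ≤ x → x ≤ y → y ≤ 1 →
    h (restL E hE (p.map (l.upL e he (Pd s i (la s i {0, j.succ} c + e * y)))))
      (restL E hE (p.map (l.upL e he (Pd s i (la s i {0, j.succ} c + e * x) ⊔ (Pd s j 1 ⊔ s.T))))) ≤
      (1 - (2 - b)) * (y - x) + ea := by
  obtain ⟨E0, hE0, h1⟩ := K.F5 zero_le_one hea
  refine ⟨E0, hE0, fun e he hee l hl T p E hE x y hx hxy hy => ?_⟩
  set η := la s i {0, j.succ} c with hη
  have h2 := rob_ovr K.rob.d hl he p E hE [(Sum.inr (Sum.inl i), η + e * y)]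
    [(Sum.inr (Sum.inl i), η + e * x), (Sum.inr (Sum.inl j), 1), (Sum.inl 1, 1)]
  rw [L_Pj, L_PPT] at h2
  have e1 : Pd s i (η + e * y) = TR.dg (TR.cor s.P i) (η + e * y) := rfl
  rw [e1, h2, div_le_iff₀ he]
  have hex : 0 ≤ e * x := mul_nonneg he.le hx
  have hexy : e * x ≤ e * y := mul_le_mul_of_nonneg_left hxy he.le
  have hey : e * y ≤ e * 1 := mul_le_mul_of_nonneg_left hy he.le
  have h3 := h1 e he hee c le_rfl (η + e * x) (η + e * y) (by linarith) (by linarith) (by linarith)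
  have h4 := h_kap hl (kap_isKap s c) (Pd s i (η + e * y)) (Pd s i (η + e * x) ⊔ (Pd s j 1 ⊔ s.T))
  have h5 : h (up1 l (TR.dg (TR.cor s.P i) (η + e * y))) (up1 l (Pd s i (η + e * x) ⊔ (Pd s j 1 ⊔ s.T))) =
      h (up1 l (Pd s i (η + e * y))) (up1 l (Pd s i (η + e * x) ⊔ (Pd s j 1 ⊔ s.T))) := rfl
  rw [h5, h4, up1_sup, up1_sup, ← sup_assoc]
  refine h3.trans (le_of_eq ?_)
  ring

/-- RICHNESS in the form used for the slopes -/
theorem richB {u : ℝ} {cs rs : ℕ → ℝ} (B : Bw s i j u cs rs) (hu : la s j {0} 0 ≤ u) (n : ℕ) :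
    Rich (Q := B.M.sp) (fun k => (B.M k).V n) (lnOf s i j (famPj B.M)).x u := by
  intro r hr E hE
  have h1 := K.rich (B.kap n) (r := r) (by linarith) one_pos (T := (B.M.lab n).ovr 1 one_pos) (Pj.id _) E hE
  have h2 : TR.dg (lnOf s i j (famPj B.M)).x r = (famPj B.M).map (TR.dg (TR.cor s.x j) r) := Bf.dgx B r
  rw [h2]
  intro h3
  apply h1
  rw [Pj.id_map]
  exact h3

end Crn

end

end

end Pool.Agent.Helper19.S12
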