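import Pool.Agent.Helper19.S12.Frm
import Pool.Agent.Helper68.ST2.Sj

/-! EXISTENCE OF BOXES: literally nested families of maximal labels of countably many windows, with literal frames of
the base line and of the sheet. -/

set_option autoImplicit false

namespace Pool.Agent.Helper19.S12

open Finset Filter Topology Pool.Agent.Helper69.RK Pool.Agent.Helper31.EC Pool.Agent.Helper31.EC.Sp
open Pool.Agent.Helper40.EL Pool.Agent.Helper42.NS Pool.Agent.Helper52.KP Pool.Agent.Helper52.SL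
open Pool.Agent.Helper91.GR Pool.Agent.Helper68.ST2
open Pool.Agent.Helper98.FR (plT Dom Knw lW lW_dom lW_knw lW_kap join_kap Sht_dom exists_nested' famPj Lt_fl)
open Pool.Agent.Helper3.LF (pl pl_zero pl_succ sp_dl sp_Sub)

noncomputable section

variable {S : Sp} {m : ℕ} {s : Sys S m}

/-- one coordinate as a vector -/
def v1 (f : TR S) : S.VV 1 := TR.vec (fun _ : Fin 1 => f)

/-- A WINDOW from a label which knows the cells of the height and of the direction of the base, the line of the base and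
the sheet -/
theorem exists_wn {i j : Fin m} {c r u : ℝ} (h0 : 0 ≤ c) (hc : c < 1) (hu : 0 ≤ u) (hcr : c + u ≤ r) (hr : r ≤ 1)
    {l : Lab S} (hl : DMc s c l) {v v' : ∀ k, (l k).T.Ω → Cf (m + 1)} (hv : Sht s i {0, j.succ} r l v)
    (hv' : Sht s j {0} (c + u) l v') (ht : Knw l (fun k ω => s.t.cellv c k ω))
    (hx : Knw l (fun k ω => (v1 (TR.cor s.x j)).cellv u k ω)) :
    Nonempty (Wn l.sp (lnOf s i j l.pj) (TR.cor ((l.pj.vv (v1 (TR.cor s.x j))).fl u hu) 0) u l.V c r) := by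
  obtain ⟨f0, f, K1, hK1, mf0, mf, hF, hF'⟩ := frame_sl h0 hc (by linarith) hr hl hv
  obtain ⟨w0, w, K2, hK2, mw0, mw, hW, hW'⟩ := frame_sl h0 hc (by linarith) (hcr.trans hr) hl hv'
  set ξ : TR l.sp := TR.cor ((l.pj.vv (v1 (TR.cor s.x j))).fl u hu) 0 with hξ
  set τ : TR l.sp := TR.cor ((l.pj.vv s.t).fl c h0) 0 with hτ
  have mξ : Mz (Q := l.sp) l.V ξ := Mz_of_Lt (Lt_fl hu hx 0)
  have mτ : Mz (Q := l.sp) l.V τ := Mz_of_Lt (Lt_fl h0 ht 0)
  set L : Ln l.sp := lnOf s i j l.pj with hL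
  have hj : (0 : Fin (m + 1)) ≠ j.succ := (Fin.succ_ne_zero j).symm
  have bt : Sm (Q := l.sp) (fun _ => 1) c (L.t - τ) := fl_sm (l.pj.vv s.t) h0 0
  have bx : Sm (Q := l.sp) (fun _ => 1) u (L.x - ξ) := fl_sm (l.pj.vv (v1 (TR.cor s.x j))) hu 0
  have one : l.sp.Sub (fun _ => 1) := l.sp.Sub_const zero_le_one
  -- the line of the base
  have ba : Sm (Q := l.sp) (fun k => K2 k + 1 * K2 k) (c + u) (L.a + τ * L.x - (w0 + w 0 * τ)) := by
    refine Sm.centre one hW hW' bt (tr_ext fun k ω => ?_)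
    have e1 : TR.ev (∑ j ∈ ({0} : Finset (Fin (m + 1))), w j * plT (s.pull l.pj) j) k ω =
        TR.ev (w 0) k ω * TR.ev L.t k ω := by
      rw [Finset.sum_singleton]
      rfl
    have e2 : TR.ev (∑ j ∈ ({0} : Finset (Fin (m + 1))), w j * vlT (s.pull l.pj) j) k ω = TR.ev (w 0) k ω * 1 := by
      rw [Finset.sum_singleton]
      rfl
    have e3 : TR.ev (TR.cor (s.pull l.pj).P j) k ω = TR.ev L.a k ω + TR.ev L.t k ω * TR.ev L.x k ω := rfl
    have e4 : TR.ev (TR.cor (s.pull l.pj).x j) k ω = TR.ev L.x k ω := rfl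
    simp only [TR.ev_sub, TR.ev_add, TR.ev_mul]
    rw [e1, e2, e3, e4]
    ring
  -- the sheet
  have e5 : ∀ k ω, TR.ev (∑ j' ∈ ({0, j.succ} : Finset (Fin (m + 1))), f j' * vlT (s.pull l.pj) j') k ω =
      TR.ev (f 0) k ω + TR.ev (f j.succ) k ω * TR.ev L.x k ω := by
    intro k ω
    rw [Finset.sum_pair hj]
    show TR.ev (f 0) k ω * 1 + TR.ev (f j.succ) k ω * TR.ev L.x k ω = _
    rw [mul_one]
  have e6 : ∀ k ω, TR.ev (∑ j' ∈ ({0, j.succ} : Finset (Fin (m + 1))), f j' * plT (s.pull l.pj) j') k ω =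
      TR.ev (f 0) k ω * TR.ev L.t k ω + TR.ev (f j.succ) k ω * (TR.ev L.a k ω + TR.ev L.t k ω * TR.ev L.x k ω) := by
    intro k ω
    rw [Finset.sum_pair hj]
    rfl
  have b1 : Sm (Q := l.sp) K1 (r - c) (L.y - f 0 - f j.succ * L.x) := by
    have e : L.y - f 0 - f j.succ * L.x = TR.cor (s.pull l.pj).x i -
        ∑ j' ∈ ({0, j.succ} : Finset (Fin (m + 1))), f j' * vlT (s.pull l.pj) j' := by
      refine tr_ext fun k ω => ?_
      simp only [TR.ev_sub, TR.ev_mul]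
      rw [e5]
      have e4 : TR.ev (TR.cor (s.pull l.pj).x i) k ω = TR.ev L.y k ω := rfl
      rw [e4]
      ring
    rw [e]
    exact hF'
  have b0 : Sm (Q := l.sp) (fun k => K1 k + 1 * K1 k) r
      (L.b + τ * L.y - f0 - f 0 * τ - f j.succ * (L.a + τ * L.x)) := by
    refine Sm.centre one hF hF' bt (tr_ext fun k ω => ?_)
    have e3 : TR.ev (TR.cor (s.pull l.pj).P i) k ω = TR.ev L.b k ω + TR.ev L.t k ω * TR.ev L.y k ω := rfl
    have e4 : TR.ev (TR.cor (s.pull l.pj).x i) k ω = TR.ev L.y k ω := rfl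
    simp only [TR.ev_sub, TR.ev_add, TR.ev_mul]
    rw [e5, e6, e3, e4]
    ring
  refine ⟨{ hc := h0, hu := hu, hcr := hcr, τ := τ, φ := w0 + w 0 * τ, α := f0, β := f 0, γ := f j.succ
            K := fun k => 1 + ((K2 k + 1 * K2 k) + (K1 k + 1 * K1 k))
            hK := one.add ((hK2.add (one.mul hK2)).add (hK1.add (one.mul hK1)))
            mξ := mξ, mτ := mτ, mφ := mw0.add ((mw 0).mul mτ), mα := mf0, mβ := mf 0, mγ := mf j.succ
            bt := ?_, bx := ?_, ba := ?_, b0 := ?_, b1 := ?_ }⟩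
  · refine bt.mono one le_rfl ?_
    filter_upwards [hK1.1, hK2.1] with k a b
    linarith
  · refine bx.mono one le_rfl ?_
    filter_upwards [hK1.1, hK2.1] with k a b
    linarith
  · refine ba.mono (hK2.add (one.mul hK2)) le_rfl ?_
    filter_upwards [hK1.1, hK2.1] with k a b
    linarith
  · refine b0.mono (hK1.add (one.mul hK1)) le_rfl ?_
    filter_upwards [hK1.1, hK2.1] with k a b
    linarith
  · refine b1.mono hK1 le_rfl ?_
    filter_upwards [hK1.1, hK2.1] with k a b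
    linarith

/-- the line of the base is known to the depth `c + u` -/
theorem HH_base {j : Fin m} {u c : ℝ} (hu : 0 ≤ u) (hx : H (TR.dg (TR.cor s.x j) u) = 0) (h0 : 0 ≤ c) (hcu : c + u ≤ 1) :
    HH (SJ j {0}) s c (c + u) := by
  have h1 : HH (SJ j {0}) s 0 u := HH_of_H_zero hu (by linarith) hx 0
  have h2 := le_la h1
  have h3 := la_speed (s := s) (i := j) (J := {0}) le_rfl h0 (by linarith : c ≤ 1)
  rw [sub_zero] at h3
  rw [HH_iff_la]
  refine le_trans (le_min hcu ?_) h3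
  linarith

/-- **EXISTENCE OF BOXES** -/
theorem exists_Bw (s : Sys S m) (i j : Fin m) {u : ℝ} (hu : 0 ≤ u) (hx : H (TR.dg (TR.cor s.x j) u) = 0)
    (cs rs : ℕ → ℝ) (c0 : ∀ n, 0 ≤ cs n) (c1 : ∀ n, cs n < 1) (hcr : ∀ n, cs n + u ≤ rs n) (r1 : ∀ n, rs n ≤ 1)
    (hH : ∀ n, HH (SJ i {0, j.succ}) s (cs n) (rs n)) : Nonempty (Bw s i j u cs rs) := by
  classical
  have hR : ∀ n, ∃ (l : Lab S) (v : ∀ k, (l k).T.Ω → Cf (m + 1)), DMc s (cs n) l ∧ Sht s i {0, j.succ} (rs n) l v :=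
    fun n => by
      obtain ⟨l, v, h1, h2⟩ := Sht_of_HH (hH n)
      exact ⟨l, v, h1, h2⟩
  have hA : ∀ n, ∃ (l : Lab S) (v : ∀ k, (l k).T.Ω → Cf (m + 1)), DMc s (cs n) l ∧ Sht s j {0} (cs n + u) l v :=
    fun n => by
      obtain ⟨l, v, h1, h2⟩ := Sht_of_HH (HH_base hu hx (c0 n) ((hcr n).trans (r1 n)))
      exact ⟨l, v, h1, h2⟩
  choose lR vR dR sR using hR
  choose lA' vA dA sA using hA
  set W : ∀ n k, (S.F k).Ω → (Fin 1 → ℤ) × (Fin 1 → ℤ) :=
    fun n k ω => (s.t.cellv (cs n) k ω, (v1 (TR.cor s.x j)).cellv u k ω) with hW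
  have bW : ∀ n, Bdd (S := S) (W n) := fun n => (s.t.bdd (cs n)).pair ((v1 (TR.cor s.x j)).bdd u)
  have iW : ∀ n, io (W n) = s.t.dg (cs n) := fun n => by
    have h1 := io_pair (s.t.bdd (cs n)) ((v1 (TR.cor s.x j)).bdd u)
    have h2 : io (fun k ω => (v1 (TR.cor s.x j)).cellv u k ω) = ⊥ := by
      have h3 : TR.dg (TR.cor s.x j) u ≤ ⊥ := by
        rw [← h_eq_zero_iff, h_bot]
        exact hx
      exact le_bot_iff.mp h3
    rw [h2, sup_bot_eq] at h1
    have h4 : io (fun k ω => s.t.cellv (cs n) k ω) = s.t.dg (cs n) := rfl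
    exact h1.trans h4
  set κ1 : ℕ → Lab S := fun n k => (kap s (cs n) k).join (lR n k) with h1
  set κ2 : ℕ → Lab S := fun n k => (κ1 n k).join (lA' n k) with h2
  set κ : ℕ → Lab S := fun n => lW (κ2 n) (W n) with h4
  have k1 : ∀ n, IsKap s (cs n) (κ1 n) := fun n => join_kap (kap_isKap s (cs n)) (dR n)
  have k2 : ∀ n, IsKap s (cs n) (κ2 n) := fun n => join_kap (k1 n) (dA n)
  have k4 : ∀ n, IsKap s (cs n) (κ n) := fun n => lW_kap (bW n) (by rw [iW]; exact le_sup_right)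
    (by rw [iW]; exact t_le_B s (c1 n).le) (k2 n)
  obtain ⟨M, hM, hn, hd⟩ := exists_nested' cs (fun n => cA s (cs n)) (cB s) (fun n n' hij => by
      rw [cA_eq, cA_eq, PLe_rpI, cl_A, cl_A]
      exact sup_le_sup_left (s.t.dg_mono hij) _) (fun n => cA_Bd s (cs n)) κ k4
  have d2 : ∀ n, Dom (M.lab n) (κ2 n) := fun n => (hd n).trans (lW_dom _ _)
  have dA' : ∀ n, Dom (M.lab n) (lA' n) := fun n => (d2 n).trans (Dom.right _ _)
  have dR' : ∀ n, Dom (M.lab n) (lR n) := fun n => ((d2 n).trans (Dom.left _ _)).trans (Dom.right _ _)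
  have kn : ∀ n, Knw (M.lab n) (W n) := fun n => (lW_knw _ _).dom (hd n)
  have key : ∀ n, Nonempty (Wn M.sp (lnOf s i j (famPj M)) (TR.cor (((famPj M).vv (v1 (TR.cor s.x j))).fl u hu) 0) u
      (fun k => (M k).V n) (cs n) (rs n)) := fun n => by
    obtain ⟨v, hv⟩ := Sht_dom (sR n) (dR' n)
    obtain ⟨v', hv'⟩ := Sht_dom (sA n) (dA' n)
    exact exists_wn (l := M.lab n) (c0 n) (c1 n) hu (hcr n) (r1 n) (hM n).1 hv hv' ((kn n).comp (fun _ w => w.1))
      ((kn n).comp (fun _ w => w.2))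
  exact ⟨{ M := M, ξ := _, W := fun n => Classical.choice (key n), kap := hM, nest := hn }⟩

end

end Pool.Agent.Helper19.S12
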