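import Pool.Agent.Helper19.S12.Dep
import Pool.Agent.Helper42.NS.Obp
import Pool.Agent.Helper80.HCI.Ov
import Pool.Agent.Helper35.S1.Sy
import Pool.Agent.Helper3.SG.Win

/-! Numbers over the labels `kappa_c` on events of extensions of the space over the label; FULLNESS of a coordinate over
the labels `kappa_c` of a connected system. -/

set_option autoImplicit false

namespace Pool.Agent.Helper19.S12

open Finset Filter Topology Pool.Agent.Helper69.RK Pool.Agent.Helper31.EC Pool.Agent.Helper31.EC.Sp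
open Pool.Agent.Helper40.EL Pool.Agent.Helper42.NS Pool.Agent.Helper52.KP Pool.Agent.Helper52.SL
open Pool.Agent.Helper91.GR Pool.Agent.Helper80.HCI
open Pool.Agent.Helper3.ZM (VV_ext h_kap)

noncomputable section

variable {S : Sp} {m : ℕ} {s : Sys S m}

/-- NUMBERS OVER `kappa_c` ON EVENTS OF EXTENSIONS of the space over the label -/
theorem rob_ovr {ι : Type} {F : DFam m ι} (hs : RobD F s) {c : ℝ} {l : Lab S} (hl : IsKap s c l) {e : ℝ} (he : 0 < e)
    {W : Sp} (p : Pj W (l.ovr e he)) (E : ∀ k, (W.F k).Ω → Prop) (hE : 0 < ul (W.pr E)) (y y' : List (ι × ℝ)) :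
    h (restL E hE (p.map (l.upL e he ((digl F y).L s)))) (restL E hE (p.map (l.upL e he ((digl F y').L s)))) =
      h (up1 l ((digl F y).L s)) (up1 l ((digl F y').L s)) / e := by
  have h1 := h_ovr l p E hE ((digl F y).inf s) ((digl F y').inf s)
  have h2 := exE_IsKap l p E hE s hl
  have e1 : ∀ y : List (ι × ℝ), Sp.cl (Sp.imI (exl l p).pj E ((digl F y).inf s)) = (digl F y).L (sysE l p E hE s) :=
    fun y => rfl
  rw [e1, e1] at h1
  have h3 := h_kap h2 (kap_isKap (sysE l p E hE s) c) ((digl F y).L (sysE l p E hE s)) ((digl F y').L (sysE l p E hE s))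
  have h4 := hs.h_eq y y' c (exl l p).pj E hE
  have h5 := h_kap hl (kap_isKap s c) ((digl F y).L s) ((digl F y').L s)
  rw [h5, ← h4, ← h3]
  exact h1

/-! ### the standard family -/

/-- the row of a coordinate -/
def rwm (j : Fin m) : Matrix (Fin 1) (Fin m) ℝ := fun _ i => if i = j then 1 else 0

/-- names -/
abbrev Nm (m : ℕ) : Type := Fin 4 ⊕ (Fin m ⊕ Fin m)

/-- points, heights, directions, positions, coordinates of the points and of the directions -/
def Fst (m : ℕ) : DFam m (Nm m)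
  | Sum.inl 0 => ⟨m, TFn.P⟩
  | Sum.inl 1 => ⟨1, TFn.T⟩
  | Sum.inl 2 => ⟨m, TFn.X⟩
  | Sum.inl 3 => ⟨m, TFn.A⟩
  | Sum.inr (Sum.inl j) => ⟨1, TFn.lin (rwm j) TFn.P⟩
  | Sum.inr (Sum.inr j) => ⟨1, TFn.lin (rwm j) TFn.X⟩

theorem vv_Pj (s : Sys S m) (j : Fin m) : (TFn.lin (rwm j) TFn.P).vv s = TR.vec (fun _ : Fin 1 => TR.cor s.P j) := by
  apply VV_ext
  funext k ω i
  show ∑ i', rwm j i i' * (s.a.v k ω i' + s.t.v k ω 0 * s.x.v k ω i') = s.a.v k ω j + s.t.v k ω 0 * s.x.v k ω j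
  unfold rwm
  simp

theorem vv_Xj (s : Sys S m) (j : Fin m) : (TFn.lin (rwm j) TFn.X).vv s = TR.vec (fun _ : Fin 1 => TR.cor s.x j) := by
  apply VV_ext
  funext k ω i
  show ∑ i', rwm j i i' * s.x.v k ω i' = s.x.v k ω j
  unfold rwm
  simp

theorem L_P (s : Sys S m) (r : ℝ) : (digl (Fst m) [(Sum.inl 0, r)]).L s = s.P.dg r := by
  rw [digl_one]
  rfl

theorem L_T (s : Sys S m) (r : ℝ) : (digl (Fst m) [(Sum.inl 1, r)]).L s = s.t.dg r := by
  rw [digl_one]
  rfl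

theorem L_X (s : Sys S m) (r : ℝ) : (digl (Fst m) [(Sum.inl 2, r)]).L s = s.x.dg r := by
  rw [digl_one]
  rfl

theorem L_A (s : Sys S m) (r : ℝ) : (digl (Fst m) [(Sum.inl 3, r)]).L s = s.a.dg r := by
  rw [digl_one]
  rfl

theorem L_Pj (s : Sys S m) (j : Fin m) (r : ℝ) :
    (digl (Fst m) [(Sum.inr (Sum.inl j), r)]).L s = TR.dg (TR.cor s.P j) r := by
  rw [digl_one]
  show ((TFn.lin (rwm j) TFn.P).vv s).dg r = _
  rw [vv_Pj]
  rfl

theorem L_Xj (s : Sys S m) (j : Fin m) (r : ℝ) :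
    (digl (Fst m) [(Sum.inr (Sum.inr j), r)]).L s = TR.dg (TR.cor s.x j) r := by
  rw [digl_one]
  show ((TFn.lin (rwm j) TFn.X).vv s).dg r = _
  rw [vv_Xj]
  rfl

/-! ### the coordinate as a system -/

/-- the coordinate `j` of a system -/
def cj (s : Sys S m) (j : Fin m) : Sys S 1 := prB (rwm j) s

theorem Fac_cj (s : Sys S m) (j : Fin m) : Pool.Agent.Helper3.SG.Fac s (cj s j) := Pool.Agent.Helper3.SG.Fac.pr s _ _ _ _

theorem cj_x (s : Sys S m) (j : Fin m) : (cj s j).x = TR.vec (fun _ : Fin 1 => TR.cor s.x j) := by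
  apply VV_ext
  funext k ω i
  show ∑ i', rwm j i i' * s.x.v k ω i' = s.x.v k ω j
  unfold rwm
  simp

theorem cj_a (s : Sys S m) (j : Fin m) : (cj s j).a = TR.vec (fun _ : Fin 1 => TR.cor s.a j) := by
  apply VV_ext
  funext k ω i
  show ∑ i', rwm j i i' * s.a.v k ω i' = s.a.v k ω j
  unfold rwm
  simp

theorem cj_P (s : Sys S m) (j : Fin m) : (cj s j).P = TR.vec (fun _ : Fin 1 => TR.cor s.P j) := by
  apply VV_ext
  funext k ω i
  show (∑ i', rwm j i i' * s.a.v k ω i') + s.t.v k ω 0 * (∑ i', rwm j i i' * s.x.v k ω i') =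
    s.a.v k ω j + s.t.v k ω 0 * s.x.v k ω j
  unfold rwm
  simp

theorem cj_x_dg (s : Sys S m) (j : Fin m) (r : ℝ) : (cj s j).x.dg r = TR.dg (TR.cor s.x j) r := by
  rw [cj_x]
  rfl

theorem cj_P_dg (s : Sys S m) (j : Fin m) (r : ℝ) : (cj s j).P.dg r = TR.dg (TR.cor s.P j) r := by
  rw [cj_P]
  rfl

theorem cj_T (s : Sys S m) (j : Fin m) : (cj s j).T = s.T := rfl

section zoom

variable {q : ℕ} {g : Sys S m} {f : Sys S q} (Z : Pool.Agent.Helper3.SG.ZF g f)

/-- zooms over maximal labels are connected -/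
theorem ic_zoom (hk : IsKap g Z.c Z.l) : Helper40.EL.ic Z.sys 0 = 0 := by
  have h1 := kap_isKap Z.sys 0
  have h2 := DMc_iff.mp h1.dm
  have h3 : (kap Z.sys 0).DML (Z.U (lA g Z.c)) (Z.U (lB g)) := by
    refine h2.mono (Z.lA_le.trans (Z.U_mono (Z.fac.A Z.c))) ?_
    rw [Z.lB_eq]
    exact Z.U_mono Z.fac.B
  have h4 := Lab.IsMaxL.triv (IsKap_iff.mp hk) (kap Z.sys 0) h3
  have h5 : (0 : ℝ) = Helper40.EL.ic Z.sys 0 + 0 := h4.symm.trans h1.info_eq
  linarith

end zoom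

end

end Pool.Agent.Helper19.S12
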