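import Pool.Agent.Helper19.S12.Ful
import Pool.Agent.Helper59.GR.Vol
import Pool.Agent.Helper52.SL.Sel

/-! SELECTION for `ST 1 2`: if the statement fails, there is a connected robust system without sheets of full depth at
the window zero, the levels near the top being typically deficient. -/

set_option autoImplicit false

namespace Pool.Agent.Helper19.S12

open Finset Filter Topology Set MeasureTheory Pool.Agent.Helper69.RK Pool.Agent.Helper31.EC Pool.Agent.Helper31.EC.Sp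
open Pool.Agent.Helper40.EL Pool.Agent.Helper42.NS Pool.Agent.Helper52.KP Pool.Agent.Helper52.SL
open Pool.Agent.Helper91.GR Pool.Agent.Helper80.HCI Pool.Agent.Helper3.PR
open scoped NNReal

noncomputable section

/-- the gauges: sheets and hypersurfaces -/
def GS (q : ℕ) : Gg 2 :=
  match (Encodable.decode q : Option ((Fin 2 × Finset (Fin 3)) ⊕ ℕ)) with
  | some (Sum.inl x) => SJ x.1 x.2
  | some (Sum.inr D) => GD 2 D
  | none => SJ 0 ∅

theorem GS_SJ (i : Fin 2) (J : Finset (Fin 3)) : GS (Encodable.encode (Sum.inl (i, J) : (Fin 2 × Finset (Fin 3)) ⊕ ℕ)) =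
    SJ i J := by
  unfold GS
  rw [Encodable.encodek]

theorem GS_GD (D : ℕ) : GS (Encodable.encode (Sum.inr D : (Fin 2 × Finset (Fin 3)) ⊕ ℕ)) = GD 2 D := by
  unfold GS
  rw [Encodable.encodek]

/-- robust systems -/
structure RobS {S : Sp} (s : Sys S 2) : Prop where
  g : RobustG GS s
  p : RobP s
  i : RobustI s
  d : RobD (Fst 2) s

theorem RobS.of_robA {S : Sp} {s : Sys S 2} (h : RobA GS (digN (Fst 2)) s) : RobS s :=
  ⟨h.g, h.p, h.i, robD_of_nat _ h.f⟩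

namespace RobS

variable {S : Sp} {s : Sys S 2}

theorem la_im (h : RobS s) (i : Fin 2) (J : Finset (Fin 3)) {T : Sp} (p : Pj T S) (E : ∀ k, (T.F k).Ω → Prop)
    (hE : 0 < ul (T.pr E)) (c : ℝ) : la (s.im p E hE) i J c = la s i J c :=
  Pool.Agent.Helper19.S12.la_im h.g (GS_SJ i J) p E hE c

theorem HH_im (h : RobS s) {i : Fin 2} {J : Finset (Fin 3)} {T : Sp} {p : Pj T S} {E : ∀ k, (T.F k).Ω → Prop}
    {hE : 0 < ul (T.pr E)} {c σ : ℝ} (hh : HH (SJ i J) (s.im p E hE) c σ) : HH (SJ i J) s c σ := by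
  rw [HH_iff_la, ← h.la_im i J p E hE c, ← HH_iff_la]
  exact hh

end RobS

section

variable {S : Sp} {m : ℕ} {s : Sys S m}

/-- the coordinates are known to the depth of the sheets `P_j = F(t)` -/
theorem H_Xj_la (hs : Helper40.EL.ic s 0 = 0) (j : Fin m) : H (TR.dg (TR.cor s.x j) (la s j {0} 0)) = 0 := by
  have h1 := H_zero_of_HH hs le_rfl zero_lt_one (HH_la (s := s) (i := j) (J := {0}) 0)
  rwa [sub_zero] at h1

end

section

variable {S : Sp} {s : Sys S 2} {i j : Fin 2}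

theorem fin2_cases (hij : i ≠ j) (k : Fin 2) : k = i ∨ k = j := by
  omega

theorem H_x_la (hs : Helper40.EL.ic s 0 = 0) (hij : i ≠ j) (hu : la s j {0} 0 ≤ la s i {0} 0) :
    H (s.x.dg (la s j {0} 0)) = 0 := by
  have h1 : s.x.dg (la s j {0} 0) ≤ ⊥ := by
    rw [TR.vv_dg_le_iff]
    intro k
    rcases fin2_cases hij k with h2 | h2
    · rw [h2]
      refine (TR.dg_mono _ hu).trans ?_
      rw [← h_eq_zero_iff, h_bot]
      exact H_Xj_la hs i
    · rw [h2, ← h_eq_zero_iff, h_bot]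
      exact H_Xj_la hs j
  rw [← h_eq_zero_iff, h_bot] at h1
  exact h1

/-- `P_i = F(t)` is a sheet `P_i = F(t, P_J)` -/
theorem HH_SJ_mono {m : ℕ} {s : Sys S m} {i : Fin m} {J J' : Finset (Fin (m + 1))} (hJ : J ⊆ J') {c σ : ℝ}
    (hσ0 : 0 ≤ σ) (h : HH (SJ i J) s c σ) : HH (SJ i J') s c σ := by
  have hσ := HH_le_one h
  obtain ⟨l, v, hl, hv⟩ := Sht_of_HH h
  obtain ⟨hm, K, hK, hs, ht⟩ := hv
  have key : ∀ (f : Cf (m + 1)) (p : Fin (m + 1) → ℝ),
      aff J' (f.1, fun j => if j ∈ J then f.2 j else 0) p = aff J f p := by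
    intro f p
    unfold aff
    congr 1
    rw [← Finset.sum_subset hJ (fun x _ hx => by
      show (if x ∈ J then f.2 x else 0) * p x = 0
      rw [if_neg hx, zero_mul])]
    refine Finset.sum_congr rfl fun x hx => ?_
    show (if x ∈ J then f.2 x else 0) * p x = _
    rw [if_pos hx]
  refine HH_of_Sht hσ0 hσ hl (v := fun k ω => ((v k ω).1, fun j => if j ∈ J then (v k ω).2 j else 0))
    ⟨fun k ω ω' a b hV hZ => ?_, K, hK, ?_, ?_⟩
  · have e := hm k ω ω' a b hV hZ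
    show ((v k ω).1, fun j => if j ∈ J then (v k ω).2 j else 0) = ((v k ω').1, fun j => if j ∈ J then (v k ω').2 j else 0)
    rw [e]
  · filter_upwards [hs, hK.1] with k hk hk0 ω hω j
    show |if j ∈ J then (v k ω).2 j else 0| ≤ K k
    split_ifs
    · exact hk ω hω j
    · rw [abs_zero]
      exact hk0
  · refine Typ.mono (S := l.sp) ht (Eventually.of_forall fun k ω _ g => ?_)
    have e : dfl s i J' l (fun k ω => ((v k ω).1, fun j => if j ∈ J then (v k ω).2 j else 0)) k ω = dfl s i J l v k ω := by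
      unfold dfl df
      rw [key]
    rw [e]
    exact g

theorem la_le_SJ {m : ℕ} {s : Sys S m} {i : Fin m} {J J' : Finset (Fin (m + 1))} (hJ : J ⊆ J') (c : ℝ) :
    la s i J c ≤ la s i J' c := le_la (HH_SJ_mono hJ (la_nonneg c) (HH_la c))

end

/-- lower bound of the point profile at the levels of truncation -/
theorem y_low {S : Sp} {m : ℕ} {s : Sys S m} {σ : ℝ} (h0 : 0 < σ) (h1 : σ ≤ 1) (hD : RobD (Fst m) (trn s σ h0 h1))
    (hs : Helper40.EL.ic s 0 = 0) (j : Fin m) : σ - la s j {0} 0 ≤ s.F 0 σ := by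
  have h2 := Pj_full hD (ic_trn_zero h0 h1 hs) j le_rfl zero_lt_one (kap_isKap (trn s σ h0 h1) 0)
  have h3 := h_up1_le (kap (trn s σ h0 h1) 0) (TR.dg (TR.cor (trn s σ h0 h1).P j) 1) (trn s σ h0 h1).T
  have h4 : h (TR.dg (TR.cor (trn s σ h0 h1).P j) 1) (trn s σ h0 h1).T ≤ (trn s σ h0 h1).F 0 1 := by
    rw [Sys.F_zero_left]
    exact h_mono (TR.cor_dg_le _ _ _)
  have h5 := F_trn s σ h0 h1 zero_le_one le_rfl (u := 0) (r := 1)
  rw [mul_zero, mul_one] at h5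
  have h6 := la_trn (s := s) (i := j) (J := {0}) (r := σ) (h0 := h0) (h1 := h1) 0
  rw [mul_zero] at h6
  rw [h5] at h4
  have h7 : 1 - la (trn s σ h0 h1) j {0} 0 ≤ s.F 0 σ / σ := by linarith
  rw [le_div_iff₀ h0] at h7
  nlinarith

/-- digits of coordinates in truncations -/
theorem trn_xj {S : Sp} {m : ℕ} (s : Sys S m) {r : ℝ} (h0 : 0 < r) (h1 : r ≤ 1) (i : Fin m) (w : ℝ) :
    TR.dg (TR.cor (trn s r h0 h1).x i) w = chgL S.tr r h0 (TR.dg (TR.cor s.x i) (r * w)) :=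
  VV.chg_dg S.tr r h0 (TR.vec fun _ : Fin 1 => TR.cor s.x i) w

theorem H_trn_xj {S : Sp} {m : ℕ} (s : Sys S m) {r : ℝ} (h0 : 0 < r) (h1 : r ≤ 1) (i : Fin m) (w : ℝ) :
    H (TR.dg (TR.cor (trn s r h0 h1).x i) w) = H (TR.dg (TR.cor s.x i) (r * w)) / r := by
  have e2 : ∀ x : S.L, hZ S.tr x = H x := by
    intro x
    induction x using cl_ind
    rw [hZ_cl, H_cl]
  rw [trn_xj, H_chgL, e2]

/-- **SELECTION OF THE SYSTEM** -/
theorem exists_top (hSJ : ∀ (S : Sp) (s : Sys S 2) (i j : Fin 2) (σ : ℝ), i ≠ j → HH (SJ i {0, j.succ}) s 0 σ →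
    Pool.Agent.Helper89.LX.Hf s 1 0 σ) (hST : ¬ Pool.Agent.Helper59.EV.ST 1 2) :
    ∃ (S : Sp) (s : Sys S 2) (i j : Fin 2) (b : ℝ), i ≠ j ∧ 1 ≤ b ∧ b < 2 ∧ RobS s ∧ Helper40.EL.ic s 0 = 0 ∧
      la s i {0, j.succ} 0 < 1 ∧ la s j {0} 0 ≤ la s i {0} 0 ∧
      Tendsto (fun δ : ℝ => volume (Ioo (1 - δ) 1 \ defic s b) / ENNReal.ofReal δ) (𝓝[>] 0) (𝓝 0) := by
  obtain ⟨d, hd, F0, i0, ψ0, φ0, C', hC', hv, hL⟩ := select_ST hST GS (digN (Fst 2)) 1 fun q S s => digN_le (Fst 2) q s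
  obtain ⟨S0, s0, hs0⟩ := hC'.ne
  -- the values of the class
  have hla : ∀ {S : Sp} {s : Sys S 2}, C' S s → ∀ (i : Fin 2) (J : Finset (Fin 3)) (c : ℝ),
      la s i J c = la s0 i J c := by
    intro S s hs i J c
    refine la_eq_of_psi (fun c σ => ?_) c
    rw [← GS_SJ i J]
    rw [(hv S s hs).2.1.g, (hv S0 s0 hs0).2.1.g]
  have hF : ∀ {S : Sp} {s : Sys S 2}, C' S s → ∀ r, 0 ≤ r → r ≤ 1 → s.F 0 r = F0 0 r := fun hs r a b =>
    (hv _ _ hs).2.1.F 0 r le_rfl zero_le_one a b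
  -- the choice of the coordinates
  obtain ⟨i, j, hij, hu⟩ : ∃ i j : Fin 2, i ≠ j ∧ la s0 j {0} 0 ≤ la s0 i {0} 0 := by
    rcases le_total (la s0 0 {0} 0) (la s0 1 {0} 0) with h | h
    · exact ⟨1, 0, by decide, h⟩
    · exact ⟨0, 1, by decide, h⟩
  set u := la s0 j {0} 0 with hu0
  set σ := la s0 i {0, j.succ} 0 with hσ
  have hσ1 : σ ≤ 1 := la_le_one 0
  have hu1 : 0 ≤ u := la_nonneg 0
  have huσ : u ≤ σ := hu.trans (la_le_SJ (by simp) 0)
  obtain ⟨⟨hic0, hF00⟩, hV0, hR0⟩ := hv S0 s0 hs0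
  -- the volume
  have hvol : 2 * (u + σ) ≤ lvol s0 1 0 := by
    have h1 := Pool.Agent.Helper59.GR.lvol_two_lower s0 (c := 0) le_rfl zero_lt_one
    have h2 : u ≤ Pool.Agent.Helper59.GR.lam s0 :=
      Pool.Agent.Helper59.GR.le_lam hu1 (la_le_one 0) (H_x_la hic0 hij hu)
    have h3 : σ ≤ Pool.Agent.Helper3.LF.eta s0 1 0 :=
      Pool.Agent.Helper3.LF.le_eta (hSJ S0 s0 i j σ hij (HH_la 0))
    have h4 : u ≤ min 1 (0 + Pool.Agent.Helper59.GR.lam s0) := by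
      apply le_min (la_le_one 0)
      linarith
    linarith
  have hdef : F0 0 1 ≤ 2 - d - (u + σ) := by
    have h1 := hF hs0 1 zero_le_one le_rfl
    rw [← h1]
    push_cast at hF00
    linarith
  -- the lower bound
  have hlow : σ - u ≤ F0 0 σ := by
    rcases (huσ.trans' hu1).lt_or_eq with h0 | h0
    · obtain ⟨F1, i1, ψ1, φ1, C'', hC'', hsub, h1⟩ := hL (fun _ => ⟨σ, h0, hσ1⟩)
      obtain ⟨S1, s1, hs1⟩ := hC''.ne
      have h2 := (h1 S1 s1 hs1 0).2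
      have h3 := y_low h0 hσ1 (RobS.of_robA h2).d (hv S1 s1 (hsub _ _ hs1)).1.1 j
      rw [hla (hsub _ _ hs1) j {0} 0, hF (hsub _ _ hs1) σ h0.le hσ1] at h3
      exact h3
    · have h1 := hF hs0 σ h0.le hσ1
      have h2 := s0.F_nonneg 0 σ
      rw [h1] at h2
      have : σ - u ≤ 0 := by rw [← h0]; linarith
      linarith
  -- the deficit
  have hσlt : σ < 1 := by
    rcases hσ1.lt_or_eq with h | h
    · exact h
    · exfalso
      rw [h] at hlow hdef
      linarith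
  set b : ℝ := 2 - d / 2 with hb
  have hy : LipschitzWith (2 : ℝ≥0) (s0.F 0) := y_lip s0
  have hincr : s0.F 0 1 - s0.F 0 σ < b * (1 - σ) := by
    rw [hF hs0 1 zero_le_one le_rfl, hF hs0 σ (hu1.trans huσ) hσ1]
    have h1 : 0 ≤ σ := hu1.trans huσ
    rw [hb]
    nlinarith
  obtain ⟨r, hr, -, -, hden⟩ := Pool.Agent.Helper54.NS.exists_level hσlt (hy.lipschitzOnWith (s := Icc σ 1)) hincr
    (Q := fun _ => True) (Eventually.of_forall fun _ => trivial)
  have hr0 : 0 < r := (hu1.trans huσ).trans_lt hr.1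
  -- the truncation
  obtain ⟨F1, i1, ψ1, φ1, C'', hC'', hsub, h1⟩ := hL (fun _ => ⟨r, hr0, hr.2.le⟩)
  obtain ⟨S1, s1, hs1⟩ := hC''.ne
  have hs1' := hsub _ _ hs1
  have h2 := (h1 S1 s1 hs1 0).2
  have hic1 := (hv S1 s1 hs1').1.1
  have e0 : r * (0 : ℝ) = 0 := mul_zero r
  have hd2 : d ≤ 2 := by
    have h3 := s0.F_nonneg 0 1
    rw [hF hs0 1 zero_le_one le_rfl] at h3
    linarith
  refine ⟨_, trn s1 r hr0 hr.2.le, i, j, b, hij, by linarith, by linarith, RobS.of_robA h2, ic_trn_zero hr0 hr.2.le hic1, ?_, ?_, ?_⟩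
  · have h3 := la_trn (s := s1) (i := i) (J := {0, j.succ}) (r := r) (h0 := hr0) (h1 := hr.2.le) 0
    rw [e0, hla hs1' i {0, j.succ} 0] at h3
    have h4 : r * la (trn s1 r hr0 hr.2.le) i {0, j.succ} 0 < r * 1 := by
      rw [mul_one]
      exact h3.trans_lt hr.1
    exact lt_of_mul_lt_mul_left h4 hr0.le
  · -- the depths of the directions
    have h3 := la_trn (s := s1) (i := j) (J := {0}) (r := r) (h0 := hr0) (h1 := hr.2.le) 0
    rw [e0, hla hs1' j {0} 0] at h3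
    have h4 : H (TR.dg (TR.cor s1.x i) (la s1 i {0} 0)) = 0 := H_Xj_la hic1 i
    rw [hla hs1' i {0} 0] at h4
    have h5 : H (TR.dg (TR.cor (trn s1 r hr0 hr.2.le).x i) (la (trn s1 r hr0 hr.2.le) j {0} 0)) = 0 := by
      rw [H_trn_xj]
      have h6 : H (TR.dg (TR.cor s1.x i) (r * la (trn s1 r hr0 hr.2.le) j {0} 0)) = 0 := by
        exact le_antisymm ((H_mono (TR.dg_mono _ (h3.trans hu))).trans h4.le) (H_nonneg _)
      rw [h6, zero_div]
    exact le_la (HH_of_H_zero (la_nonneg _) (la_le_one _) h5 0)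
  · apply dens_trn
    have e1 : Ioo (r - 1) r = Ioo (r - 1) r := rfl
    refine hden.congr' ?_
    filter_upwards [Ioo_mem_nhdsGT hr0] with δ hδ
    congr 2
    ext q
    constructor
    · rintro ⟨h3, h4⟩
      refine ⟨h3, fun h5 => h4 ?_⟩
      have hq : q ∈ Ioo (0 : ℝ) 1 := ⟨by linarith [h3.1, hδ.2], h3.2.trans hr.2⟩
      exact (defic_iff (hv S0 s0 hs0).2.1 hq).mpr ((defic_iff (hv S1 s1 hs1').2.1 hq).mp h5)
    · rintro ⟨h3, h4⟩
      refine ⟨h3, fun h5 => h4 ?_⟩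
      have hq : q ∈ Ioo (0 : ℝ) 1 := ⟨by linarith [h3.1, hδ.2], h3.2.trans hr.2⟩
      exact (defic_iff (hv S1 s1 hs1').2.1 hq).mpr ((defic_iff (hv S0 s0 hs0).2.1 hq).mp h5)

end

end Pool.Agent.Helper19.S12
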