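import Pool.Agent.Helper19.S12.Hbk
import Pool.Agent.Helper68.ST2.Fin
import Pool.Agent.Helper90.SEP.Rch

/-! **`ST 1 2`**. -/

set_option autoImplicit false

namespace Pool.Agent.Helper19.S12

open Finset Filter Topology Set Pool.Agent.Helper69.RK Pool.Agent.Helper31.EC Pool.Agent.Helper31.EC.Sp
open Pool.Agent.Helper42.NS Pool.Agent.Helper91.GR Pool.Agent.Helper59.GR

noncomputable section

/-- EXISTENCE OF A CORNER if `ST 1 2` fails -/
theorem exists_crn' (hST : ¬ Pool.Agent.Helper59.EV.ST 1 2) :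
    ∃ (S : Sp) (s : Sys S 2) (i j : Fin 2) (c w b : ℝ), Crn s i j c w b := by
  refine exists_crn (fun S s i j σ hij h => ?_) hST
  refine Hf_of_SJ ?_ h
  rw [Finset.mem_insert, Finset.mem_singleton]
  rintro (h1 | h1)
  · exact Fin.succ_ne_zero i h1
  · exact hij (Fin.succ_injective _ h1)

/-- **`ST 1 2`** -/
theorem st12 : Pool.Agent.Helper59.EV.ST 1 2 := by
  by_contra hST
  obtain ⟨S, s, i, j, c, w, b, K⟩ := exists_crn' hST
  exact Pool.Agent.Helper68.ST2.crn_false K (crn_bk K)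
    (fun _ _ _ _ _ B n => Pool.Agent.Helper90.SEP.Crn.rich K B n)

end

end Pool.Agent.Helper19.S12
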