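import Pool.Agent.Helper91.GR.Spd
import Pool.Agent.Helper52.SL.Lvf

/-! Sheets of truncations are sheets of the system. -/

set_option autoImplicit false

namespace Pool.Agent.Helper19.S12

open Finset Filter Topology Pool.Agent.Helper69.RK Pool.Agent.Helper31.EC Pool.Agent.Helper31.EC.Sp
open Pool.Agent.Helper40.EL Pool.Agent.Helper42.NS Pool.Agent.Helper52.KP Pool.Agent.Helper52.SL
open Pool.Agent.Helper91.GR

noncomputable section

variable {S : Sp} {m : ℕ}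

theorem Sub_of_chg {r : ℝ} {h0 : 0 < r} {K : ℕ → ℝ} (h : (S.chg S.tr r h0).Sub K) : S.Sub K := by
  refine ⟨h.1, ?_⟩
  have h1 : Tendsto (fun k => Real.logb 2 (K k + 2) / (r * (S.F k).n)) UF (𝓝 0) := h.2
  have h2 := h1.const_mul r
  rw [mul_zero] at h2
  refine h2.congr fun k => ?_
  have := (S.F k).pos.ne'
  field_simp

theorem Sht_of_trn {s : Sys S m} {r : ℝ} {h0 : 0 < r} {h1 : r ≤ 1} {i : Fin m} {J : Finset (Fin (m + 1))} {σ : ℝ}
    {l : Lab (S.chg S.tr r h0)} {v : ∀ k, (l k).T.Ω → Cf (m + 1)} (h : Sht (trn s r h0 h1) i J σ l v) :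
    Sht s i J (r * σ) (untL l) v := by
  obtain ⟨a, K, hK, b, c⟩ := h
  refine ⟨a, K, Sub_of_chg hK, b, ?_⟩
  rw [Typ_iff] at c ⊢
  refine c.congr fun k => ?_
  have e : (S.chg S.tr r h0).dl σ k = S.dl (r * σ) k := chg_dl S.tr r h0 σ k
  exact congrArg (fun d => (l k).T.pb (fun ω => |dfl (trn s r h0 h1) i J l v k ω| ≤ K k * d)) e

/-- sheets of the truncation at the level `r` are sheets of the system -/
theorem HH_of_trn {s : Sys S m} {r : ℝ} {h0 : 0 < r} {h1 : r ≤ 1} {i : Fin m} {J : Finset (Fin (m + 1))} {c σ : ℝ}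
    (hs : 0 ≤ σ) (hs1 : σ ≤ 1) (h : HH (SJ i J) (trn s r h0 h1) c σ) : HH (SJ i J) s (r * c) (r * σ) := by
  obtain ⟨l, v, hl, hv⟩ := Sht_of_HH h
  have h2 : DMc (trn s r h0 h1) c l := hl
  exact HH_of_Sht (by positivity) (by nlinarith) (DMc.of_trn h2) (Sht_of_trn hv)

end

end Pool.Agent.Helper19.S12
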